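import Pool.Agent.Helper20.MC.Wild

/-!
# Sentences with few models for the finite unions of arithmetic progressions
-/

set_option autoImplicit false

namespace Pool.Agent.Helper20.MC

open FirstOrder FirstOrder.Language Pool.Agent.Helper20.Spectra Pool.Agent.Helper58.QD

/-- `P` has `r` elements and `E` is an equivalence relation with classes of size `t` outside -/
structure Unif (t r : ℕ) {M : Type} (E : M → M → Prop) (P : M → Prop) : Prop where
  out : ∀ x y, E x y → ¬ P x
  refl : ∀ x, ¬ P x → E x x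
  symm : ∀ x y, E x y → E y x
  trans : ∀ x y z, E x y → E y z → E x z
  cardP : ∃ x : Fin r → M, (∀ i j, x i = x j → i = j) ∧ ∀ y, P y ↔ ∃ i, y = x i
  cardE : ∀ y, ¬ P y → ∃ x : Fin t → M, (∀ i j, x i = x j → i = j) ∧ ∀ z, E y z ↔ ∃ i, z = x i

/-- the same block -/
def SameB {r l t : ℕ} (a b : Fin r ⊕ (Fin l × Fin t)) : Prop :=
  ∃ i c d, a = Sum.inr (i, c) ∧ b = Sum.inr (i, d)

/-- `e` is a coordinate system -/
def Coord {r l t : ℕ} {M : Type} (E : M → M → Prop) (P : M → Prop)
    (e : Fin r ⊕ (Fin l × Fin t) ≃ M) : Prop :=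
  (∀ a, P (e a) ↔ ∃ x, a = Sum.inl x) ∧ ∀ a b, E (e a) (e b) ↔ SameB a b

lemma Unif.exists_coord {t r : ℕ} {M : Type} [Fintype M] {E : M → M → Prop} {P : M → Prop}
    (h : Unif t r E P) : ∃ (l : ℕ) (e : Fin r ⊕ (Fin l × Fin t) ≃ M), Coord E P e := by
  classical
  let s : Setoid {y : M // ¬ P y} :=
    ⟨fun a b => E a.1 b.1, fun a => h.refl _ a.2, fun h1 => h.symm _ _ h1,
      fun h1 h2 => h.trans _ _ _ h1 h2⟩
  let Q := Quotient s
  let eQ : Q ≃ Fin (Fintype.card Q) := Fintype.equivFin Q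
  obtain ⟨xP, hP1, hP2⟩ := h.cardP
  let eP : Fin r ≃ {y : M // P y} := Equiv.ofBijective (fun i => ⟨xP i, (hP2 _).2 ⟨i, rfl⟩⟩)
    ⟨fun i j hij => hP1 i j (congrArg Subtype.val hij), fun y => by
      obtain ⟨i, hi⟩ := (hP2 y.1).1 y.2
      exact ⟨i, Subtype.ext hi.symm⟩⟩
  have hg : ∀ q : Q, Nonempty (Fin t ≃ {x : {y : M // ¬ P y} // (Quotient.mk s x : Q) = q}) := by
    intro q
    obtain ⟨y, rfl⟩ := Quotient.exists_rep q
    obtain ⟨x, hx1, hx2⟩ := h.cardE y.1 y.2
    have hE : ∀ i, E y.1 (x i) := fun i => (hx2 _).2 ⟨i, rfl⟩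
    have hn : ∀ i, ¬ P (x i) := fun i => h.out _ _ (h.symm _ _ (hE i))
    refine ⟨Equiv.ofBijective (fun i => ⟨⟨x i, hn i⟩, Quotient.sound (h.symm _ _ (hE i))⟩) ⟨?_, ?_⟩⟩
    · intro i j hij
      exact hx1 i j (congrArg (fun p => p.1.1) hij)
    · rintro ⟨z, hz⟩
      have h1 : E z.1 y.1 := Quotient.exact hz
      obtain ⟨i, hi⟩ := (hx2 z.1).1 (h.symm _ _ h1)
      exact ⟨i, Subtype.ext (Subtype.ext hi.symm)⟩
  let g : ∀ q : Q, Fin t ≃ {x : {y : M // ¬ P y} // (Quotient.mk s x : Q) = q} :=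
    fun q => (hg q).some
  let e1 : Fin (Fintype.card Q) × Fin t ≃ {y : M // ¬ P y} :=
    (Equiv.prodCongr eQ.symm (Equiv.refl (Fin t))).trans
      ((Equiv.sigmaEquivProd Q (Fin t)).symm.trans ((Equiv.sigmaCongrRight g).trans
        (Equiv.sigmaFiberEquiv (fun x : {y : M // ¬ P y} => (Quotient.mk s x : Q)))))
  have he1 : ∀ i c, (Quotient.mk s (e1 (i, c)) : Q) = eQ.symm i := fun i c =>
    (g (eQ.symm i) c).2
  let e : Fin r ⊕ (Fin (Fintype.card Q) × Fin t) ≃ M :=
    (Equiv.sumCongr eP e1).trans (Equiv.sumCompl P)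
  have hl : ∀ x, e (Sum.inl x) = (eP x).1 := fun _ => rfl
  have hr : ∀ p, e (Sum.inr p) = (e1 p).1 := fun _ => rfl
  refine ⟨Fintype.card Q, e, ?_, ?_⟩
  · rintro (x | p)
    · rw [hl]
      exact ⟨fun _ => ⟨x, rfl⟩, fun _ => (eP x).2⟩
    · rw [hr]
      constructor
      · intro h1
        exact absurd h1 (e1 p).2
      · rintro ⟨x, hx⟩
        simp at hx
  · intro a b
    unfold SameB
    rcases a with x | ⟨i, c⟩
    · constructor
      · intro h1
        exact absurd (eP x).2 (h.out _ _ h1)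
      · rintro ⟨i, c, d, h1, _⟩
        simp at h1
    · rcases b with y | ⟨j, d⟩
      · constructor
        · intro h1
          exact absurd (eP y).2 (h.out _ _ (h.symm _ _ h1))
        · rintro ⟨i, c, d, _, h1⟩
          simp at h1
      · rw [hr, hr]
        have h1 : E (e1 (i, c)).1 (e1 (j, d)).1 ↔
            (Quotient.mk s (e1 (i, c)) : Q) = Quotient.mk s (e1 (j, d)) :=
          ⟨fun h2 => Quotient.sound h2, fun h2 => Quotient.exact h2⟩
        rw [h1, he1, he1]
        constructor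
        · intro h2
          have h3 := eQ.symm.injective h2
          exact ⟨i, c, d, rfl, by rw [h3]⟩
        · rintro ⟨i', c', d', h2, h3⟩
          simp only [Sum.inr.injEq, Prod.mk.injEq] at h2 h3
          rw [h2.1, h3.1]

lemma coord_unif {t r l : ℕ} {M : Type} {E : M → M → Prop} {P : M → Prop}
    {e : Fin r ⊕ (Fin l × Fin t) ≃ M} (h : Coord E P e) : Unif t r E P := by
  have hE : ∀ x y, E x y ↔ SameB (e.symm x) (e.symm y) := fun x y => by
    have := h.2 (e.symm x) (e.symm y)
    rwa [Equiv.apply_symm_apply, Equiv.apply_symm_apply] at this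
  have hP : ∀ x, P x ↔ ∃ i, e.symm x = Sum.inl i := fun x => by
    have := h.1 (e.symm x)
    rwa [Equiv.apply_symm_apply] at this
  refine ⟨?_, ?_, ?_, ?_, ?_, ?_⟩
  · intro x y h1 h2
    obtain ⟨i, c, d, h3, _⟩ := (hE x y).1 h1
    obtain ⟨j, hj⟩ := (hP x).1 h2
    rw [h3] at hj
    simp at hj
  · intro x h1
    rw [hE]
    rw [hP] at h1
    rcases h2 : e.symm x with a | ⟨i, c⟩
    · exact absurd ⟨a, h2⟩ h1
    · exact ⟨i, c, c, rfl, rfl⟩
  · intro x y h1
    rw [hE] at h1 ⊢
    obtain ⟨i, c, d, h3, h4⟩ := h1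
    exact ⟨i, d, c, h4, h3⟩
  · intro x y z h1 h2
    rw [hE] at h1 h2 ⊢
    obtain ⟨i, c, d, h3, h4⟩ := h1
    obtain ⟨j, c', d', h5, h6⟩ := h2
    rw [h4] at h5
    simp only [Sum.inr.injEq, Prod.mk.injEq] at h5
    exact ⟨i, c, d', h3, by rw [h6, h5.1]⟩
  · refine ⟨fun i => e (Sum.inl i), fun i j hij => ?_, fun y => ?_⟩
    · exact Sum.inl_injective (e.injective hij)
    · rw [hP]
      constructor
      · rintro ⟨i, hi⟩
        exact ⟨i, by beta_reduce; rw [← hi, Equiv.apply_symm_apply]⟩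
      · rintro ⟨i, hi⟩
        exact ⟨i, by rw [hi, Equiv.symm_apply_apply]⟩
  · intro y hy
    rw [hP] at hy
    rcases h2 : e.symm y with a | ⟨i, c⟩
    · exact absurd ⟨a, h2⟩ hy
    · refine ⟨fun d => e (Sum.inr (i, d)), fun d d' hd => ?_, fun z => ?_⟩
      · have := e.injective hd
        simp only [Sum.inr.injEq, Prod.mk.injEq, true_and] at this
        exact this
      · rw [hE, h2]
        constructor
        · rintro ⟨i', c', d, h3, h4⟩
          simp only [Sum.inr.injEq, Prod.mk.injEq] at h3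
          refine ⟨d, ?_⟩
          beta_reduce
          rw [h3.1, ← h4, Equiv.apply_symm_apply]
        · rintro ⟨d, hd⟩
          refine ⟨i, c, d, rfl, ?_⟩
          rw [hd, Equiv.symm_apply_apply]

/-- moving blocks -/
def wr {r l t : ℕ} (σ : Equiv.Perm (Fin l)) (b : Fin l → Equiv.Perm (Fin t)) :
    Fin r ⊕ (Fin l × Fin t) ≃ Fin r ⊕ (Fin l × Fin t) where
  toFun a := match a with
    | Sum.inl x => Sum.inl x
    | Sum.inr (i, c) => Sum.inr (σ i, b i c)
  invFun a := match a with
    | Sum.inl x => Sum.inl x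
    | Sum.inr (i, c) => Sum.inr (σ.symm i, (b (σ.symm i)).symm c)
  left_inv := by
    rintro (x | ⟨i, c⟩)
    · rfl
    · simp
  right_inv := by
    rintro (x | ⟨i, c⟩)
    · rfl
    · simp

lemma wr_inl {r l t : ℕ} (σ : Equiv.Perm (Fin l)) (b : Fin l → Equiv.Perm (Fin t)) (x : Fin r) :
    wr σ b (Sum.inl x) = Sum.inl x := rfl

lemma wr_inr {r l t : ℕ} (σ : Equiv.Perm (Fin l)) (b : Fin l → Equiv.Perm (Fin t)) (i : Fin l)
    (c : Fin t) : wr (r := r) σ b (Sum.inr (i, c)) = Sum.inr (σ i, b i c) := rfl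

lemma coord_wr {t r l : ℕ} {M : Type} {E : M → M → Prop} {P : M → Prop}
    {e : Fin r ⊕ (Fin l × Fin t) ≃ M} (h : Coord E P e) (σ : Equiv.Perm (Fin l))
    (b : Fin l → Equiv.Perm (Fin t)) : Coord E P ((wr σ b).trans e) := by
  refine ⟨fun a => ?_, fun a a' => ?_⟩
  · rw [Equiv.trans_apply, h.1]
    rcases a with x | ⟨i, c⟩
    · rw [wr_inl]
    · rw [wr_inr]
      constructor
      · rintro ⟨x, hx⟩
        simp at hx
      · rintro ⟨x, hx⟩
        simp at hx
  · rw [Equiv.trans_apply, Equiv.trans_apply, h.2]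
    unfold SameB
    rcases a with x | ⟨i, c⟩
    · rw [wr_inl]
      constructor
      · rintro ⟨_, _, _, h1, _⟩
        simp at h1
      · rintro ⟨_, _, _, h1, _⟩
        simp at h1
    · rcases a' with y | ⟨j, d⟩
      · rw [wr_inl]
        constructor
        · rintro ⟨_, _, _, _, h1⟩
          simp at h1
        · rintro ⟨_, _, _, _, h1⟩
          simp at h1
      · rw [wr_inr, wr_inr]
        constructor
        · rintro ⟨i', c', d', h1, h2⟩
          simp only [Sum.inr.injEq, Prod.mk.injEq] at h1 h2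
          have h3 : i = j := σ.injective (h1.1.trans h2.1.symm)
          subst h3
          exact ⟨i, c, d, rfl, rfl⟩
        · rintro ⟨i', c', d', h1, h2⟩
          simp only [Sum.inr.injEq, Prod.mk.injEq] at h1 h2
          have h3 : i = j := h1.1.trans h2.1.symm
          subst h3
          exact ⟨σ i, b i c, b i d, rfl, rfl⟩

/-- counting -/
theorem card_unif {n r l t : ℕ} (ht : 1 ≤ t) (hn : n = r + l * t) :
    Nat.card {R : Interp Bool ar2 (Fin n) // Unif t r (leB R) (inB R)} *
      (l.factorial * t.factorial ^ l) ≤ n.factorial := by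
  have h1 : ∀ R : {R : Interp Bool ar2 (Fin n) // Unif t r (leB R) (inB R)},
      ∃ e : Fin r ⊕ (Fin l × Fin t) ≃ Fin n, Coord (leB R.1) (inB R.1) e := by
    intro R
    obtain ⟨l', e, he⟩ := R.2.exists_coord
    have h2 := Fintype.card_congr e
    simp only [Fintype.card_sum, Fintype.card_prod, Fintype.card_fin] at h2
    have h3 : l' * t = l * t := by omega
    have h4 : l' = l := Nat.eq_of_mul_eq_mul_right ht h3
    subst h4
    exact ⟨e, he⟩
  choose e he using h1
  let F : {R : Interp Bool ar2 (Fin n) // Unif t r (leB R) (inB R)} ×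
      (Equiv.Perm (Fin l) × (Fin l → Equiv.Perm (Fin t))) →
      (Fin r ⊕ (Fin l × Fin t) ≃ Fin n) := fun p => (wr p.2.1 p.2.2).trans (e p.1)
  have hF : Function.Injective F := by
    rintro ⟨R, σ, b⟩ ⟨R', σ', b'⟩ hFF
    have hFF' : (wr σ b).trans (e R) = (wr σ' b').trans (e R') := hFF
    have c1 := coord_wr (he R) σ b
    have c2 := coord_wr (he R') σ' b'
    rw [← hFF'] at c2
    have hRR : R = R' := by
      apply Subtype.ext
      funext s
      cases s with
      | true =>
        funext v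
        have hv : v = ![v (0 : Fin 2), v (1 : Fin 2)] := by
          funext i
          fin_cases i <;> rfl
        rw [hv]
        have h2 := c1.2 (((wr σ b).trans (e R)).symm (v (0 : Fin 2)))
          (((wr σ b).trans (e R)).symm (v (1 : Fin 2)))
        have h3 := c2.2 (((wr σ b).trans (e R)).symm (v (0 : Fin 2)))
          (((wr σ b).trans (e R)).symm (v (1 : Fin 2)))
        rw [Equiv.apply_symm_apply, Equiv.apply_symm_apply] at h2 h3
        exact propext (h2.trans h3.symm)
      | false =>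
        funext v
        have hv : v = ![v (0 : Fin 1)] := by
          funext i
          fin_cases i
          rfl
        rw [hv]
        have h2 := c1.1 (((wr σ b).trans (e R)).symm (v (0 : Fin 1)))
        have h3 := c2.1 (((wr σ b).trans (e R)).symm (v (0 : Fin 1)))
        rw [Equiv.apply_symm_apply] at h2 h3
        exact propext (h2.trans h3.symm)
    subst hRR
    have h4 : ∀ i c, (Sum.inr (σ i, b i c) : Fin r ⊕ (Fin l × Fin t)) = Sum.inr (σ' i, b' i c) := by
      intro i c
      have h5 := congrArg (fun u => u (Sum.inr (i, c))) hFF'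
      exact (e R).injective h5
    have hσ : σ = σ' := by
      ext i
      have h5 := h4 i ⟨0, ht⟩
      simp only [Sum.inr.injEq, Prod.mk.injEq] at h5
      rw [h5.1]
    have hb : b = b' := by
      funext i
      ext c
      have h5 := h4 i c
      simp only [Sum.inr.injEq, Prod.mk.injEq] at h5
      rw [h5.2]
    rw [hσ, hb]
  have h2 := Nat.card_le_card_of_injective F hF
  rw [Nat.card_prod, Nat.card_prod] at h2
  have h3 : Nat.card (Equiv.Perm (Fin l)) = l.factorial := by
    rw [Nat.card_eq_fintype_card, Fintype.card_perm, Fintype.card_fin]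
  have h4 : Nat.card (Fin l → Equiv.Perm (Fin t)) = t.factorial ^ l := by
    rw [Nat.card_eq_fintype_card, Fintype.card_fun, Fintype.card_perm, Fintype.card_fin,
      Fintype.card_fin]
  have h5 : Nat.card (Fin r ⊕ (Fin l × Fin t) ≃ Fin n) = n.factorial := by
    have e0 : Fin r ⊕ (Fin l × Fin t) ≃ Fin n := Fintype.equivFinOfCardEq (by simp [hn])
    rw [Nat.card_eq_fintype_card, Fintype.card_equiv e0]
    simp [hn]
  rw [h3, h4, h5] at h2
  exact h2

end Pool.Agent.Helper20.MC
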