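import Pool.Agent.Helper20.MC.Conv
import Pool.Agent.Helper40.MC.Defs

/-!
# Sentences with few models for the finite unions of arithmetic progressions: the sentence
-/

set_option autoImplicit false

namespace Pool.Agent.Helper20.MC

open FirstOrder FirstOrder.Language Pool.Agent.Helper20.Spectra Pool.Agent.Helper58.QD
open Pool.Agent.Helper40.MC Filter

/-! ### Numbers -/

lemma fac_le {n l : ℕ} (h : l ≤ n) : n.factorial ≤ l.factorial * n ^ (n - l) := by
  have h1 := Nat.factorial_mul_descFactorial (n := n) (k := n - l) (by omega)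
  have h2 : n - (n - l) = l := by omega
  rw [h2] at h1
  rw [← h1]
  exact Nat.mul_le_mul_left _ (Nat.descFactorial_le_pow n (n - l))

lemma pow_bound {N n r l t k : ℕ} (hk : 2 ≤ k) (ht1 : 1 ≤ t) (ht : t ≤ k) (hr : r < t)
    (hn : n = r + l * t) (hn2 : 2 ≤ n) (h : N * (l.factorial * t.factorial ^ l) ≤ n.factorial) :
    N ^ k * 2 ^ (n - k) ≤ n ^ ((k - 1) * n + (k - 1)) := by
  have hl : l ≤ n := by
    have : l * 1 ≤ l * t := Nat.mul_le_mul_left _ ht1
    omega
  have h1 : N * t.factorial ^ l ≤ n ^ (n - l) := by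
    have h2 := fac_le hl
    have h3 : 0 < l.factorial := Nat.factorial_pos l
    have h4 : l.factorial * (N * t.factorial ^ l) ≤ l.factorial * n ^ (n - l) := by
      calc l.factorial * (N * t.factorial ^ l) = N * (l.factorial * t.factorial ^ l) := by ring
        _ ≤ _ := h.trans h2
    exact Nat.le_of_mul_le_mul_left h4 h3
  rcases Nat.lt_or_ge 1 t with ht2 | ht2
  · have h2 : 2 ^ l ≤ t.factorial ^ l := by
      apply Nat.pow_le_pow_left
      calc 2 = (2 : ℕ).factorial := rfl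
        _ ≤ t.factorial := Nat.factorial_le ht2
    have h3 : N * 2 ^ l ≤ n ^ (n - l) := (Nat.mul_le_mul_left _ h2).trans h1
    have hkl : n + 1 ≤ k * l + k := by
      have h5 : t * (l + 1) ≤ k * (l + 1) := Nat.mul_le_mul_right _ ht
      have h6 : t * (l + 1) = l * t + t := by ring
      have h7 : k * (l + 1) = k * l + k := by ring
      omega
    calc N ^ k * 2 ^ (n - k) ≤ N ^ k * 2 ^ (k * l) :=
          Nat.mul_le_mul_left _ (Nat.pow_le_pow_right (by omega) (by omega))
      _ = (N * 2 ^ l) ^ k := by rw [mul_pow, ← pow_mul, mul_comm l k]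
      _ ≤ (n ^ (n - l)) ^ k := Nat.pow_le_pow_left h3 k
      _ = n ^ ((n - l) * k) := by rw [← pow_mul]
      _ ≤ n ^ ((k - 1) * n + (k - 1)) := by
        apply Nat.pow_le_pow_right (by omega)
        obtain ⟨m, rfl⟩ : ∃ m, k = m + 1 := ⟨k - 1, by omega⟩
        obtain ⟨d, rfl⟩ : ∃ d, n = l + d := ⟨n - l, by omega⟩
        have e1 : l + d - l = d := by omega
        rw [e1, Nat.add_sub_cancel]
        nlinarith
  · have ht' : t = 1 := by omega
    subst ht'
    have hr0 : r = 0 := by omega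
    subst hr0
    have hln : l = n := by omega
    subst hln
    simp only [Nat.factorial_one, one_pow, mul_one, Nat.sub_self, pow_zero] at h1
    have h2 : N ^ k ≤ 1 := by
      calc N ^ k ≤ 1 ^ k := Nat.pow_le_pow_left h1 k
        _ = 1 := one_pow k
    calc N ^ k * 2 ^ (l - k) ≤ 1 * 2 ^ (l - k) := Nat.mul_le_mul_right _ h2
      _ = 2 ^ (l - k) := one_mul _
      _ ≤ l ^ (l - k) := Nat.pow_le_pow_left hn2 _
      _ ≤ l ^ ((k - 1) * l + (k - 1)) := by
        apply Nat.pow_le_pow_right (by omega)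
        have : 1 * l ≤ (k - 1) * l := Nat.mul_le_mul_right _ (by omega)
        omega

lemma ev_exp (m k : ℕ) : ∀ᶠ n : ℕ in atTop, m * n ^ k ≤ 2 ^ n := by
  have h := tendsto_pow_const_div_const_pow_of_one_lt k (r := (2 : ℝ)) (by norm_num)
  have hε : (0 : ℝ) < 1 / (m + 1) := by positivity
  filter_upwards [h.eventually (gt_mem_nhds hε)] with n hn
  rw [div_lt_div_iff₀ (by positivity) (by positivity)] at hn
  have h1 : ((m * n ^ k : ℕ) : ℝ) ≤ ((2 ^ n : ℕ) : ℝ) := by
    push_cast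
    have : (0 : ℝ) ≤ (n : ℝ) ^ k := by positivity
    nlinarith
  exact_mod_cast h1

/-! ### The sentence -/

section Definability

variable {α : Type}

lemma card_ge_FD (m : ℕ) : FD Bool ar2 α (fun M _ _ => ∃ x : Fin m → M,
    ∀ i j, x i = x j → i = j) := by
  refine FD.ex (FD.all_fin (fun i => FD.all_fin (fun j => FD.imp (FD.eq ?_ ?_) (FD.const _))))
  · exact El.var _
  · exact El.var _

lemma card_eq_FD (m : ℕ) : FD Bool ar2 α (fun M _ _ => ∃ x : Fin m → M,
    (∀ i j, x i = x j → i = j) ∧ ∀ y, ∃ i, y = x i) := by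
  refine FD.ex (FD.and (FD.all_fin (fun i => FD.all_fin (fun j => FD.imp (FD.eq ?_ ?_)
    (FD.const _)))) (FD.all1 (FD.ex_fin (fun i => FD.eq ?_ ?_))))
  · exact El.var _
  · exact El.var _
  · exact El.var _
  · exact El.var _

lemma empty_FD : FD Bool ar2 α (fun M R _ => (∀ x y : M, ¬ leB R x y) ∧ ∀ x : M, ¬ inB R x) := by
  have v0 : ∀ {α : Type}, El (α ⊕ Unit) (fun M v => v (Sum.inr ())) := El.inr
  exact FD.and (FD.all1 (FD.all1 (FD.not (leB_BFD _ _ _ v0.inl v0))))
    (FD.all1 (FD.not (inB_UFD _ _ v0)))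

lemma unif_FD (t r : ℕ) : FD Bool ar2 α (fun _ R _ => Unif t r (leB R) (inB R)) := by
  have v0 : ∀ {α : Type}, El (α ⊕ Unit) (fun M v => v (Sum.inr ())) := El.inr
  have hle := leB_BFD
  have hin := inB_UFD
  have h1 : FD Bool ar2 α (fun M R _ => ∀ x y : M, leB R x y → ¬ inB R x) :=
    FD.all1 (FD.all1 (FD.imp (hle _ _ _ v0.inl v0) (FD.not (hin _ _ v0.inl))))
  have h2 : FD Bool ar2 α (fun M R _ => ∀ x : M, ¬ inB R x → leB R x x) :=
    FD.all1 (FD.imp (FD.not (hin _ _ v0)) (hle _ _ _ v0 v0))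
  have h3 : FD Bool ar2 α (fun M R _ => ∀ x y : M, leB R x y → leB R y x) :=
    FD.all1 (FD.all1 (FD.imp (hle _ _ _ v0.inl v0) (hle _ _ _ v0 v0.inl)))
  have h4 : FD Bool ar2 α (fun M R _ => ∀ x y z : M, leB R x y → leB R y z → leB R x z) :=
    FD.all1 (FD.all1 (FD.all1 (FD.imp (hle _ _ _ v0.inl.inl v0.inl) (FD.imp
      (hle _ _ _ v0.inl v0) (hle _ _ _ v0.inl.inl v0)))))
  have h5 : FD Bool ar2 α (fun M R _ => ∃ x : Fin r → M, (∀ i j, x i = x j → i = j) ∧
      ∀ y, inB R y ↔ ∃ i, y = x i) := by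
    refine FD.ex (FD.and (FD.all_fin (fun i => FD.all_fin (fun j => FD.imp (FD.eq ?_ ?_)
      (FD.const _)))) (FD.all1 (FD.iff (hin _ _ v0) (FD.ex_fin (fun i => FD.eq ?_ ?_)))))
    · exact El.var _
    · exact El.var _
    · exact El.var _
    · exact El.var _
  have h6 : FD Bool ar2 α (fun M R _ => ∀ y : M, ¬ inB R y → ∃ x : Fin t → M,
      (∀ i j, x i = x j → i = j) ∧ ∀ z, leB R y z ↔ ∃ i, z = x i) := by
    refine FD.all1 (FD.imp (FD.not (hin _ _ v0)) (FD.ex (FD.and (FD.all_fin (fun i =>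
      FD.all_fin (fun j => FD.imp (FD.eq ?_ ?_) (FD.const _)))) (FD.all1 (FD.iff
      (hle _ _ _ ?_ v0) (FD.ex_fin (fun i => FD.eq ?_ ?_)))))))
    · exact El.var _
    · exact El.var _
    · exact El.var (Sum.inl (Sum.inl (Sum.inr ())))
    · exact El.var _
    · exact El.var _
  refine (FD.and h1 (FD.and h2 (FD.and h3 (FD.and h4 (FD.and h5 h6))))).congr (fun M R v => ?_)
  constructor
  · rintro ⟨h1, h2, h3, h4, h5, h6⟩
    exact ⟨h1, h2, h3, h4, h5, h6⟩
  · rintro ⟨h1, h2, h3, h4, h5, h6⟩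
    exact ⟨h1, h2, h3, h4, h5, h6⟩

end Definability

lemma card_ge {m n : ℕ} : (∃ x : Fin m → Fin n, ∀ i j, x i = x j → i = j) ↔ m ≤ n := by
  constructor
  · rintro ⟨x, hx⟩
    have := Fintype.card_le_of_injective x (fun i j h => hx i j h)
    simpa using this
  · intro h
    exact ⟨Fin.castLE h, fun i j hij => Fin.castLE_injective h hij⟩

lemma card_eq {m n : ℕ} : (∃ x : Fin m → Fin n, (∀ i j, x i = x j → i = j) ∧
    ∀ y, ∃ i, y = x i) ↔ m = n := by
  constructor
  · rintro ⟨x, hx, hy⟩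
    have := Fintype.card_of_bijective (f := x) ⟨fun i j h => hx i j h, fun y => by
      obtain ⟨i, hi⟩ := hy y
      exact ⟨i, hi.symm⟩⟩
    simpa using this
  · rintro rfl
    exact ⟨id, fun i j h => h, fun y => ⟨y, rfl⟩⟩

lemma exists_unif {n r l t : ℕ} (hn : n = r + l * t) :
    ∃ R : Interp Bool ar2 (Fin n), Unif t r (leB R) (inB R) := by
  have e : Fin r ⊕ (Fin l × Fin t) ≃ Fin n := Fintype.equivFinOfCardEq (by simp [hn])
  let R : Interp Bool ar2 (Fin n) := fun b =>
    match b with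
    | true => fun v => SameB (e.symm (v (0 : Fin 2))) (e.symm (v (1 : Fin 2)))
    | false => fun v => ∃ x, e.symm (v (0 : Fin 1)) = Sum.inl x
  refine ⟨R, coord_unif (e := e) ⟨fun a => ?_, fun a b => ?_⟩⟩
  · show (∃ x, e.symm (e a) = Sum.inl x) ↔ _
    rw [Equiv.symm_apply_apply]
  · show SameB (e.symm (e a)) (e.symm (e b)) ↔ _
    rw [Equiv.symm_apply_apply, Equiv.symm_apply_apply]

theorem conv (k : ℕ) (A : Set ℕ) (h0 : 0 ∉ A) (hA : APk k A) :
    ∃ χ : (RelLang Bool ar2).Sentence, Pool.Agent.Helper40.MC.spec χ = A ∧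
      (k = 0 → ∀ᶠ n : ℕ in atTop, count χ n = 0) ∧
      (1 ≤ k → ∀ᶠ n : ℕ in atTop, count χ n ^ k ≤ n ^ ((k - 1) * n)) := by
  classical
  obtain ⟨n₁, hn₁⟩ := hA
  -- the types of large elements
  let G : ℕ × ℕ → Prop := fun p => ∃ n ∈ A, n₁ ≤ n ∧ n % p.1 = p.2 ∧ ∀ j, n + p.1 * j ∈ A
  let T : Finset (ℕ × ℕ) := ((Finset.range (k + 1)) ×ˢ (Finset.range (k + 1))).filter
    (fun p => 1 ≤ p.1 ∧ p.2 < p.1 ∧ G p)
  have hT : ∀ p ∈ T, 1 ≤ p.1 ∧ p.1 ≤ k ∧ p.2 < p.1 ∧ G p := by
    intro p hp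
    rw [Finset.mem_filter, Finset.mem_product, Finset.mem_range, Finset.mem_range] at hp
    exact ⟨hp.2.1, by omega, hp.2.2.1, hp.2.2.2⟩
  have hTc : T.card ≤ (k + 1) * (k + 1) := by
    refine (Finset.card_filter_le _ _).trans ?_
    simp
  have hw : ∃ n₂, n₁ ≤ n₂ ∧ ∀ p ∈ T, ∃ n ∈ A, n ≤ n₂ ∧ n % p.1 = p.2 ∧ ∀ j, n + p.1 * j ∈ A := by
    have h1 : ∀ p ∈ T, ∃ n, n ∈ A ∧ n % p.1 = p.2 ∧ ∀ j, n + p.1 * j ∈ A := by
      intro p hp
      obtain ⟨n, h2, _, h3, h4⟩ := (hT p hp).2.2.2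
      exact ⟨n, h2, h3, h4⟩
    choose! f hf using h1
    refine ⟨n₁ + T.sup f, by omega, fun p hp => ⟨f p, (hf p hp).1, ?_, (hf p hp).2.1,
      (hf p hp).2.2⟩⟩
    have := Finset.le_sup (f := f) hp
    omega
  obtain ⟨n₂, hn12, hn₂⟩ := hw
  have hbig : ∀ n, n₂ ≤ n → (n ∈ A ↔ ∃ p ∈ T, ∃ l, n = p.2 + l * p.1) := by
    intro n hn
    constructor
    · intro h1
      obtain ⟨t, ht1, ht2, h2⟩ := hn₁ n h1 (by omega)
      refine ⟨(t, n % t), ?_, n / t, ?_⟩
      · have h3 : n % t < t := Nat.mod_lt _ ht1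
        rw [Finset.mem_filter, Finset.mem_product, Finset.mem_range, Finset.mem_range]
        exact ⟨⟨by show t < k + 1; omega, by show n % t < k + 1; omega⟩, ht1, h3,
          n, h1, by omega, rfl, h2⟩
      · show n = n % t + n / t * t
        rw [mul_comm]
        exact (Nat.mod_add_div n t).symm
    · rintro ⟨p, hp, l, hl⟩
      obtain ⟨m, hm1, hm2, hm3, hm4⟩ := hn₂ p hp
      obtain ⟨hp1, _, hp3, _⟩ := hT p hp
      have h1 : n % p.1 = p.2 := by
        rw [hl, Nat.add_mul_mod_self_right, Nat.mod_eq_of_lt hp3]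
      have h2 := Nat.mod_add_div n p.1
      have h3 := Nat.mod_add_div m p.1
      have h4 : m / p.1 ≤ n / p.1 := Nat.div_le_div_right (by omega)
      have h5 := hm4 (n / p.1 - m / p.1)
      have h6 : m + p.1 * (n / p.1 - m / p.1) = n := by
        rw [Nat.mul_sub]
        have h7 : p.1 * (m / p.1) ≤ p.1 * (n / p.1) := Nat.mul_le_mul_left _ h4
        omega
      rwa [h6] at h5
  -- the sentence
  obtain ⟨χ, hχ⟩ := FD.or
    (FD.ex_fin (S := Bool) (ar := ar2) (α := Empty) (γ := Fin n₂) (fun a => FD.and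
      (FD.const ((a : ℕ) ∈ A)) (FD.and (card_eq_FD (a : ℕ)) empty_FD)))
    (FD.and (card_ge_FD n₂) (FD.ex_fin (γ := {p // p ∈ T}) (fun p => unif_FD p.1.1 p.1.2)))
  have hM : ∀ {n : ℕ} (R : Interp Bool ar2 (Fin n)), IsMod χ R ↔
      (n < n₂ ∧ n ∈ A ∧ (∀ x y, ¬ leB R x y) ∧ ∀ x, ¬ inB R x) ∨
      (n₂ ≤ n ∧ ∃ p ∈ T, Unif p.1 p.2 (leB R) (inB R)) := by
    intro n R
    have h1 := hχ (Fin n) R Empty.elim
    beta_reduce at h1
    have h2 : IsMod χ R ↔ @Formula.Realize (RelLang Bool ar2) (Fin n) (mkS R) Empty χ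
        (Empty.elim : Empty → Fin n) := (real_iff (mkS R) χ Empty.elim default).symm
    rw [h2, h1]
    apply or_congr
    · constructor
      · rintro ⟨a, ha, hc, he⟩
        have h3 : (a : ℕ) = n := card_eq.1 hc
        have h4 := a.is_lt
        rw [h3] at ha h4
        exact ⟨h4, ha, he.1, he.2⟩
      · rintro ⟨h3, h4, h5, h6⟩
        exact ⟨⟨n, h3⟩, h4, card_eq.2 rfl, h5, h6⟩
    · rw [card_ge]
      apply and_congr_right
      intro _
      constructor
      · rintro ⟨p, hp⟩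
        exact ⟨p.1, p.2, hp⟩
      · rintro ⟨p, hp, h3⟩
        exact ⟨⟨p, hp⟩, h3⟩
  refine ⟨χ, ?_, ?_, ?_⟩
  · ext n
    constructor
    · rintro ⟨_, R, hR⟩
      rcases (hM R).1 hR with ⟨_, h1, _, _⟩ | ⟨h1, p, hp, h2⟩
      · exact h1
      · rw [hbig n h1]
        obtain ⟨l, e, _⟩ := h2.exists_coord
        have h3 := Fintype.card_congr e
        simp only [Fintype.card_sum, Fintype.card_prod, Fintype.card_fin] at h3
        exact ⟨p, hp, l, h3.symm⟩
    · intro h1
      refine ⟨?_, ?_⟩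
      · by_contra h2
        have h3 : n = 0 := by omega
        exact h0 (h3 ▸ h1)
      · rcases Nat.lt_or_ge n n₂ with h2 | h2
        · refine ⟨fun _ _ => False, (hM _).2 (Or.inl ⟨h2, h1, ?_, ?_⟩)⟩
          · exact fun x y h => h
          · exact fun x h => h
        · obtain ⟨p, hp, l, hl⟩ := (hbig n h2).1 h1
          obtain ⟨R, hR⟩ := exists_unif hl
          exact ⟨R, (hM R).2 (Or.inr ⟨h2, p, hp, hR⟩)⟩
  · intro hk
    filter_upwards [eventually_ge_atTop n₂] with n hn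
    have h1 : IsEmpty {R : Interp Bool ar2 (Fin n) // IsMod χ R} := by
      refine ⟨fun R => ?_⟩
      rcases (hM R.1).1 R.2 with ⟨h1, _⟩ | ⟨_, p, hp, _⟩
      · omega
      · have := hT p hp
        omega
    exact Nat.card_of_isEmpty
  · intro hk
    have hle : ∀ n, n₂ ≤ n → count χ n ≤
        ∑ p ∈ T, Nat.card {R : Interp Bool ar2 (Fin n) // Unif p.1 p.2 (leB R) (inB R)} := by
      intro n hn
      have h1 : ∀ R : {R : Interp Bool ar2 (Fin n) // IsMod χ R},
          ∃ p : {p // p ∈ T}, Unif p.1.1 p.1.2 (leB R.1) (inB R.1) := by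
        intro R
        rcases (hM R.1).1 R.2 with ⟨h1, _⟩ | ⟨_, p, hp, h2⟩
        · omega
        · exact ⟨⟨p, hp⟩, h2⟩
      choose f hf using h1
      have h2 := Nat.card_le_card_of_injective
        (fun R : {R : Interp Bool ar2 (Fin n) // IsMod χ R} => (⟨f R, ⟨R.1, hf R⟩⟩ :
          Σ p : {p // p ∈ T}, {R : Interp Bool ar2 (Fin n) // Unif p.1.1 p.1.2 (leB R) (inB R)}))
        (fun R R' h => by
          apply Subtype.ext
          have h3 := congrArg (fun u : (Σ p : {p // p ∈ T},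
            {R : Interp Bool ar2 (Fin n) // Unif p.1.1 p.1.2 (leB R) (inB R)}) => u.2.1) h
          exact h3)
      rw [Nat.card_sigma] at h2
      refine h2.trans (le_of_eq ?_)
      exact Finset.sum_coe_sort T (fun p => Nat.card {R : Interp Bool ar2 (Fin n) //
        Unif p.1 p.2 (leB R) (inB R)})
    rcases Nat.lt_or_ge 1 k with hk2 | hk2
    · filter_upwards [eventually_ge_atTop n₂, eventually_ge_atTop 2, eventually_ge_atTop k,
        ev_exp (((k + 1) * (k + 1)) ^ k * 2 ^ k) (k - 1)] with n hn hn2 hnk hexp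
      rcases T.eq_empty_or_nonempty with hTe | hTn
      · have h1 := hle n hn
        rw [hTe, Finset.sum_empty] at h1
        have h2 : count χ n = 0 := by omega
        rw [h2, zero_pow (by omega)]
        exact Nat.zero_le _
      · obtain ⟨p₀, hp₀, hmax⟩ := Finset.exists_max_image T (fun p => Nat.card
          {R : Interp Bool ar2 (Fin n) // Unif p.1 p.2 (leB R) (inB R)}) hTn
        obtain ⟨X, hX⟩ : ∃ X, X = Nat.card
          {R : Interp Bool ar2 (Fin n) // Unif p₀.1 p₀.2 (leB R) (inB R)} := ⟨_, rfl⟩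
        have h1 : count χ n ≤ (k + 1) * (k + 1) * X := by
          calc count χ n ≤ _ := hle n hn
            _ ≤ T.card • X := Finset.sum_le_card_nsmul _ _ _ (fun p hp => by
              rw [hX]; exact hmax p hp)
            _ = T.card * X := by rw [smul_eq_mul]
            _ ≤ _ := Nat.mul_le_mul_right _ hTc
        have h2 : X ^ k * 2 ^ (n - k) ≤ n ^ ((k - 1) * n + (k - 1)) := by
          obtain ⟨hp1, hp2, hp3, _⟩ := hT p₀ hp₀
          by_cases hex : ∃ l, n = p₀.2 + l * p₀.1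
          · obtain ⟨l, hl⟩ := hex
            have h3 := card_unif hp1 hl
            rw [← hX] at h3
            exact pow_bound hk2 hp1 hp2 hp3 hl hn2 h3
          · have h3 : X = 0 := by
              rw [hX]
              have : IsEmpty {R : Interp Bool ar2 (Fin n) //
                  Unif p₀.1 p₀.2 (leB R) (inB R)} := by
                refine ⟨fun R => hex ?_⟩
                obtain ⟨l, e, _⟩ := R.2.exists_coord
                have h3 := Fintype.card_congr e
                simp only [Fintype.card_sum, Fintype.card_prod, Fintype.card_fin] at h3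
                exact ⟨l, h3.symm⟩
              exact Nat.card_of_isEmpty
            rw [h3, zero_pow (by omega), zero_mul]
            exact Nat.zero_le _
        have h3 : ((k + 1) * (k + 1)) ^ k * n ^ (k - 1) ≤ 2 ^ (n - k) := by
          have h4 : 2 ^ k * (((k + 1) * (k + 1)) ^ k * n ^ (k - 1)) ≤ 2 ^ k * 2 ^ (n - k) := by
            rw [← pow_add, Nat.add_sub_cancel' hnk]
            calc _ = ((k + 1) * (k + 1)) ^ k * 2 ^ k * n ^ (k - 1) := by ring
              _ ≤ 2 ^ n := hexp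
          exact Nat.le_of_mul_le_mul_left h4 (by positivity)
        have h4 : count χ n ^ k * 2 ^ (n - k) ≤ n ^ ((k - 1) * n) * 2 ^ (n - k) := by
          calc count χ n ^ k * 2 ^ (n - k) ≤ ((k + 1) * (k + 1) * X) ^ k * 2 ^ (n - k) :=
                Nat.mul_le_mul_right _ (Nat.pow_le_pow_left h1 k)
            _ = ((k + 1) * (k + 1)) ^ k * (X ^ k * 2 ^ (n - k)) := by rw [mul_pow]; ring
            _ ≤ ((k + 1) * (k + 1)) ^ k * n ^ ((k - 1) * n + (k - 1)) :=
                Nat.mul_le_mul_left _ h2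
            _ = n ^ ((k - 1) * n) * (((k + 1) * (k + 1)) ^ k * n ^ (k - 1)) := by
                rw [pow_add]; ring
            _ ≤ n ^ ((k - 1) * n) * 2 ^ (n - k) := Nat.mul_le_mul_left _ h3
        exact Nat.le_of_mul_le_mul_right h4 (by positivity)
    · have hk1 : k = 1 := by omega
      subst hk1
      filter_upwards [eventually_ge_atTop n₂] with n hn
      rw [pow_one, Nat.sub_self, zero_mul, pow_zero]
      refine (hle n hn).trans ?_
      have h1 : ∀ p ∈ T, p = (1, 0) := by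
        intro p hp
        obtain ⟨h2, h3, h4, _⟩ := hT p hp
        ext
        · show p.1 = 1
          omega
        · show p.2 = 0
          omega
      have h2 : Nat.card {R : Interp Bool ar2 (Fin n) // Unif 1 0 (leB R) (inB R)} ≤ 1 := by
        have h3 := card_unif (n := n) (r := 0) (l := n) (t := 1) le_rfl (by omega)
        simp only [Nat.factorial_one, one_pow, mul_one] at h3
        have h4 : 0 < n.factorial := Nat.factorial_pos n
        exact Nat.le_of_mul_le_mul_right (by rw [one_mul]; exact h3) h4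
      rcases T.eq_empty_or_nonempty with hTe | hTn
      · rw [hTe, Finset.sum_empty]
        exact Nat.zero_le _
      · have h3 : T = {(1, 0)} := Finset.eq_singleton_iff_nonempty_unique_mem.2 ⟨hTn, h1⟩
        rw [h3, Finset.sum_singleton]
        exact h2

lemma ar2_le (b : Bool) : ar2 b ≤ 2 := by
  cases b
  · exact one_le_two
  · exact le_rfl

/-- the wild side -/
theorem wildS : ∃ χ : (RelLang Bool ar2).Sentence, (∀ n, count χ n ≤ 4 ^ n * n.factorial) ∧
    ∀ A : Set ℕ, IsSpectrum A → ∃ q : Polynomial ℕ,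
      A = {n : ℕ | 1 ≤ n ∧ q.eval n ∈ Pool.Agent.Helper40.MC.spec χ} := by
  obtain ⟨χ, h1, h2⟩ := wild
  refine ⟨χ, h1, fun A hA => ?_⟩
  obtain ⟨q, hq⟩ := h2 A hA
  refine ⟨q, ?_⟩
  ext n
  constructor
  · intro h3
    have h4 := hA.pos h3
    exact ⟨h4, (hq n h4).1, (hq n h4).2.1 h3⟩
  · rintro ⟨h4, _, h5⟩
    exact (hq n h4).2.2 h5

end Pool.Agent.Helper20.MC
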