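import Pool.Agent.Helper20.MC.Conv2
import Pool.Agent.Helper38.DG.FDRelat

/-!
# A sentence with at most `2 ^ n * n!` labelled models and a universal spectrum
-/

set_option autoImplicit false

namespace Pool.Agent.Helper20.MC

open FirstOrder FirstOrder.Language Pool.Agent.Helper20.Spectra Pool.Agent.Helper58.QD
open Pool.Agent.Helper38.DG Filter

/-- the symbols: a bijection, its domain; the symbols of the inner structure -/
abbrev S4 := Bool ⊕ Bool

/-- arities -/
def ar4 : S4 → ℕ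
  | Sum.inl b => ar2 b
  | Sum.inr b => ar2 b

lemma ar4_le (s : S4) : ar4 s ≤ 2 := by
  rcases s with b | b
  · exact ar2_le b
  · exact ar2_le b

section defs

variable {M : Type}

/-- the bijection -/
def fR (R : Interp S4 ar4 M) (x y : M) : Prop := R (Sum.inl true) ![x, y]

/-- the domain -/
def iR (R : Interp S4 ar4 M) (x : M) : Prop := R (Sum.inl false) ![x]

/-- the inner structure -/
def inner (R : Interp S4 ar4 M) : Interp Bool ar2 {x // iR R x} :=
  fun b v => R (Sum.inr b) (fun i => (v i).1)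

/-- `f` is a bijection from `I` onto the complement of `I` -/
structure Dbl (f : M → M → Prop) (I : M → Prop) : Prop where
  fI : ∀ x y, f x y → I x ∧ ¬ I y
  fe : ∀ x, I x → ∃ y, f x y
  fu : ∀ x y y', f x y → f x y' → y = y'
  fs : ∀ y, ¬ I y → ∃ x, f x y
  fi : ∀ x x' y, f x y → f x' y → x = x'

end defs

lemma f_BFD : BFD (S := S4) (ar := ar4) (fun _ R => fR R) := by
  intro α e e' he he'
  obtain ⟨a, ha⟩ := he
  obtain ⟨b, hb⟩ := he'
  refine FD.rel (S := S4) (ar := ar4) (Sum.inl true) ⟨![a, b], fun M v => ?_⟩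
  beta_reduce
  rw [ha, hb]
  funext i
  fin_cases i <;> rfl

lemma i_UFD : UFD (S := S4) (ar := ar4) (fun _ R => iR R) := by
  intro α e he
  obtain ⟨a, ha⟩ := he
  refine FD.rel (S := S4) (ar := ar4) (Sum.inl false) ⟨![a], fun M v => ?_⟩
  beta_reduce
  rw [ha]
  funext i
  fin_cases i
  rfl

lemma dbl_FD : FD S4 ar4 Empty (fun _ R _ => Dbl (fR R) (iR R)) := by
  have v0 : ∀ {α : Type}, El (α ⊕ Unit) (fun M v => v (Sum.inr ())) := El.inr
  have hf := f_BFD
  have hi := i_UFD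
  have h1 : FD S4 ar4 Empty (fun M R _ => ∀ x y : M, fR R x y → iR R x ∧ ¬ iR R y) :=
    FD.all1 (FD.all1 (FD.imp (hf _ _ _ v0.inl v0) (FD.and (hi _ _ v0.inl) (FD.not (hi _ _ v0)))))
  have h2 : FD S4 ar4 Empty (fun M R _ => ∀ x : M, iR R x → ∃ y, fR R x y) :=
    FD.all1 (FD.imp (hi _ _ v0) (FD.ex1 (hf _ _ _ v0.inl v0)))
  have h3 : FD S4 ar4 Empty (fun M R _ => ∀ x y y' : M, fR R x y → fR R x y' → y = y') :=
    FD.all1 (FD.all1 (FD.all1 (FD.imp (hf _ _ _ v0.inl.inl v0.inl) (FD.imp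
      (hf _ _ _ v0.inl.inl v0) (FD.eq v0.inl v0)))))
  have h4 : FD S4 ar4 Empty (fun M R _ => ∀ y : M, ¬ iR R y → ∃ x, fR R x y) :=
    FD.all1 (FD.imp (FD.not (hi _ _ v0)) (FD.ex1 (hf _ _ _ v0 v0.inl)))
  have h5 : FD S4 ar4 Empty (fun M R _ => ∀ x x' y : M, fR R x y → fR R x' y → x = x') :=
    FD.all1 (FD.all1 (FD.all1 (FD.imp (hf _ _ _ v0.inl.inl v0) (FD.imp
      (hf _ _ _ v0.inl v0) (FD.eq v0.inl.inl v0.inl)))))
  refine (FD.and h1 (FD.and h2 (FD.and h3 (FD.and h4 h5)))).congr (fun M R v => ?_)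
  constructor
  · rintro ⟨a1, a2, a3, a4, a5⟩
    exact ⟨a1, a2, a3, a4, a5⟩
  · rintro ⟨a1, a2, a3, a4, a5⟩
    exact ⟨a1, a2, a3, a4, a5⟩

lemma supp_FD : FD S4 ar4 Empty (fun M R _ => ∀ (b : Bool) (v : Fin (ar2 b) → M),
    R (Sum.inr b) v → ∀ i, iR R (v i)) := by
  refine FD.all_fin (fun b => FD.all (FD.imp ?_ (FD.all_fin (fun i => i_UFD _ _ ?_))))
  · exact FD.rel (S := S4) (ar := ar4) (Sum.inr b) (f := fun M v => fun i => v (Sum.inr i))
      ⟨Sum.inr, fun _ _ => rfl⟩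
  · exact El.var _

/-! ### Coordinates -/

section Coords

variable {n m : ℕ}

/-- `e` gives the two halves of `R` -/
structure Good (e : Fin m ⊕ Fin m ≃ Fin n) (R : Interp S4 ar4 (Fin n)) : Prop where
  hI : ∀ i, iR R (e (Sum.inl i))
  hO : ∀ i, ¬ iR R (e (Sum.inr i))
  hf : ∀ i j, fR R (e (Sum.inl i)) (e (Sum.inr j)) ↔ i = j

/-- the inner structure on `Fin m` -/
def pull (e : Fin m ⊕ Fin m ≃ Fin n) (R : Interp S4 ar4 (Fin n)) : Interp Bool ar2 (Fin m) :=
  fun b w => R (Sum.inr b) (fun j => e (Sum.inl (w j)))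

/-- the structure with given halves and given inner structure -/
def build (e : Fin m ⊕ Fin m ≃ Fin n) (Q : Interp Bool ar2 (Fin m)) : Interp S4 ar4 (Fin n) :=
  fun s => match s with
    | Sum.inl true => fun v => ∃ i, v (0 : Fin 2) = e (Sum.inl i) ∧ v (1 : Fin 2) = e (Sum.inr i)
    | Sum.inl false => fun v => ∃ i, v (0 : Fin 1) = e (Sum.inl i)
    | Sum.inr b => fun v => ∃ w : Fin (ar2 b) → Fin m, v = (fun j => e (Sum.inl (w j))) ∧ Q b w

lemma Dbl.exists_good {R : Interp S4 ar4 (Fin n)} (h : Dbl (fR R) (iR R)) :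
    ∃ (m : ℕ) (e : Fin m ⊕ Fin m ≃ Fin n), Good e R := by
  classical
  obtain ⟨m, hm⟩ : ∃ m, m = Fintype.card {x // iR R x} := ⟨_, rfl⟩
  let e1 : Fin m ≃ {x // iR R x} := (Fintype.equivFinOfCardEq hm.symm).symm
  choose g hg using fun x : {x // iR R x} => h.fe x.1 x.2
  let g' : {x // iR R x} → {x // ¬ iR R x} := fun x => ⟨g x, (h.fI _ _ (hg x)).2⟩
  have hg' : Function.Bijective g' := by
    constructor
    · intro x x' hx
      have h1 : g x = g x' := congrArg Subtype.val hx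
      apply Subtype.ext
      exact h.fi _ _ _ (hg x) (h1 ▸ hg x')
    · intro y
      obtain ⟨x, hx⟩ := h.fs y.1 y.2
      refine ⟨⟨x, (h.fI _ _ hx).1⟩, Subtype.ext ?_⟩
      exact h.fu _ _ _ (hg ⟨x, (h.fI _ _ hx).1⟩) hx
  let e2 : {x // iR R x} ≃ {x // ¬ iR R x} := Equiv.ofBijective g' hg'
  refine ⟨m, (Equiv.sumCongr e1 (e1.trans e2)).trans (Equiv.sumCompl (fun x => iR R x)),
    fun i => ?_, fun i => ?_, fun i j => ?_⟩
  · show iR R (e1 i).1
    exact (e1 i).2
  · show ¬ iR R (e2 (e1 i)).1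
    exact (e2 (e1 i)).2
  · show fR R (e1 i).1 (g (e1 j)) ↔ i = j
    constructor
    · intro h1
      have h2 := h.fi _ _ _ h1 (hg (e1 j))
      exact e1.injective (Subtype.ext h2)
    · rintro rfl
      exact hg _

lemma Good.eq_build {e : Fin m ⊕ Fin m ≃ Fin n} {R : Interp S4 ar4 (Fin n)} (h : Good e R)
    (hd : Dbl (fR R) (iR R))
    (hs : ∀ (b : Bool) (v : Fin (ar2 b) → Fin n), R (Sum.inr b) v → ∀ i, iR R (v i)) :
    R = build e (pull e R) := by
  have hI : ∀ x, iR R x ↔ ∃ i, x = e (Sum.inl i) := by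
    intro x
    constructor
    · intro hx
      obtain ⟨a, rfl⟩ := e.surjective x
      rcases a with i | i
      · exact ⟨i, rfl⟩
      · exact absurd hx (h.hO i)
    · rintro ⟨i, rfl⟩
      exact h.hI i
  funext s v
  apply propext
  rcases s with b | b
  · cases b
    · have e0 : v = ![v (0 : Fin 1)] := by
        funext i
        have : i = (0 : Fin 1) := Subsingleton.elim (α := Fin 1) _ _
        rw [this]
        rfl
      show R (Sum.inl false) v ↔ ∃ i, v (0 : Fin 1) = e (Sum.inl i)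
      rw [← hI]
      unfold iR
      rw [← e0]
    · have e0 : v = ![v (0 : Fin 2), v (1 : Fin 2)] := by
        funext i
        revert i
        show ∀ i : Fin 2, _
        intro i
        fin_cases i <;> rfl
      show R (Sum.inl true) v ↔ ∃ i, v (0 : Fin 2) = e (Sum.inl i) ∧ v (1 : Fin 2) = e (Sum.inr i)
      have h1 : R (Sum.inl true) v ↔ fR R (v (0 : Fin 2)) (v (1 : Fin 2)) := by
        unfold fR
        rw [← e0]
      rw [h1]
      constructor
      · intro h2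
        obtain ⟨h3, h4⟩ := hd.fI _ _ h2
        obtain ⟨i, hi⟩ := (hI _).1 h3
        obtain ⟨a, ha⟩ := e.surjective (v (1 : Fin 2))
        rcases a with j | j
        · exact absurd ((hI _).2 ⟨j, ha.symm⟩) h4
        · rw [hi, ← ha, h.hf] at h2
          subst h2
          exact ⟨i, hi, ha.symm⟩
      · rintro ⟨i, h2, h3⟩
        rw [h2, h3, h.hf]
  · show R (Sum.inr b) v ↔ ∃ w : Fin (ar2 b) → Fin m, v = (fun j => e (Sum.inl (w j))) ∧
      R (Sum.inr b) (fun j => e (Sum.inl (w j)))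
    constructor
    · intro h1
      choose w hw using fun i => (hI _).1 (hs b v h1 i)
      have h2 : v = fun j => e (Sum.inl (w j)) := funext hw
      exact ⟨w, h2, Eq.mp (congrArg (R (Sum.inr b)) h2) h1⟩
    · rintro ⟨w, h1, h2⟩
      exact Eq.mpr (congrArg (R (Sum.inr b)) h1) h2

lemma build_i (e : Fin m ⊕ Fin m ≃ Fin n) (Q : Interp Bool ar2 (Fin m)) (x : Fin n) :
    iR (build e Q) x ↔ ∃ i, x = e (Sum.inl i) := Iff.rfl

lemma build_f (e : Fin m ⊕ Fin m ≃ Fin n) (Q : Interp Bool ar2 (Fin m)) (x y : Fin n) :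
    fR (build e Q) x y ↔ ∃ i, x = e (Sum.inl i) ∧ y = e (Sum.inr i) := Iff.rfl

lemma build_dbl (e : Fin m ⊕ Fin m ≃ Fin n) (Q : Interp Bool ar2 (Fin m)) :
    Dbl (fR (build e Q)) (iR (build e Q)) := by
  refine ⟨?_, ?_, ?_, ?_, ?_⟩
  · rintro x y ⟨i, rfl, rfl⟩
    refine ⟨⟨i, rfl⟩, ?_⟩
    rintro ⟨j, hj⟩
    have := e.injective hj
    exact Sum.inr_ne_inl this
  · rintro x ⟨i, rfl⟩
    exact ⟨_, i, rfl, rfl⟩
  · rintro x y y' ⟨i, rfl, rfl⟩ ⟨j, h1, rfl⟩
    have := Sum.inl_injective (e.injective h1)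
    rw [this]
  · intro y hy
    obtain ⟨a, rfl⟩ := e.surjective y
    rcases a with i | i
    · exact absurd ⟨i, rfl⟩ hy
    · exact ⟨_, i, rfl, rfl⟩
  · rintro x x' y ⟨i, rfl, rfl⟩ ⟨j, rfl, h1⟩
    have := Sum.inr_injective (e.injective h1)
    rw [this]

lemma build_supp (e : Fin m ⊕ Fin m ≃ Fin n) (Q : Interp Bool ar2 (Fin m)) (b : Bool)
    (v : Fin (ar2 b) → Fin n) (h : build e Q (Sum.inr b) v) (i : Fin (ar2 b)) :
    iR (build e Q) (v i) := by
  obtain ⟨w, rfl, _⟩ := h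
  exact ⟨w i, rfl⟩

lemma build_good (e : Fin m ⊕ Fin m ≃ Fin n) (Q : Interp Bool ar2 (Fin m)) :
    Good e (build e Q) := by
  refine ⟨fun i => ⟨i, rfl⟩, ?_, ?_⟩
  · rintro i ⟨j, hj⟩
    exact Sum.inr_ne_inl (e.injective hj)
  · intro i j
    constructor
    · rintro ⟨k, h1, h2⟩
      rw [Sum.inl_injective (e.injective h1), Sum.inr_injective (e.injective h2)]
    · rintro rfl
      exact ⟨i, rfl, rfl⟩

lemma pull_build (e : Fin m ⊕ Fin m ≃ Fin n) (Q : Interp Bool ar2 (Fin m)) :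
    pull e (build e Q) = Q := by
  funext b w
  apply propext
  constructor
  · rintro ⟨w', h1, h2⟩
    have h3 : w = w' := by
      funext j
      exact Sum.inl_injective (e.injective (congrFun h1 j))
    rw [h3]
    exact h2
  · intro h
    exact ⟨w, rfl, h⟩

lemma Good.perm {e : Fin m ⊕ Fin m ≃ Fin n} {R : Interp S4 ar4 (Fin n)} (h : Good e R)
    (σ : Equiv.Perm (Fin m)) : Good ((Equiv.sumCongr σ σ).trans e) R := by
  refine ⟨fun i => h.hI (σ i), fun i => h.hO (σ i), fun i j => ?_⟩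
  show fR R (e (Sum.inl (σ i))) (e (Sum.inr (σ j))) ↔ i = j
  rw [h.hf]
  exact σ.injective.eq_iff

end Coords

/-! ### The sentence -/

/-- the doubled sentence -/
theorem double (χ : (RelLang Bool ar2).Sentence) : ∃ χ' : (RelLang S4 ar4).Sentence,
    (∀ (n : ℕ) (R : Interp S4 ar4 (Fin n)), IsMod χ' R →
      ∃ (m : ℕ) (e : Fin m ⊕ Fin m ≃ Fin n), Good e R) ∧
    (∀ (n m : ℕ) (R : Interp S4 ar4 (Fin n)) (e : Fin m ⊕ Fin m ≃ Fin n), IsMod χ' R →
      Good e R → IsMod χ (pull e R) ∧ R = build e (pull e R)) ∧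
    ∀ (n m : ℕ) (e : Fin m ⊕ Fin m ≃ Fin n) (Q : Interp Bool ar2 (Fin m)), IsMod χ Q →
      IsMod χ' (build e Q) := by
  have hP : FD Bool ar2 Empty (fun M R _ => IsMod χ R) :=
    ⟨χ, fun M R v => real_iff (mkS R) χ v default⟩
  have hrel := fd_relat hP (S' := S4) (ar' := ar4) (Z := fun V R x => iR R x)
    (i_UFD _ _ (El.var ())) (ρ := fun b V R v => R (Sum.inr b) v)
    (fun b => FD.rel (S := S4) (ar := ar4) (Sum.inr b) (f := fun M v => v) ⟨id, fun _ _ => rfl⟩)
  obtain ⟨χ', hχ'⟩ := FD.and dbl_FD (FD.and supp_FD hrel)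
  have h0 : ∀ {n : ℕ} (R : Interp S4 ar4 (Fin n)), IsMod χ' R ↔ Dbl (fR R) (iR R) ∧
      (∀ (b : Bool) (v : Fin (ar2 b) → Fin n), R (Sum.inr b) v → ∀ i, iR R (v i)) ∧
      IsMod χ (inner R) := by
    intro n R
    have h1 := hχ' (Fin n) R Empty.elim
    beta_reduce at h1
    refine (real_iff (mkS R) χ' Empty.elim default).symm.trans h1
  have hin : ∀ {n m : ℕ} (e : Fin m ⊕ Fin m ≃ Fin n) (Q : Interp Bool ar2 (Fin m)),
      IsMod χ (inner (build e Q)) ↔ IsMod χ Q := by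
    intro n m e Q
    let g : Fin m ≃ {x // iR (build e Q) x} := Equiv.ofBijective
      (fun i => ⟨e (Sum.inl i), ⟨i, rfl⟩⟩) ⟨fun i j h => Sum.inl_injective (e.injective
        (congrArg Subtype.val h)), fun x => by
          obtain ⟨i, hi⟩ := x.2
          exact ⟨i, Subtype.ext hi.symm⟩⟩
    have h1 := hP.transport g Q Empty.elim
    beta_reduce at h1
    have h2 : (fun s w => Q s (g.symm ∘ w)) = inner (build e Q) := by
      funext b v
      apply propext
      have h3 : ∀ i, (v i).1 = e (Sum.inl (g.symm (v i))) := by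
        intro i
        have h4 : g (g.symm (v i)) = v i := g.apply_symm_apply _
        exact (congrArg Subtype.val h4).symm
      constructor
      · intro h
        exact ⟨fun i => g.symm (v i), funext h3, h⟩
      · rintro ⟨w, h4, h5⟩
        have h6 : w = g.symm ∘ v := by
          funext i
          have h7 := congrFun h4 i
          rw [h3 i] at h7
          exact (Sum.inl_injective (e.injective h7)).symm
        rw [← h6]
        exact h5
    rw [h2] at h1
    exact h1.symm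
  refine ⟨χ', ?_, ?_, ?_⟩
  · intro n R hR
    exact ((h0 R).1 hR).1.exists_good
  · intro n m R e hR he
    obtain ⟨h1, h2, h3⟩ := (h0 R).1 hR
    have h4 := he.eq_build h1 h2
    refine ⟨?_, h4⟩
    rw [h4] at h3
    exact (hin e (pull e R)).1 h3
  · intro n m e Q h1
    exact (h0 _).2 ⟨build_dbl e Q, build_supp e Q, (hin e Q).2 h1⟩

lemma card_eqv_le (α β : Type) [Fintype α] [Fintype β] : Nat.card (α ≃ β) ≤
    (Fintype.card β).factorial := by
  classical
  rcases isEmpty_or_nonempty (α ≃ β) with h | ⟨⟨e⟩⟩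
  · rw [Nat.card_of_isEmpty]
    exact Nat.zero_le _
  · rw [Nat.card_eq_fintype_card, Fintype.card_equiv e, Fintype.card_congr e]

/-- the number of models of the doubled sentence -/
theorem count_double {χ : (RelLang Bool ar2).Sentence} {χ' : (RelLang S4 ar4).Sentence}
    (h1 : ∀ (n : ℕ) (R : Interp S4 ar4 (Fin n)), IsMod χ' R →
      ∃ (m : ℕ) (e : Fin m ⊕ Fin m ≃ Fin n), Good e R)
    (h2 : ∀ (n m : ℕ) (R : Interp S4 ar4 (Fin n)) (e : Fin m ⊕ Fin m ≃ Fin n), IsMod χ' R →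
      Good e R → IsMod χ (pull e R) ∧ R = build e (pull e R))
    (hc : ∀ m, count χ m ≤ 4 ^ m * m.factorial) (n : ℕ) :
    count χ' n ≤ n.factorial * 2 ^ n := by
  classical
  obtain ⟨h, hh⟩ : ∃ h, h = n / 2 := ⟨_, rfl⟩
  have h3 : ∀ R : {R : Interp S4 ar4 (Fin n) // IsMod χ' R},
      ∃ e : Fin h ⊕ Fin h ≃ Fin n, Good e R.1 := by
    intro R
    obtain ⟨m, e, he⟩ := h1 n R.1 R.2
    have h4 := Fintype.card_congr e
    simp only [Fintype.card_sum, Fintype.card_fin] at h4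
    have h5 : m = h := by omega
    subst h5
    exact ⟨e, he⟩
  choose E hE using h3
  let F : {R : Interp S4 ar4 (Fin n) // IsMod χ' R} × Equiv.Perm (Fin h) →
      (Fin h ⊕ Fin h ≃ Fin n) × {Q : Interp Bool ar2 (Fin h) // IsMod χ Q} := fun p =>
    ((Equiv.sumCongr p.2 p.2).trans (E p.1),
      ⟨pull ((Equiv.sumCongr p.2 p.2).trans (E p.1)) p.1.1,
        (h2 n h p.1.1 _ p.1.2 ((hE p.1).perm p.2)).1⟩)
  have hF : Function.Injective F := by
    rintro ⟨R, σ⟩ ⟨R', σ'⟩ hp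
    have e1 : (Equiv.sumCongr σ σ).trans (E R) = (Equiv.sumCongr σ' σ').trans (E R') :=
      congrArg Prod.fst hp
    have e2 : pull ((Equiv.sumCongr σ σ).trans (E R)) R.1 =
        pull ((Equiv.sumCongr σ' σ').trans (E R')) R'.1 :=
      congrArg (fun p : (Fin h ⊕ Fin h ≃ Fin n) × {Q : Interp Bool ar2 (Fin h) // IsMod χ Q} =>
        p.2.1) hp
    have e3 := (h2 n h R.1 _ R.2 ((hE R).perm σ)).2
    have e4 := (h2 n h R'.1 _ R'.2 ((hE R').perm σ')).2
    have e5 : R = R' := by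
      apply Subtype.ext
      rw [e3, e4, e2, e1]
    subst e5
    have e6 : σ = σ' := by
      ext i
      have e7 := congrArg (fun f : Fin h ⊕ Fin h ≃ Fin n => f (Sum.inl i)) e1
      have e8 : E R (Sum.inl (σ i)) = E R (Sum.inl (σ' i)) := e7
      rw [Sum.inl_injective ((E R).injective e8)]
    rw [e6]
  have h4 := Nat.card_le_card_of_injective F hF
  rw [Nat.card_prod, Nat.card_prod] at h4
  have h5 : Nat.card (Equiv.Perm (Fin h)) = h.factorial := by
    rw [Nat.card_eq_fintype_card, Fintype.card_perm, Fintype.card_fin]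
  have h6 := card_eqv_le (Fin h ⊕ Fin h) (Fin n)
  rw [Fintype.card_fin] at h6
  rw [h5] at h4
  have h7 : h.factorial * count χ' n ≤ h.factorial * (n.factorial * 4 ^ h) := by
    calc h.factorial * count χ' n = count χ' n * h.factorial := mul_comm _ _
      _ ≤ _ := h4
      _ ≤ n.factorial * (4 ^ h * h.factorial) := Nat.mul_le_mul h6 (hc h)
      _ = _ := by ring
  have h8 := Nat.le_of_mul_le_mul_left h7 (Nat.factorial_pos h)
  refine h8.trans (Nat.mul_le_mul_left _ ?_)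
  have h9 : (4 : ℕ) ^ h = 2 ^ (2 * h) := by
    rw [pow_mul]
    norm_num
  rw [h9]
  exact Nat.pow_le_pow_right (by omega) (by omega)

lemma two_mul_pow {n : ℕ} (hn : 1 ≤ n) : 2 * n ^ n ≤ (n + 1) ^ n := by
  have hn0 : (0 : ℝ) < n := by exact_mod_cast hn
  have h1 := one_add_mul_le_pow (a := (1 / n : ℝ)) (by
    have : (0 : ℝ) ≤ 1 / n := by positivity
    linarith) n
  have h2 : (1 : ℝ) + n * (1 / n) = 2 := by
    field_simp
    norm_num
  rw [h2] at h1
  have h3 : (2 : ℝ) * n ^ n ≤ ((n : ℝ) + 1) ^ n := by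
    calc (2 : ℝ) * n ^ n ≤ (1 + 1 / n : ℝ) ^ n * n ^ n :=
          mul_le_mul_of_nonneg_right h1 (by positivity)
      _ = ((n : ℝ) + 1) ^ n := by
        rw [← mul_pow]
        congr 1
        field_simp
  exact_mod_cast h3

lemma fac_two_pow {n : ℕ} (hn : 6 ≤ n) : n.factorial * 2 ^ n ≤ n ^ n := by
  induction n, hn using Nat.le_induction with
  | base => decide
  | succ n hn ih =>
    calc (n + 1).factorial * 2 ^ (n + 1) = (2 * (n + 1)) * (n.factorial * 2 ^ n) := by
          rw [Nat.factorial_succ]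
          ring
      _ ≤ (2 * (n + 1)) * n ^ n := Nat.mul_le_mul_left _ ih
      _ = (n + 1) * (2 * n ^ n) := by ring
      _ ≤ (n + 1) * (n + 1) ^ n := Nat.mul_le_mul_left _ (two_mul_pow (by omega))
      _ = (n + 1) ^ (n + 1) := by ring

/-- the wild side with at most `n ^ n` models -/
theorem oneS : ∃ χ : (RelLang S4 ar4).Sentence, (∀ᶠ n : ℕ in atTop, count χ n ≤ n ^ n) ∧
    ∀ A : Set ℕ, IsSpectrum A → ∃ q : Polynomial ℕ,
      A = {n : ℕ | 1 ≤ n ∧ q.eval n ∈ Pool.Agent.Helper40.MC.spec χ} := by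
  obtain ⟨χ, hc, hu⟩ := wildS
  obtain ⟨χ', h1, h2, h3⟩ := double χ
  refine ⟨χ', ?_, fun A hA => ?_⟩
  · filter_upwards [eventually_ge_atTop 6] with n hn
    exact (count_double h1 h2 hc n).trans (fac_two_pow hn)
  · obtain ⟨q, hq⟩ := hu A hA
    refine ⟨q + q, ?_⟩
    rw [hq]
    ext n
    have hev : (q + q).eval n = q.eval n + q.eval n := by simp
    show (1 ≤ n ∧ _) ↔ (1 ≤ n ∧ (q + q).eval n ∈ _)
    rw [hev]
    apply and_congr_right
    intro _
    constructor
    · rintro ⟨h4, Q, hQ⟩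
      exact ⟨by omega, _, h3 _ _ finSumFinEquiv Q hQ⟩
    · rintro ⟨h4, R, hR⟩
      obtain ⟨m, e, he⟩ := h1 _ R hR
      have h5 := Fintype.card_congr e
      simp only [Fintype.card_sum, Fintype.card_fin] at h5
      have h6 : m = q.eval n := by omega
      subst h6
      exact ⟨by omega, _, (h2 _ _ R e hR he).1⟩

end Pool.Agent.Helper20.MC
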