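import Pool.Agent.Helper20.MC.Conv2
import Pool.Agent.Helper20.EX2.GridDef
import Pool.Agent.Helper29.PHW.Diag
import Pool.Agent.Helper29.PHW.Tools

/-!
# Monadic second-order sentences with at most `4 ^ n * n!` models: a spectrum outside the
polynomial-time hierarchy
-/

set_option autoImplicit false

namespace Pool.Agent.Helper20.MC

open FirstOrder FirstOrder.Language Pool.Agent.Helper20.Spectra Pool.Agent.Helper58.QD
open Pool.Agent.Helper20.OP Pool.Agent.Helper20.EX2 Pool.Agent.Helper14.SS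

/-- models of a monadic second-order sentence -/
def HoldsM {S : Type} {ar : S → ℕ} (φ : SFm (RelLang S ar) 0 0) {n : ℕ}
    (R : Interp S ar (Fin n)) : Prop :=
  @SFm.Holds (RelLang S ar) (Fin n) (mkS R) n 0 0 φ Fin.elim0 Fin.elim0

lemma holdsM_iff {S : Type} {ar : S → ℕ} (φ : SFm (RelLang S ar) 0 0) {n : ℕ}
    (R : Interp S ar (Fin n)) :
    HoldsM φ R ↔ @Sat (RelLang S ar) (Fin n) (mkS R) 0 0 φ Fin.elim0 Fin.elim0 := by
  unfold HoldsM
  refine (@holds_iff_sat (RelLang S ar) (Fin n) (mkS R) _ n (by simp) 0 0 φ Fin.elim0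
    Fin.elim0).trans ?_
  have e : (fun j : Fin 0 => (((Fin.elim0 : Fin 0 → Finset (Fin n)) j : Finset (Fin n)) :
      Set (Fin n))) = Fin.elim0 := funext fun j => j.elim0
  rw [e]

/-- two binary relations -/
abbrev arG : Fin 2 → ℕ := fun _ => 2

/-- the grids with `φ` -/
def GridQ (φ : SFm ArL 0 0) (V : Type) (R : Str 2 V) : Prop :=
  GridAx (R 0) (R 1) ∧ RowSat (R 0) (R 1) φ

lemma md_gridQ (φ : SFm ArL 0 0) : MDef 2 0 0 (fun V R _ _ => GridQ φ V R) :=
  (md_gridAx _ _).and (md_rowSat _ _ φ)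

/-- the grid -/
def gridS (n : ℕ) : Str 2 (Fin n × Fin n) := fun r => if r = 0 then gh n else gu n

lemma gridQ_grid {n : ℕ} (hn : 1 ≤ n) (φ : SFm ArL 0 0) : GridQ φ (Fin n × Fin n) (gridS n) ↔
    @Sat ArL (Fin n) (mkS (arI n)) 0 0 φ Fin.elim0 Fin.elim0 := by
  unfold GridQ
  have e0 : gridS n 0 = gh n := rfl
  have e1 : gridS n 1 = gu n := rfl
  rw [e0, e1, rowSat_grid]
  exact ⟨fun h => h.2, fun h => ⟨gridAx_grid hn, h⟩⟩

lemma gridAx_coord {N : ℕ} {R : Str 2 (Fin N)} (H : GridAx (R 0) (R 1)) :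
    ∃ e : Fin N ≃ Fin (Nat.sqrt N) × Fin (Nat.sqrt N), 1 ≤ Nat.sqrt N ∧
      (fun r x y => R r (e.symm x) (e.symm y)) = gridS (Nat.sqrt N) := by
  obtain ⟨n, hn, e, h1, h2⟩ := H.exists_equiv
  have h3 := Fintype.card_congr e
  simp only [Fintype.card_prod, Fintype.card_fin] at h3
  have h4 : Nat.sqrt N = n := by rw [h3]; exact Nat.sqrt_eq n
  subst h4
  refine ⟨e, hn, ?_⟩
  funext r x y
  apply propext
  fin_cases r
  · show R 0 _ _ ↔ gh _ x y
    rw [h1, e.apply_symm_apply, e.apply_symm_apply]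
  · show R 1 _ _ ↔ gu _ x y
    rw [h2, e.apply_symm_apply, e.apply_symm_apply]

/-- there are at most `N!` grids -/
theorem card_grids (N : ℕ) : Nat.card {R : Str 2 (Fin N) // GridAx (R 0) (R 1)} ≤ N.factorial := by
  classical
  by_cases hN : N = Nat.sqrt N * Nat.sqrt N
  · choose e he1 he2 using fun R : {R : Str 2 (Fin N) // GridAx (R 0) (R 1)} => gridAx_coord R.2
    have hinj : Function.Injective e := by
      intro R R' h
      apply Subtype.ext
      have h1 := he2 R
      rw [h, ← he2 R'] at h1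
      funext r x y
      have h2 := congrFun (congrFun (congrFun h1 r) (e R' x)) (e R' y)
      simp only [Equiv.symm_apply_apply] at h2
      exact h2
    refine (Nat.card_le_card_of_injective e hinj).trans (le_of_eq ?_)
    have e0 : Fin N ≃ Fin (Nat.sqrt N) × Fin (Nat.sqrt N) :=
      Fintype.equivOfCardEq (by simp only [Fintype.card_prod, Fintype.card_fin]; exact hN)
    rw [Nat.card_eq_fintype_card, Fintype.card_equiv e0, Fintype.card_fin]
  · have : IsEmpty {R : Str 2 (Fin N) // GridAx (R 0) (R 1)} := by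
      refine ⟨fun R => hN ?_⟩
      obtain ⟨e, _, _⟩ := gridAx_coord R.2
      have h3 := Fintype.card_congr e
      simpa using h3
    rw [Nat.card_of_isEmpty]
    exact Nat.zero_le _

/-- coding of the sets of numbers definable with all sets -/
theorem mso_code (φ₀ : SFm ArL 0 0) : ∃ φ : SFm (RelLang (Fin 2) arG) 0 0,
    (∀ N, Nat.card {R : Interp (Fin 2) arG (Fin N) // HoldsM φ R} ≤ N.factorial) ∧
    ∀ n, 1 ≤ n → ((∃ R : Interp (Fin 2) arG (Fin (n * n)), HoldsM φ R) ↔ n ∈ arithS id φ₀) := by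
  obtain ⟨φ, hφ⟩ := md_gridQ φ₀
  have key : ∀ {N : ℕ} (R : Interp (Fin 2) arG (Fin N)),
      HoldsM φ R ↔ GridQ φ₀ (Fin N) (fun r x y => R r ![x, y]) := by
    intro N R
    have hφ' := hφ (Fin N) (fun r x y => R r ![x, y]) Fin.elim0 Fin.elim0
    beta_reduce at hφ'
    rw [holdsM_iff, ← hφ']
    have e : (mkS R : (binLang 2).Structure (Fin N)) = toStr (fun r x y => R r ![x, y]) := by
      have e1 : R = fun r v => R r ![v 0, v 1] := by
        funext r v
        have hv : v = ![v 0, v 1] := by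
          funext i
          fin_cases i <;> rfl
        exact congrArg (R r) hv
      exact congrArg mkS e1
    exact Iff.of_eq (congrArg (fun T => @Sat (binLang 2) (Fin N) T 0 0 φ Fin.elim0 Fin.elim0) e)
  refine ⟨φ, fun N => ?_, fun n hn => ?_⟩
  · refine le_trans ?_ (card_grids N)
    refine Nat.card_le_card_of_injective
      (fun R : {R : Interp (Fin 2) arG (Fin N) // HoldsM φ R} =>
        (⟨fun r x y => R.1 r ![x, y], ((key R.1).1 R.2).1⟩ :
          {R : Str 2 (Fin N) // GridAx (R 0) (R 1)})) ?_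
    intro R R' h
    apply Subtype.ext
    have h1 := congrArg Subtype.val h
    funext r v
    have hv : v = ![v 0, v 1] := by
      funext i
      fin_cases i <;> rfl
    rw [hv]
    exact congrFun (congrFun (congrFun h1 r) (v 0)) (v 1)
  · have hsat : n ∈ arithS id φ₀ ↔
        @Sat ArL (Fin n) (mkS (arI n)) 0 0 φ₀ Fin.elim0 Fin.elim0 := by
      have h1 := @holds_iff_sat ArL (Fin n) (mkS (arI n)) _ n (by simp) 0 0 φ₀ Fin.elim0 Fin.elim0
      have e : (fun j : Fin 0 => (((Fin.elim0 : Fin 0 → Finset (Fin n)) j : Finset (Fin n)) :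
          Set (Fin n))) = Fin.elim0 := funext fun j => j.elim0
      rw [e] at h1
      rw [← h1]
      exact ⟨fun h => h.2, fun h => ⟨hn, h⟩⟩
    rw [hsat, ← gridQ_grid hn]
    constructor
    · rintro ⟨R, hR⟩
      rw [key] at hR
      obtain ⟨e, _, he⟩ := gridAx_coord (R := fun r x y => R r ![x, y]) hR.1
      have h1 := (MDef.iso0 (md_gridQ φ₀) e _).1 hR
      rw [he] at h1
      rwa [Nat.sqrt_eq] at h1
    · intro h
      let e : Fin n × Fin n ≃ Fin (n * n) := finProdFinEquiv
      have h1 := (MDef.iso0 (md_gridQ φ₀) e _).1 h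
      refine ⟨fun r v => gridS n r (e.symm (v 0)) (e.symm (v 1)), (key _).2 ?_⟩
      exact h1

/-- a monadic second-order sentence with few models and a spectrum outside the hierarchy -/
theorem mso_wild : ∃ (S : Type) (_ : Finite S) (ar : S → ℕ) (φ : SFm (RelLang S ar) 0 0),
    (∀ s, ar s ≤ 2) ∧
    (∀ n, Nat.card {R : Interp S ar (Fin n) // HoldsM φ R} ≤ 4 ^ n * n.factorial) ∧
    ¬ PolyHier {n : ℕ | 1 ≤ n ∧ ∃ R : Interp S ar (Fin n), HoldsM φ R} := by
  by_cases hS : ∀ A : Set ℕ, IsSpectrum A → PolyHier A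
  · obtain ⟨φ₀, hφ₀⟩ := Pool.Agent.Helper29.PHW.diagId hS
    obtain ⟨φ, h1, h2⟩ := mso_code φ₀
    refine ⟨Fin 2, inferInstance, arG, φ, fun _ => le_rfl, fun n => ?_, fun hp => hφ₀ ?_⟩
    · refine (h1 n).trans ?_
      have : 1 * n.factorial ≤ 4 ^ n * n.factorial :=
        Nat.mul_le_mul_right _ (Nat.one_le_pow _ _ (by omega))
      omega
    · have h3 := Pool.Agent.Helper29.PHW.phPre _ (Polynomial.X * Polynomial.X) hp
      refine Pool.Agent.Helper29.PHW.phFin h3 1 (fun n hn => ?_)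
      rw [← h2 n hn]
      have e : (Polynomial.X * Polynomial.X : Polynomial ℕ).eval n = n * n := by simp
      show (1 ≤ (Polynomial.X * Polynomial.X : Polynomial ℕ).eval n ∧ _) ↔ _
      rw [e]
      exact ⟨fun h => h.2, fun h => ⟨Nat.mul_pos hn hn, h⟩⟩
  · push Not at hS
    obtain ⟨A, hA, hnA⟩ := hS
    obtain ⟨χ, h1, h2⟩ := wildS
    obtain ⟨q, hq⟩ := h2 A hA
    have key : ∀ {n : ℕ} (R : Interp Bool ar2 (Fin n)),
        HoldsM (.fo (χ.relabel (Empty.elim : Empty → Fin 0))) R ↔ IsMod χ R := by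
      intro n R
      let _ := mkS R
      show (χ.relabel (Empty.elim : Empty → Fin 0)).Realize (Fin.elim0 : Fin 0 → Fin n) ↔ _
      rw [Formula.realize_relabel]
      exact real_iff (mkS R) χ _ default
    refine ⟨Bool, inferInstance, ar2, .fo (χ.relabel (Empty.elim : Empty → Fin 0)), ar2_le,
      fun n => ?_, fun hp => hnA ?_⟩
    · refine le_trans (le_of_eq ?_) (h1 n)
      exact Nat.card_congr (Equiv.subtypeEquivRight fun R => key R)
    · have h3 := Pool.Agent.Helper29.PHW.phPre _ q hp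
      refine Pool.Agent.Helper29.PHW.phFin h3 1 (fun n hn => ?_)
      have h4 : n ∈ A ↔ q.eval n ∈ Pool.Agent.Helper40.MC.spec χ := by
        constructor
        · intro h
          rw [hq] at h
          exact h.2
        · intro h
          rw [hq]
          exact ⟨hn, h⟩
      rw [h4]
      refine and_congr Iff.rfl (exists_congr fun R => key R)

end Pool.Agent.Helper20.MC
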