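import Pool.Agent.Helper20.MC.One
import Pool.Agent.Helper20.MC.WildM
import Pool.Agent.Helper40.MC.MDefs

/-!
# At most `n ^ n` models: the universal spectrum and monadic second-order logic
-/

set_option autoImplicit false

namespace Pool.Agent.Helper20.MC

open FirstOrder FirstOrder.Language Pool.Agent.Helper20.Spectra Pool.Agent.Helper58.QD
open Pool.Agent.Helper14.SS Pool.Agent.Helper20.OP Filter
open Pool.Agent.Helper40.MCM (SatM countM specM StmtWildM StmtWild1)

lemma satM_iff {S : Type} {ar : S → ℕ} (φ : SFm (RelLang S ar) 0 0) {n : ℕ}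
    (R : Interp S ar (Fin n)) : SatM φ R ↔ HoldsM φ R := by
  unfold SatM HoldsM
  rw [Fintype.card_fin]

lemma real_one {N n : ℕ} (h : N ≤ n ^ n) : (N : ℝ) ≤ (n : ℝ) ^ ((1 : ℝ) * n) := by
  rw [one_mul, Real.rpow_natCast]
  exact_mod_cast h

theorem stmtWild1 : StmtWild1 := by
  obtain ⟨χ, h1, h2⟩ := oneS
  refine ⟨S4, inferInstance, ar4, χ, ?_, h2⟩
  filter_upwards [h1] with n hn
  exact real_one hn

theorem stmtWildM : StmtWildM := by
  by_cases hS : ∀ A : Set ℕ, IsSpectrum A → PolyHier A
  · obtain ⟨φ₀, hφ₀⟩ := Pool.Agent.Helper29.PHW.diagId hS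
    obtain ⟨φ, h1, h2⟩ := mso_code φ₀
    refine ⟨Fin 2, inferInstance, arG, φ, ?_, fun hp => hφ₀ ?_⟩
    · refine Filter.Eventually.of_forall (fun n => real_one ?_)
      have h3 : countM φ n = Nat.card {R : Interp (Fin 2) arG (Fin n) // HoldsM φ R} :=
        Nat.card_congr (Equiv.subtypeEquivRight fun R => satM_iff φ R)
      rw [h3]
      exact (h1 n).trans (Nat.factorial_le_pow n)
    · have h3 := Pool.Agent.Helper29.PHW.phPre _ (Polynomial.X * Polynomial.X) hp
      refine Pool.Agent.Helper29.PHW.phFin h3 1 (fun n hn => ?_)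
      rw [← h2 n hn]
      have e : (Polynomial.X * Polynomial.X : Polynomial ℕ).eval n = n * n := by simp
      show (1 ≤ (Polynomial.X * Polynomial.X : Polynomial ℕ).eval n ∧ _) ↔ _
      rw [e]
      constructor
      · rintro ⟨_, R, hR⟩
        exact ⟨R, (satM_iff φ R).1 hR⟩
      · rintro ⟨R, hR⟩
        exact ⟨Nat.mul_pos hn hn, R, (satM_iff φ R).2 hR⟩
  · push Not at hS
    obtain ⟨A, hA, hnA⟩ := hS
    obtain ⟨χ, h1, h2⟩ := oneS
    obtain ⟨q, hq⟩ := h2 A hA
    have key : ∀ {n : ℕ} (R : Interp S4 ar4 (Fin n)),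
        SatM (.fo (χ.relabel (Empty.elim : Empty → Fin 0))) R ↔ IsMod χ R := by
      intro n R
      let _ := mkS R
      show (χ.relabel (Empty.elim : Empty → Fin 0)).Realize (Fin.elim0 : Fin 0 → Fin n) ↔ _
      rw [Formula.realize_relabel]
      exact real_iff (mkS R) χ _ default
    refine ⟨S4, inferInstance, ar4, .fo (χ.relabel (Empty.elim : Empty → Fin 0)), ?_,
      fun hp => hnA ?_⟩
    · filter_upwards [h1] with n hn
      refine real_one (le_trans (le_of_eq ?_) hn)
      exact Nat.card_congr (Equiv.subtypeEquivRight fun R => key R)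
    · have h3 := Pool.Agent.Helper29.PHW.phPre _ q hp
      refine Pool.Agent.Helper29.PHW.phFin h3 1 (fun n hn => ?_)
      have h4 : n ∈ A ↔ q.eval n ∈ Pool.Agent.Helper40.MC.spec χ := by
        constructor
        · intro h
          rw [hq] at h
          exact h.2
        · intro h
          rw [hq]
          exact ⟨hn, h⟩
      rw [h4]
      refine and_congr Iff.rfl (exists_congr fun R => key R)

end Pool.Agent.Helper20.MC
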