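import Pool.Agent.Helper20.MC.Conv2

/-!
# Sentences with few models for the finite unions of arithmetic progressions: real exponents
-/

set_option autoImplicit false

namespace Pool.Agent.Helper20.MC

open FirstOrder FirstOrder.Language Pool.Agent.Helper20.Spectra Pool.Agent.Helper58.QD
open Pool.Agent.Helper40.MC Filter

lemma real_bound {c : ℝ} (hc : c < 1) {k n N : ℕ} (hk1 : 1 ≤ k) (hk : (k : ℝ) ≤ 1 / (1 - c))
    (hn : 1 ≤ n) (h : N ^ k ≤ n ^ ((k - 1) * n)) : (N : ℝ) ≤ (n : ℝ) ^ (c * n) := by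
  have h1c : (0 : ℝ) < 1 - c := by linarith
  have h1 : (k : ℝ) * (1 - c) ≤ 1 := by
    rw [le_div_iff₀ h1c] at hk
    exact hk
  have hn1 : (1 : ℝ) ≤ (n : ℝ) := by exact_mod_cast hn
  have hn0 : (0 : ℝ) ≤ (n : ℝ) := by positivity
  have hb : (0 : ℝ) ≤ (n : ℝ) ^ (c * n) := Real.rpow_nonneg hn0 _
  rw [← pow_le_pow_iff_left₀ (by positivity) hb (show k ≠ 0 by omega)]
  have h2 : ((N : ℝ)) ^ k ≤ (n : ℝ) ^ ((k - 1) * n) := by exact_mod_cast h
  refine h2.trans ?_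
  rw [← Real.rpow_natCast, ← Real.rpow_natCast ((n : ℝ) ^ (c * n)) k, ← Real.rpow_mul hn0]
  apply Real.rpow_le_rpow_of_exponent_le hn1
  have h3 : (((k - 1) * n : ℕ) : ℝ) = ((k : ℝ) - 1) * n := by
    rw [Nat.cast_mul, Nat.cast_sub hk1, Nat.cast_one]
  rw [h3]
  have h4 : ((k : ℝ) - 1) ≤ c * k := by linarith
  calc ((k : ℝ) - 1) * n ≤ (c * k) * n := mul_le_mul_of_nonneg_right h4 hn0
    _ = c * n * k := by ring

theorem convC (c : ℝ) (hc : c < 1) (A : Set ℕ) (h0 : 0 ∉ A) (hA : APk ⌊1 / (1 - c)⌋₊ A) :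
    CountSpectrum c A := by
  obtain ⟨k, hk⟩ : ∃ k, k = ⌊1 / (1 - c)⌋₊ := ⟨_, rfl⟩
  rw [← hk] at hA
  obtain ⟨χ, h1, h2, h3⟩ := conv k A h0 hA
  refine ⟨Bool, inferInstance, ar2, χ, ar2_le, ?_, h1.symm⟩
  have h1c : (0 : ℝ) < 1 - c := by linarith
  rcases Nat.eq_zero_or_pos k with hk0 | hk0
  · filter_upwards [h2 hk0] with n hn
    rw [hn, Nat.cast_zero]
    exact Real.rpow_nonneg (Nat.cast_nonneg n) _
  · filter_upwards [h3 hk0, eventually_ge_atTop 1] with n hn hn1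
    refine real_bound hc hk0 ?_ hn1 hn
    rw [hk]
    exact Nat.floor_le (by positivity)

end Pool.Agent.Helper20.MC
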