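import Pool.Agent.Helper38.MC.Lift3

/-!
# Many automorphisms give homogeneous families with more blocks than points in a block
-/

set_option autoImplicit false

namespace Pool.Agent.Helper20.MC

open Pool.Agent.Helper20.Spectra Pool.Agent.Helper31.QD Pool.Agent.Helper38.MC
  Pool.Agent.Helper6.MC Pool.Agent.Helper58.QD FirstOrder

/-- numerics -/
lemma num_sharp4 (r : ℕ) (hr : 1 ≤ r) : ∃ C n₀ : ℕ, 1 ≤ n₀ ∧ ∀ n, n₀ ≤ n → ∃ l T t : ℕ, 1 ≤ l ∧
    2 * (r * (r * l ^ r + 1) ^ r) ≤ T ∧ lam n ^ 4 * lam n ≤ T ∧ 1 ≤ T ∧ r + 3 ≤ lam n ^ 4 ∧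
    (n + 1) ^ (2 * lam n + r) * l ^ r * (n - l) ^ t < n ^ t ∧
    ∀ p g : ℕ, p ≤ r * t → g ^ (lam n + 1) ≤ n ^ ((lam n + 1) * p) *
      T ^ ((lam n + 1) * n) * n ^ n → g < lam n ^ (C * n) := by
  -- for large `n` the cube of the length is smaller than `n`
  obtain ⟨a₀, ha₀⟩ : ∃ a₀ : ℕ, ∀ a, a₀ ≤ a → (a + 1) ^ 3 ≤ 2 ^ a := by
    refine ⟨11, fun a ha => ?_⟩
    induction a, ha using Nat.le_induction with
    | base => norm_num
    | succ a ha ih =>
      rw [pow_succ 2 a]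
      have : (a + 1 + 1) ^ 3 ≤ 2 * (a + 1) ^ 3 := by
        have h : 11 * (a * a) ≤ a * (a * a) := Nat.mul_le_mul_right _ ha
        have h2 : 11 * a ≤ a * a := Nat.mul_le_mul_right _ ha
        have e1 : (a + 1 + 1) ^ 3 = a * (a * a) + 6 * (a * a) + 12 * a + 8 := by ring
        have e2 : 2 * (a + 1) ^ 3 = 2 * (a * (a * a)) + 6 * (a * a) + 6 * a + 2 := by ring
        rw [e1, e2]
        omega
      omega
  let D := (3 * r + 2) * r + 7
  refine ⟨2 * (r * (4 * r + 3)) + D + 2, 2 ^ (a₀ + r + 4), Nat.one_le_two_pow, fun n hn => ?_⟩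
  have hn1 : 1 ≤ n := Nat.one_le_two_pow.trans hn
  set a := lam n with ha
  have hla : a₀ + r + 4 < a := by
    have h1 := lt_two_lam n
    exact (Nat.pow_lt_pow_iff_right (by norm_num : 1 < 2)).1 (hn.trans_lt h1)
  have hcube : a ^ 3 ≤ n := by
    have h1 := ha₀ (a - 1) (by omega)
    have e : a - 1 + 1 = a := by omega
    rw [e] at h1
    exact h1.trans (two_pow_le hn1)
  have hw : ∃ w, w = a * (2 * a + r) + 3 * r * a + 1 := ⟨_, rfl⟩
  obtain ⟨w, hw⟩ := hw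
  have hm : ∃ m, m = n / a ^ 3 + 1 := ⟨_, rfl⟩
  obtain ⟨m, hm⟩ := hm
  have ha3 : 1 ≤ a ^ 3 := Nat.one_le_pow _ _ (by omega)
  have hmn : n ≤ m * a ^ 3 := by
    rw [hm, Nat.add_mul, Nat.one_mul]
    have := Nat.lt_div_mul_add (a := n) (show 0 < a ^ 3 by omega)
    omega
  have hmn' : m * a ^ 3 ≤ 2 * n := by
    rw [hm, Nat.add_mul, Nat.one_mul]
    have := Nat.div_mul_le_self n (a ^ 3)
    omega
  have hhalf : 2 ^ w * (n - a ^ 3) ^ (m * w) ≤ n ^ (m * w) := by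
    have h1 := halve hmn (by rw [hm]; exact Nat.succ_pos _ : 1 ≤ m)
    have h2 := Nat.pow_le_pow_left h1 w
    rw [mul_pow, ← pow_mul, ← pow_mul] at h2
    exact h2
  have hidx : (n + 1) ^ (2 * a + r) * (a ^ 3) ^ r < 2 ^ w := by
    have h1 : (n + 1) ^ (2 * a + r) ≤ 2 ^ (a * (2 * a + r)) := by
      rw [pow_mul]
      exact Nat.pow_le_pow_left (lt_two_lam n) _
    have h2 : (a ^ 3) ^ r ≤ 2 ^ (3 * r * a) := by
      have h3 : a ≤ 2 ^ a := (Nat.lt_two_pow_self).le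
      calc (a ^ 3) ^ r = a ^ (3 * r) := by rw [pow_mul]
        _ ≤ (2 ^ a) ^ (3 * r) := Nat.pow_le_pow_left h3 _
        _ = 2 ^ (3 * r * a) := by rw [← pow_mul]; congr 1; ring
    calc (n + 1) ^ (2 * a + r) * (a ^ 3) ^ r ≤ 2 ^ (a * (2 * a + r)) * 2 ^ (3 * r * a) :=
          Nat.mul_le_mul h1 h2
      _ = 2 ^ (a * (2 * a + r) + 3 * r * a) := by rw [pow_add]
      _ < 2 ^ w := by
          rw [hw]
          exact Nat.pow_lt_pow_right (by norm_num) (by omega)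
  have hT : 2 * (r * (r * (a ^ 3) ^ r + 1) ^ r) + a ^ 4 * a + 1 ≤ a ^ D := by
    have hra : r ≤ a := by omega
    have h1 : r * (a ^ 3) ^ r + 1 ≤ a ^ (3 * r + 2) := by
      have e1 : (a ^ 3) ^ r = a ^ (3 * r) := by rw [pow_mul]
      have e2 : a ^ (3 * r + 2) = a ^ 2 * a ^ (3 * r) := by rw [pow_add]; ring
      rw [e1, e2]
      have h3 : 1 ≤ a ^ (3 * r) := Nat.one_le_pow _ _ (by omega)
      have h4 : (r + 1) * a ^ (3 * r) ≤ a ^ 2 * a ^ (3 * r) := by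
        apply Nat.mul_le_mul_right
        rw [pow_two]
        have : 2 * a ≤ a * a := Nat.mul_le_mul_right a (by omega)
        omega
      rw [Nat.add_mul, Nat.one_mul] at h4
      omega
    have h2 : (r * (a ^ 3) ^ r + 1) ^ r ≤ a ^ ((3 * r + 2) * r) := by
      rw [pow_mul]
      exact Nat.pow_le_pow_left h1 _
    have h3 : 2 * (r * (r * (a ^ 3) ^ r + 1) ^ r) ≤ a ^ ((3 * r + 2) * r + 2) := by
      have e : a ^ ((3 * r + 2) * r + 2) = a * (a * a ^ ((3 * r + 2) * r)) := by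
        rw [pow_add, pow_two]; ring
      rw [e]
      exact Nat.mul_le_mul (by omega) (Nat.mul_le_mul hra h2)
    have h4 : a ^ 4 * a + 1 ≤ a ^ 6 := by
      have e1 : a ^ 4 * a = a ^ 5 := by ring
      have e2 : a ^ 6 = a * a ^ 5 := by ring
      have e3 : 1 ≤ a ^ 5 := Nat.one_le_pow _ _ (by omega)
      rw [e1, e2]
      have : 2 * a ^ 5 ≤ a * a ^ 5 := Nat.mul_le_mul_right _ (by omega)
      omega
    have h5 : a ^ ((3 * r + 2) * r + 2) ≤ a ^ ((3 * r + 2) * r + 6) :=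
      Nat.pow_le_pow_right (by omega) (by omega)
    have h6 : a ^ 6 ≤ a ^ ((3 * r + 2) * r + 6) := Nat.pow_le_pow_right (by omega) (by omega)
    have h7 : 2 * a ^ ((3 * r + 2) * r + 6) ≤ a ^ D := by
      have e : a ^ D = a * a ^ ((3 * r + 2) * r + 6) := by
        show a ^ ((3 * r + 2) * r + 7) = _
        rw [show (3 * r + 2) * r + 7 = ((3 * r + 2) * r + 6) + 1 by ring, pow_succ]
        ring
      rw [e]
      exact Nat.mul_le_mul_right _ (by omega)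
    omega
  refine ⟨a ^ 3, 2 * (r * (r * (a ^ 3) ^ r + 1) ^ r) + a ^ 4 * a + 1, m * w, ha3, by omega,
    by omega, by omega, ?_, ?_, ?_⟩
  · have h1 : a ≤ a ^ 4 := Nat.le_self_pow (by norm_num) a
    omega
  · rcases Nat.eq_zero_or_pos ((n - a ^ 3) ^ (m * w)) with h0 | h0
    · rw [h0, Nat.mul_zero]
      exact Nat.pow_pos (by omega)
    · exact (Nat.mul_lt_mul_of_pos_right hidx h0).trans_le hhalf
  · intro p g hp hg
    have ha2 : 2 ≤ a := by omega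
    have hwa : w ≤ (4 * r + 3) * a ^ 2 := by
      have h1 : a ≤ a ^ 2 := Nat.le_self_pow (by norm_num) a
      have h2 : 1 ≤ a ^ 2 := Nat.one_le_pow _ _ (by omega)
      have h3 : 4 * r * a ≤ 4 * r * a ^ 2 := Nat.mul_le_mul_left _ h1
      have e1 : w = 2 * a ^ 2 + 4 * r * a + 1 := by rw [hw]; ring
      have e2 : (4 * r + 3) * a ^ 2 = 4 * r * a ^ 2 + 3 * a ^ 2 := by ring
      rw [e1, e2]
      omega
    have hpa : a * p ≤ 2 * (r * (4 * r + 3)) * n := by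
      calc a * p ≤ a * (r * (m * w)) := Nat.mul_le_mul_left _ hp
        _ ≤ a * (r * (m * ((4 * r + 3) * a ^ 2))) := by gcongr
        _ = r * (4 * r + 3) * (m * a ^ 3) := by ring
        _ ≤ r * (4 * r + 3) * (2 * n) := Nat.mul_le_mul_left _ hmn'
        _ = 2 * (r * (4 * r + 3)) * n := by ring
    have hP : n ^ ((a + 1) * p) ≤ a ^ ((a + 1) * (2 * (r * (4 * r + 3)) * n)) := by
      calc n ^ ((a + 1) * p) ≤ (2 ^ a) ^ ((a + 1) * p) := Nat.pow_le_pow_left (lt_two_lam n).le _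
        _ = 2 ^ ((a + 1) * (a * p)) := by rw [← pow_mul]; congr 1; ring
        _ ≤ 2 ^ ((a + 1) * (2 * (r * (4 * r + 3)) * n)) :=
            Nat.pow_le_pow_right (by norm_num) (Nat.mul_le_mul_left _ hpa)
        _ ≤ _ := Nat.pow_le_pow_left ha2 _
    have hTT : (2 * (r * (r * (a ^ 3) ^ r + 1) ^ r) + a ^ 4 * a + 1) ^ ((a + 1) * n) ≤
        a ^ ((a + 1) * (D * n)) := by
      calc _ ≤ (a ^ D) ^ ((a + 1) * n) := Nat.pow_le_pow_left hT _
        _ = _ := by rw [← pow_mul]; congr 1; ring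
    have hnn : n ^ n ≤ a ^ ((a + 1) * n) := by
      calc n ^ n ≤ (2 ^ a) ^ n := Nat.pow_le_pow_left (lt_two_lam n).le _
        _ = 2 ^ (a * n) := by rw [← pow_mul]
        _ ≤ 2 ^ ((a + 1) * n) := Nat.pow_le_pow_right (by norm_num) (Nat.mul_le_mul_right _ (by omega))
        _ ≤ _ := Nat.pow_le_pow_left ha2 _
    have hall : g ^ (a + 1) ≤ (a ^ ((2 * (r * (4 * r + 3)) + D + 1) * n)) ^ (a + 1) := by
      refine hg.trans ((Nat.mul_le_mul (Nat.mul_le_mul hP hTT) hnn).trans (le_of_eq ?_))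
      rw [← pow_add, ← pow_add, ← pow_mul]
      congr 1
      ring
    have hg' : g ≤ a ^ ((2 * (r * (4 * r + 3)) + D + 1) * n) :=
      (Nat.pow_le_pow_iff_left (by omega)).1 hall
    refine hg'.trans_lt (Nat.pow_lt_pow_right (by omega) ?_)
    exact Nat.mul_lt_mul_of_pos_right (by omega) (by omega)

/-- many automorphisms give many exchangeable blocks of at most logarithmic size -/
theorem hom_sharp4 (r : ℕ) : ∃ C n₀ : ℕ, ∀ n, n₀ ≤ n → ∀ (S : Type) (ar : S → ℕ),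
    (∀ s, ar s ≤ r) → ∀ R : Interp S ar (Fin n), lam n ^ (C * n) ≤ Nat.card (AuG R) →
    ∃ t, 1 ≤ t ∧ t ≤ lam n ∧ FamR R (lam n ^ 4) t := by
  obtain ⟨C, n₀, -, h⟩ := num_sharp4 (max 1 r) (le_max_left _ _)
  refine ⟨C, n₀, fun n hn S ar har R hR => ?_⟩
  obtain ⟨l, T, t, hl, hT1, hT2, hT3, hq, hN, hfin⟩ := h n hn
  have har' : ∀ s, ar s ≤ max 1 r := fun s => (har s).trans (le_max_right _ _)
  obtain ⟨P, hP1, hP2⟩ := Pool.Agent.Helper83.AA.p1 (Fin n) S ar R (max 1 r) (lam n) l t hl har' (by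
    rw [Fintype.card_fin]
    exact hN)
  rcases stmtP5 (Fin n) S ar R (max 1 r) (lam n) l T (lam n ^ 4) P har' hP2 hq hT1 hT2 hT3 with
    h | ⟨t', h1, h2, u, hu, hu'⟩
  · exfalso
    rw [Fintype.card_fin] at h
    exact absurd (hfin P.card _ hP1 h) (not_lt.2 hR)
  · exact ⟨t', h1, h2, u, hu, hu'⟩


/-- every large model has a family of `K ^ 2` blocks of at most `K` points, for some large `K` -/
theorem bounded_fam2 (hL : StmtLift) {S : Type} [Finite S] {ar : S → ℕ} {r : ℕ}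
    (har : ∀ s, ar s ≤ r) (χ : (RelLang S ar).Sentence) (n₀ B : ℕ)
    (hfam : ∀ n, n₀ ≤ n → ∀ R : Interp S ar (Fin n), IsMod χ R → ∃ t, 1 ≤ t ∧ t ≤ lam n ∧
      FamR R (lam n ^ 4) t) :
    ∃ K, B ≤ K ∧ ∃ n₁, ∀ n, n₁ ≤ n → ∀ R : Interp S ar (Fin n), IsMod χ R →
      ∃ t, 1 ≤ t ∧ t ≤ K ∧ FamR R (K ^ 2) t := by
  obtain ⟨K, hK⟩ : ∃ K, K = B + n₀ + r + qd χ + 8 := ⟨_, rfl⟩
  obtain ⟨s, hs⟩ : ∃ s, s = Nat.sqrt K + 1 := ⟨_, rfl⟩
  have hs1 : K ≤ s * s := by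
    rw [hs]
    exact (Nat.lt_succ_sqrt K).le
  have hs2 : s + 1 ≤ K := by
    have h1 : Nat.sqrt K * Nat.sqrt K ≤ K := Nat.sqrt_le K
    by_contra h
    have h2 : K - 1 ≤ Nat.sqrt K := by omega
    have h3 : (K - 1) * (K - 1) ≤ Nat.sqrt K * Nat.sqrt K := Nat.mul_le_mul h2 h2
    obtain ⟨m, hm⟩ : ∃ m, K = m + 8 := ⟨K - 8, by omega⟩
    rw [hm] at h3 h1
    have h4 : (m + 8 - 1) * (m + 8 - 1) = m * m + 14 * m + 49 := by
      have : m + 8 - 1 = m + 7 := by omega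
      rw [this]
      ring
    rw [h4] at h3
    nlinarith
  refine ⟨K, by omega, max n₀ (2 ^ s), fun n => ?_⟩
  induction n using Nat.strong_induction_on with
  | _ n ih =>
    intro hn R hR
    have hn0 : n₀ ≤ n := (le_max_left _ _).trans hn
    have hns : 2 ^ s ≤ n := (le_max_right _ _).trans hn
    have hls : s < lam n := (Nat.pow_lt_pow_iff_right (by norm_num : 1 < 2)).1
      (hns.trans_lt (lt_two_lam n))
    have hl4 : K ^ 2 ≤ lam n ^ 4 := by
      calc K ^ 2 ≤ (s * s) ^ 2 := Nat.pow_le_pow_left hs1 2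
        _ = s ^ 4 := by ring
        _ ≤ lam n ^ 4 := Nat.pow_le_pow_left hls.le 4
    obtain ⟨t, ht1, ht2, hF⟩ := hfam n hn0 R hR
    by_contra hcon
    push Not at hcon
    -- the blocks are large
    have htK : K < t := by
      by_contra h
      push Not at h
      exact hcon t ht1 h (hF.fewer hl4)
    have hlam : K + 1 ≤ lam n := by omega
    have hsq : K ^ 2 * K + K + 2 ≤ lam n ^ 4 := by
      have h1 : (K + 1) ^ 4 ≤ lam n ^ 4 := Nat.pow_le_pow_left hlam 4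
      have e1 : (K + 1) ^ 4 = K ^ 4 + 4 * (K ^ 2 * K) + 6 * K ^ 2 + 4 * K + 1 := by ring
      have e2 : 1 ≤ K ^ 2 := Nat.one_le_pow _ _ (by omega)
      omega
    obtain ⟨q, hq⟩ : ∃ q, lam n ^ 4 = q + 1 := ⟨lam n ^ 4 - 1, by omega⟩
    rw [hq] at hF hsq
    obtain ⟨n', hn', R', hR', hlift⟩ := hL S ar χ n q t (K ^ 2) r R har hR hF (by omega) (by omega)
    have hn1 : 1 ≤ n := le_trans (Nat.one_le_two_pow) hns
    have h2 := two_pow_le hn1
    have h3 := two_mul_le (a := lam n) (by omega)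
    have h5 : 2 ^ K ≤ n := le_trans (Nat.pow_le_pow_right (by norm_num) (by omega)) h2
    have h6 : 2 ^ K = 2 * 2 ^ (K - 1) := by
      obtain ⟨m, hm⟩ : ∃ m, K = m + 1 := ⟨K - 1, by omega⟩
      rw [hm, Nat.add_sub_cancel, pow_succ]
      ring
    have h7 : K - 1 < 2 ^ (K - 1) := Nat.lt_two_pow_self
    have h8 : 2 ^ s ≤ 2 ^ (K - 1) := Nat.pow_le_pow_right (by norm_num) (by omega)
    obtain ⟨t', ht1', ht2', hF'⟩ := ih n' (by omega) (max_le (by omega) (by omega)) R' hR'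
    refine hcon t' ht1' ht2' (hlift t' ?_ hF')
    have h4 : K ^ 2 * t' ≤ K ^ 2 * K := Nat.mul_le_mul_left _ ht2'
    omega

end Pool.Agent.Helper20.MC
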