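import Pool.Agent.Helper20.MC.Sharp3
import Pool.Agent.Helper53.AJ.Upper

/-!
# The sharp threshold for first-order sentences: bounded homogeneous families
-/

set_option autoImplicit false

namespace Pool.Agent.Helper53.AJ

open FirstOrder Pool.Agent.Helper20.Spectra Pool.Agent.Helper58.QD Pool.Agent.Helper14.SS
open Pool.Agent.Helper31.QD (Au qd)
open Pool.Agent.Helper40.MCM
open Pool.Agent.Helper38.MC (mp bp ext bp_eq mp_mp efB stmtLift)
open Pool.Agent.Helper38.QD (isMod_equiv)
open Pool.Agent.Helper6.MC (FamR)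
open Pool.Agent.Helper20.MC (hom_sharp4 bounded_fam2)

variable {S : Type} {ar : S → ℕ}

/-- pumping down, first-order sentences: the number of blocks does not depend on their size -/
theorem down_fo (χ : (RelLang S ar).Sentence) {V : Type} {R : Interp S ar V}
    (hM : IsMod χ R) {q t : ℕ} (hq : qd χ + 1 ≤ q) {u : Fin q × Fin t → V} (hu : Hm R u)
    (i : Fin q) : IsMod χ (rs R (off u i)) := by
  classical
  let Rs : Interp S ar ({z : V // ¬ z ∈ Set.range u} ⊕ ({j : Fin q // j ≠ i} × Fin t)) :=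
    fun s w => cutR u hu.1 R s (mp Subtype.val ∘ w)
  have hc : Nat.card {j : Fin q // j ≠ i} = q - 1 := by
    rw [Nat.card_eq_fintype_card, Fintype.card_subtype_compl, Fintype.card_fin,
      Fintype.card_subtype_eq]
  have h := efB (R' := cutR u hu.1 R) (R := Rs) Subtype.val Subtype.val_injective (cutR_bp hu)
    (fun s t => Iff.rfl) χ (by rw [hc]; omega) default default default
  have e1 : (mp Subtype.val ∘ (default : Fin 0 →
      {z : V // ¬ z ∈ Set.range u} ⊕ ({j : Fin q // j ≠ i} × Fin t))) =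
      (default : Fin 0 → {z : V // ¬ z ∈ Set.range u} ⊕ (Fin q × Fin t)) :=
    Subsingleton.elim _ _
  rw [e1] at h
  have hM0 : IsMod χ (cutR u hu.1 R) := (isMod_equiv χ (cutE u hu.1).symm R).1 hM
  have hM1 : IsMod χ Rs := h.1 hM0
  have h2 := (isMod_equiv χ (offE hu.1 i) Rs).1 hM1
  have h3 : (fun s w => Rs s ((offE hu.1 i).symm ∘ w)) = rs R (off u i) := by
    funext s w
    have h4 : (fun a => (w a : V)) = cutE u hu.1 ∘ (mp Subtype.val ∘ ((offE hu.1 i).symm ∘ w)) := by
      funext a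
      show (w a : V) = cutE u hu.1 (mp Subtype.val ((offE hu.1 i).symm (w a)))
      rw [← offE_eq hu.1 i, Equiv.apply_symm_apply]
    show R s (cutE u hu.1 ∘ (mp Subtype.val ∘ ((offE hu.1 i).symm ∘ w))) =
      R s (fun a => (w a : V))
    rw [h4]
  rw [h3] at h2
  exact h2

/-- the number of classes is bounded, fixed number of blocks -/
theorem cls_bdd2 {r k N n₀ : ℕ} (hr : ∀ s, ar s ≤ r) (hN : r + 2 * k + 2 ≤ N)
    (P : ∀ V : Type, Interp S ar V → Prop)
    (hfam : ∀ (V : Type) (R : Interp S ar V), Finite V → P V R → n₀ ≤ Nat.card V →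
      ∃ t, 1 ≤ t ∧ t ≤ k ∧ ∃ u : Fin N × Fin t → V, Hm R u)
    (hdown : ∀ (V : Type) (R : Interp S ar V), Finite V → P V R → ∀ t : ℕ, t ≤ k →
      ∀ u : Fin N × Fin t → V, Hm R u → ∀ i, P (off u i) (rs R (off u i)))
    (V : Type) (R : Interp S ar V) (hV : Finite V) (hP : P V R) :
    Nat.card (Quot (Rl R k N)) ≤ n₀ := by
  have key : ∀ (m : ℕ) (V : Type) (R : Interp S ar V), Finite V → Nat.card V = m → P V R →
      Nat.card (Quot (Rl R k N)) ≤ n₀ := by
    intro m
    induction m using Nat.strong_induction_on with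
    | _ m ih =>
      intro V R hV hm hP
      by_cases h1 : Nat.card V ≤ n₀
      · exact (Nat.card_le_card_of_surjective (Quot.mk (Rl R k N)) Quot.exists_rep).trans h1
      · obtain ⟨t, ht1, htk, u, hu⟩ := hfam V R hV hP (by omega)
        obtain ⟨t', e, he, h2, h3, h4⟩ := irr_of hu ht1
        set u' : Fin N × Fin t' → V := fun p => u (p.1, e p.2) with hu'
        have hbig : Big R k N u' := ⟨h4, h3.trans htk, le_rfl⟩
        have i : Fin N := ⟨0, by omega⟩
        have hP' := hdown V R hV hP t' (h3.trans htk) u' h4.1 i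
        have hlt : Nat.card (off u' i) < m := by
          rw [← hm]
          have h5 := Fintype.ofFinite V
          have h6 := Fintype.ofFinite (off u' i)
          rw [Nat.card_eq_fintype_card, Nat.card_eq_fintype_card]
          refine Fintype.card_lt_of_injective_of_notMem (fun z : off u' i => (z : V))
            Subtype.val_injective (b := u' (i, ⟨0, h2⟩)) ?_
          rintro ⟨z, hz⟩
          exact z.2 ⟨0, h2⟩ hz.symm
        exact (cls_le hr (by omega) hbig i).trans
          (ih _ hlt _ _ Subtype.finite rfl hP')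
  exact key _ V R hV rfl hP

/-- a bound for the number of models excludes the third case -/
theorem not_growthC {φ : SFm (RelLang S ar) 0 0} {K D : ℕ} (hK : 1 ≤ K)
    (h : ∀ n, 1 ≤ n → countM φ n ^ K ≤ D ^ n * n ^ ((K - 1) * n)) : ¬ GrowthC φ := by
  intro hG
  have hK0 : (0 : ℝ) < K := by exact_mod_cast hK
  obtain ⟨n, hn, hn2⟩ := hG (1 / (2 * K)) (by positivity) (D ^ 2 + 1)
  have hn1 : 1 ≤ n := by omega
  have hx1 : (1 : ℝ) ≤ n := by exact_mod_cast hn1
  have hx0 : (0 : ℝ) < n := by linarith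
  have h1 : ((n : ℝ) ^ ((1 - 1 / (2 * K)) * n : ℝ)) ^ K ≤ (D : ℝ) ^ n * (n : ℝ) ^ ((K - 1) * n) := by
    refine (pow_le_pow_left₀ (Real.rpow_nonneg hx0.le _) hn2 K).trans ?_
    exact_mod_cast h n hn1
  rw [← Real.rpow_natCast ((n : ℝ) ^ ((1 - 1 / (2 * K)) * n : ℝ)) K, ← Real.rpow_mul hx0.le] at h1
  have e1 : ((1 - 1 / (2 * K)) * n * K : ℝ) = n / 2 + ((K - 1) * n : ℝ) := by
    field_simp
    ring
  rw [e1, Real.rpow_add hx0] at h1
  have e2 : (n : ℝ) ^ ((K - 1) * n) = (n : ℝ) ^ (((K : ℝ) - 1) * n) := by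
    rw [← Real.rpow_natCast]
    congr 1
    rw [Nat.cast_mul, Nat.cast_sub hK, Nat.cast_one]
  rw [e2] at h1
  have h2 : (n : ℝ) ^ ((n : ℝ) / 2) ≤ (D : ℝ) ^ n :=
    le_of_mul_le_mul_right h1 (Real.rpow_pos_of_pos hx0 _)
  have h3 : ((n : ℝ) ^ ((n : ℝ) / 2)) ^ 2 = (n : ℝ) ^ n := by
    rw [← Real.rpow_natCast ((n : ℝ) ^ ((n : ℝ) / 2)) 2, ← Real.rpow_mul hx0.le]
    have : ((n : ℝ) / 2 * ((2 : ℕ) : ℝ)) = ((n : ℕ) : ℝ) := by
      push_cast
      ring
    rw [this, Real.rpow_natCast]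
  have h4 : (n : ℝ) ^ n ≤ ((D : ℝ) ^ 2) ^ n := by
    rw [← h3, ← pow_mul, mul_comm 2 n, pow_mul]
    exact pow_le_pow_left₀ (Real.rpow_nonneg hx0.le _) h2 2
  have h5 : ((D : ℝ) ^ 2) ^ n < (n : ℝ) ^ n := by
    apply pow_lt_pow_left₀ _ (by positivity) (by omega)
    have : D ^ 2 < n := by omega
    exact_mod_cast this
  linarith

/-- the sharp threshold -/
theorem stmtSharp : StmtSharp := by
  intro r
  obtain ⟨C, n₀, hC⟩ := hom_sharp4 r
  refine ⟨C, fun S _ ar χ har hcount => ?_⟩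
  obtain ⟨n₂, hn₂⟩ := Filter.eventually_atTop.1 hcount
  obtain ⟨K, hKB, n₁, hK⟩ := bounded_fam2 stmtLift har χ (max n₀ n₂) (r + qd χ + 10)
    (fun n hn R hR => hC n ((le_max_left _ _).trans hn) S ar har R (by
      have h1 : count χ n * Pool.Agent.Helper6.MC.lam n ^ (C * n) ≤ n.factorial :=
        hn₂ n ((le_max_right _ _).trans hn)
      have h2 : n.factorial ≤ count χ n * Nat.card (Pool.Agent.Helper38.MC.AuG R) :=
        Pool.Agent.Helper40.MC.factorial_le hR
      have h3 : 0 < count χ n := by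
        have h4 := n.factorial_pos.trans_le h2
        exact Nat.pos_of_mul_pos_right h4
      exact Nat.le_of_mul_le_mul_left (h1.trans h2) h3))
  obtain ⟨N, hN⟩ : ∃ N, N = K ^ 2 := ⟨_, rfl⟩
  have hN1 : 2 * K + r + qd χ + 4 ≤ N := by
    have h1 : 10 * K ≤ K ^ 2 := by
      rw [pow_two]
      exact Nat.mul_le_mul_right _ (by omega)
    omega
  rw [← hN] at hK
  have hcls : ∀ (V : Type) (R : Interp S ar V), Finite V → IsMod χ R →
      Nat.card (Quot (Rl R K N)) ≤ n₁ := by
    intro V R hV hR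
    refine cls_bdd2 har (by omega) (fun V R => IsMod χ R) ?_ ?_ V R hV hR
    · intro V R hV hR hcard
      have := Fintype.ofFinite V
      rw [Nat.card_eq_fintype_card] at hcard
      let e : V ≃ Fin (Fintype.card V) := Fintype.equivFin V
      obtain ⟨t, ht1, htk, u, hu⟩ := hK _ hcard (fun s w => R s (e.symm ∘ w))
        ((isMod_equiv χ e R).1 hR)
      exact ⟨t, ht1, htk, _, hm_map (R := fun s w => R s (e.symm ∘ w)) (R' := R) e.symm
        (fun s w => Iff.rfl) hu⟩
    · intro V R hV hR t ht u hu i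
      exact down_fo χ hR (by omega) hu i
  obtain ⟨D, hDc⟩ := count_dec (S := S) (ar := ar) K n₁ (by omega)
  refine famBdd_of_not _ (not_growthC (K := K) (D := D) (by omega) (fun n hn => ?_))
  refine le_trans (Nat.pow_le_pow_left ?_ K) (hDc n hn)
  refine Nat.card_le_card_of_injective
    (fun R : {R : Interp S ar (Fin n) // SatM (toM χ) R} => (⟨R.1,
      dec_of har (by omega) (by omega)
        (hcls (Fin n) R.1 inferInstance ((satM_toM χ R.1).1 R.2))⟩ :
      {R : Interp S ar (Fin n) // Dec R K n₁})) ?_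
  intro R R' h
  exact Subtype.ext (congrArg (fun x : {R : Interp S ar (Fin n) // Dec R K n₁} => x.1) h)

end Pool.Agent.Helper53.AJ
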