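import Pool.Agent.Helper20.MC.Sharp4

/-!
# The sharp threshold for monadic second-order sentences: boundedly many classes
-/

set_option autoImplicit false

namespace Pool.Agent.Helper53.AJ

open FirstOrder Pool.Agent.Helper20.Spectra Pool.Agent.Helper58.QD Pool.Agent.Helper14.SS
open Pool.Agent.Helper31.QD (Au qd)
open Pool.Agent.Helper40.MCM
open Pool.Agent.Helper6.MC (FamR)

variable {S : Type} {ar : S → ℕ}

/-- the number of classes is bounded, number of blocks depending on their size -/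
theorem cls_bdd3 {r k N n₀ : ℕ} (hr : ∀ s, ar s ≤ r) (hN : r + 2 * k + 2 ≤ N)
    (P : ∀ V : Type, Interp S ar V → Prop) (F : ℕ → ℕ) (hF : ∀ t, N ≤ F t)
    (hfam : ∀ (V : Type) (R : Interp S ar V), Finite V → P V R → n₀ ≤ Nat.card V →
      ∃ t, 1 ≤ t ∧ t ≤ k ∧ ∃ u : Fin (F t) × Fin t → V, Hm R u)
    (hdown : ∀ (V : Type) (R : Interp S ar V), Finite V → P V R → ∀ t t' : ℕ, 1 ≤ t → t' ≤ t → t ≤ k →
      ∀ u : Fin (F t) × Fin t' → V, Hm R u → ∀ i, P (off u i) (rs R (off u i)))
    (V : Type) (R : Interp S ar V) (hV : Finite V) (hP : P V R) :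
    Nat.card (Quot (Rl R k N)) ≤ n₀ := by
  have key : ∀ (m : ℕ) (V : Type) (R : Interp S ar V), Finite V → Nat.card V = m → P V R →
      Nat.card (Quot (Rl R k N)) ≤ n₀ := by
    intro m
    induction m using Nat.strong_induction_on with
    | _ m ih =>
      intro V R hV hm hP
      by_cases h1 : Nat.card V ≤ n₀
      · exact (Nat.card_le_card_of_surjective (Quot.mk (Rl R k N)) Quot.exists_rep).trans h1
      · obtain ⟨t, ht1, htk, u, hu⟩ := hfam V R hV hP (by omega)
        obtain ⟨t', e, he, h2, h3, h4⟩ := irr_of hu ht1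
        set u' : Fin (F t) × Fin t' → V := fun p => u (p.1, e p.2) with hu'
        have hbig : Big R k N u' := ⟨h4, h3.trans htk, hF t⟩
        have i : Fin (F t) := ⟨0, by have := hF t; omega⟩
        have hP' := hdown V R hV hP t t' ht1 h3 htk u' h4.1 i
        have hlt : Nat.card (off u' i) < m := by
          rw [← hm]
          have h5 := Fintype.ofFinite V
          have h6 := Fintype.ofFinite (off u' i)
          rw [Nat.card_eq_fintype_card, Nat.card_eq_fintype_card]
          refine Fintype.card_lt_of_injective_of_notMem (fun z : off u' i => (z : V))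
            Subtype.val_injective (b := u' (i, ⟨0, h2⟩)) ?_
          rintro ⟨z, hz⟩
          exact z.2 ⟨0, h2⟩ hz.symm
        exact (cls_le hr (by omega) hbig i).trans
          (ih _ hlt _ _ Subtype.finite rfl hP')
  exact key _ V R hV rfl hP

/-- families of bounded blocks in all large models bound the number of models -/
theorem famBdd_of_bounded [Finite S] (φ : SFm (RelLang S ar) 0 0) {r c K N₀ n₁ : ℕ} (F : ℕ → ℕ)
    (har : ∀ s, ar s ≤ r) (hK : 1 ≤ K) (hN : 2 * K + r + 4 ≤ N₀) (hF : ∀ t, N₀ ≤ F t)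
    (hFc : ∀ t, 1 ≤ t → t ≤ K → 2 ^ (c * (t + 1)) < F t)
    (hdown : ∀ (V : Type) [Fintype V] (R : Interp S ar V), SatM φ R → ∀ q t : ℕ, 2 ^ (c * (t + 1)) < q →
      ∀ u : Fin q × Fin t → V, Hm R u → ∀ (i : Fin q) [Fintype (off u i)], SatM φ (rs R (off u i)))
    (hfam : ∀ n, n₁ ≤ n → ∀ R : Interp S ar (Fin n), SatM φ R →
      ∃ t, 1 ≤ t ∧ t ≤ K ∧ FamR R (F t) t) : FamBdd φ := by
  have hcls : ∀ (V : Type) (R : Interp S ar V), Finite V → (∃ _ : Fintype V, SatM φ R) →
      Nat.card (Quot (Rl R K N₀)) ≤ n₁ := by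
    intro V R hV hR
    refine cls_bdd3 har (by omega) (fun V R => ∃ _ : Fintype V, SatM φ R) F hF
      ?_ ?_ V R hV hR
    · rintro V R hV ⟨_, hR⟩ hcard
      rw [Nat.card_eq_fintype_card] at hcard
      let e : V ≃ Fin (Fintype.card V) := Fintype.equivFin V
      obtain ⟨t, ht1, htk, u, hu⟩ := hfam _ hcard (fun s w => R s (e.symm ∘ w))
        ((satM_equiv φ e R).2 hR)
      exact ⟨t, ht1, htk, _, hm_map (R := fun s w => R s (e.symm ∘ w)) (R' := R) e.symm
        (fun s w => Iff.rfl) hu⟩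
    · rintro V R hV ⟨_, hR⟩ t t' ht1 htt htk u hu i
      refine ⟨Fintype.ofFinite _, @hdown V _ R hR _ t' ?_ u hu i (Fintype.ofFinite _)⟩
      exact (Nat.pow_le_pow_right (by norm_num) (Nat.mul_le_mul_left _ (by omega))).trans_lt
        (hFc t ht1 htk)
  obtain ⟨D, hDc⟩ := count_dec (S := S) (ar := ar) K n₁ hK
  refine famBdd_of_not _ (not_growthC (K := K) (D := D) hK (fun n hn => ?_))
  refine le_trans (Nat.pow_le_pow_left ?_ K) (hDc n hn)
  have : Finite (Interp S ar (Fin n)) := Pi.finite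
  refine Nat.card_le_card_of_injective
    (fun R : {R : Interp S ar (Fin n) // SatM φ R} => (⟨R.1,
      dec_of har (by omega) hK
        (hcls (Fin n) R.1 inferInstance ⟨inferInstance, R.2⟩)⟩ :
      {R : Interp S ar (Fin n) // Dec R K n₁})) ?_
  intro R R' h
  exact Subtype.ext (congrArg (fun x : {R : Interp S ar (Fin n) // Dec R K n₁} => x.1) h)

end Pool.Agent.Helper53.AJ
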