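import Pool.Agent.Helper20.MC.Conv2
import Pool.Agent.Helper38.DG.FDRelat

/-!
# Blowing up points: sentences with at most `n! / K ^ n` labelled models
-/

set_option autoImplicit false

namespace Pool.Agent.Helper20.MC

open FirstOrder FirstOrder.Language Pool.Agent.Helper20.Spectra Pool.Agent.Helper58.QD
open Pool.Agent.Helper38.DG Filter

variable {S : Type} {ar : S → ℕ}

/-- the symbols: a function; the symbols of the inner structure -/
def oar (ar : S → ℕ) : Option S → ℕ
  | none => 2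
  | some s => ar s

section defs

variable {M : Type}

/-- the function -/
def fO (R : Interp (Option S) (oar ar) M) (x y : M) : Prop := R none ![x, y]

/-- the inner structure -/
def innerO (R : Interp (Option S) (oar ar) M) : Interp S ar {x // fO R x x} :=
  fun b v => R (some b) (fun i => (v i).1)

/-- the inner relations are relations on the values of the function -/
def Supp (R : Interp (Option S) (oar ar) M) : Prop :=
  ∀ (b : S) (v : Fin (ar b) → M), R (some b) v → ∀ i, fO R (v i) (v i)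

/-- `f` is a function onto its set of fixed points, with fibres of `s + 1` points -/
structure Blk (s : ℕ) (f : M → M → Prop) : Prop where
  fJ : ∀ x y, f x y → f y y
  fe : ∀ x, ∃ y, f x y
  fu : ∀ x y y', f x y → f x y' → y = y'
  fs : ∀ y, f y y → ∃ x : Fin (s + 1) → M, (∀ i j, x i = x j → i = j) ∧
    ∀ z, f z y ↔ ∃ i, z = x i

end defs

/-! ### Coordinates -/

section Coords

variable {n m s : ℕ}

/-- `e` gives the coordinates of `R` -/
def GoodO (e : Fin m × Option (Fin s) ≃ Fin n) (R : Interp (Option S) (oar ar) (Fin n)) : Prop :=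
  ∀ i a j b, fO R (e (i, a)) (e (j, b)) ↔ i = j ∧ b = none

/-- the inner structure on `Fin m` -/
def pullO (e : Fin m × Option (Fin s) ≃ Fin n) (R : Interp (Option S) (oar ar) (Fin n)) :
    Interp S ar (Fin m) :=
  fun b w => R (some b) (fun j => e (w j, none))

/-- the structure with given coordinates and given inner structure -/
def buildO (e : Fin m × Option (Fin s) ≃ Fin n) (Q : Interp S ar (Fin m)) :
    Interp (Option S) (oar ar) (Fin n) :=
  fun t => match t with
    | none => fun v => ∃ i a, v (0 : Fin 2) = e (i, a) ∧ v (1 : Fin 2) = e (i, none)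
    | some b => fun v => ∃ w : Fin (ar b) → Fin m, v = (fun j => e (w j, none)) ∧ Q b w

lemma Blk.exists_good {R : Interp (Option S) (oar ar) (Fin n)} (h : Blk s (fO R)) :
    ∃ (m : ℕ) (e : Fin m × Option (Fin s) ≃ Fin n), GoodO e R := by
  classical
  obtain ⟨m, hm⟩ : ∃ m, m = Fintype.card {x // fO R x x} := ⟨_, rfl⟩
  let e1 : Fin m ≃ {x // fO R x x} := (Fintype.equivFinOfCardEq hm.symm).symm
  have hG : ∀ y : {x // fO R x x}, ∃ G : Option (Fin s) → Fin n, G none = y.1 ∧
      Function.Injective G ∧ ∀ z, fO R z y.1 ↔ ∃ a, z = G a := by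
    intro y
    obtain ⟨x, hx1, hx2⟩ := h.fs y.1 y.2
    obtain ⟨i₀, hi₀⟩ := (hx2 y.1).1 y.2
    refine ⟨fun a => x ((finSuccEquiv' i₀).symm a), ?_, ?_, ?_⟩
    · show x ((finSuccEquiv' i₀).symm none) = y.1
      rw [finSuccEquiv'_symm_none]
      exact hi₀.symm
    · intro a b hab
      exact (finSuccEquiv' i₀).symm.injective (hx1 _ _ hab)
    · intro z
      rw [hx2 z]
      constructor
      · rintro ⟨i, rfl⟩
        exact ⟨finSuccEquiv' i₀ i, by
          show x i = x ((finSuccEquiv' i₀).symm (finSuccEquiv' i₀ i))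
          rw [Equiv.symm_apply_apply]⟩
      · rintro ⟨a, rfl⟩
        exact ⟨_, rfl⟩
  choose G hG0 hGi hG1 using hG
  let F : Fin m × Option (Fin s) → Fin n := fun p => G (e1 p.1) p.2
  have hfF : ∀ p, fO R (F p) (e1 p.1).1 := fun p => (hG1 (e1 p.1) _).2 ⟨p.2, rfl⟩
  have hinj : Function.Injective F := by
    rintro ⟨i, a⟩ ⟨j, b⟩ hp
    have h1 := hfF (i, a)
    rw [hp] at h1
    have h2 := h.fu _ _ _ h1 (hfF (j, b))
    have h3 : i = j := e1.injective (Subtype.ext h2)
    subst h3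
    have h4 : a = b := hGi _ hp
    rw [h4]
  have hsurj : Function.Surjective F := by
    intro z
    obtain ⟨y, hy⟩ := h.fe z
    have hJ := h.fJ _ _ hy
    obtain ⟨a, ha⟩ := (hG1 ⟨y, hJ⟩ z).1 hy
    refine ⟨(e1.symm ⟨y, hJ⟩, a), ?_⟩
    show G (e1 (e1.symm ⟨y, hJ⟩)) a = z
    rw [e1.apply_symm_apply]
    exact ha.symm
  refine ⟨m, Equiv.ofBijective F ⟨hinj, hsurj⟩, fun i a j b => ?_⟩
  show fO R (F (i, a)) (F (j, b)) ↔ _
  have h0 : ∀ i, F (i, none) = (e1 i).1 := fun i => hG0 _
  constructor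
  · intro h1
    have h2 := h.fu _ _ _ h1 (hfF (i, a))
    rw [← h0] at h2
    have h3 := hinj h2
    exact ⟨(congrArg Prod.fst h3).symm, congrArg Prod.snd h3⟩
  · rintro ⟨rfl, rfl⟩
    rw [h0]
    exact hfF (i, a)

lemma GoodO.eq_build {e : Fin m × Option (Fin s) ≃ Fin n}
    {R : Interp (Option S) (oar ar) (Fin n)} (h : GoodO e R) (hs : Supp R) :
    R = buildO e (pullO e R) := by
  funext t v
  apply propext
  rcases t with _ | b
  · have e0 : v = ![v (0 : Fin 2), v (1 : Fin 2)] := by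
      funext i
      revert i
      show ∀ i : Fin 2, _
      intro i
      fin_cases i <;> rfl
    show R none v ↔ ∃ i a, v (0 : Fin 2) = e (i, a) ∧ v (1 : Fin 2) = e (i, none)
    have h1 : R none v ↔ fO R (v (0 : Fin 2)) (v (1 : Fin 2)) := by
      unfold fO
      rw [← e0]
    rw [h1]
    obtain ⟨⟨i, a⟩, hi⟩ := e.surjective (v (0 : Fin 2))
    obtain ⟨⟨j, b⟩, hj⟩ := e.surjective (v (1 : Fin 2))
    rw [← hi, ← hj, h i a j b]
    constructor
    · rintro ⟨rfl, rfl⟩
      exact ⟨i, a, rfl, rfl⟩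
    · rintro ⟨k, c, h2, h3⟩
      have h4 := e.injective h2
      have h5 := e.injective h3
      exact ⟨(congrArg Prod.fst h4).trans (congrArg Prod.fst h5).symm, congrArg Prod.snd h5⟩
  · show R (some b) v ↔ ∃ w : Fin (ar b) → Fin m, v = (fun j => e (w j, none)) ∧
      R (some b) (fun j => e (w j, none))
    constructor
    · intro h1
      have h2 : ∀ i, ∃ k, v i = e (k, none) := by
        intro i
        have h3 := hs b v h1 i
        obtain ⟨⟨k, a⟩, hk⟩ := e.surjective (v i)
        rw [← hk, h k a k a] at h3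
        exact ⟨k, by rw [← hk, h3.2]⟩
      choose w hw using h2
      have h4 : v = fun j => e (w j, none) := funext hw
      exact ⟨w, h4, Eq.mp (congrArg (R (some b)) h4) h1⟩
    · rintro ⟨w, h1, h2⟩
      exact Eq.mpr (congrArg (R (some b)) h1) h2

lemma buildO_f (e : Fin m × Option (Fin s) ≃ Fin n) (Q : Interp S ar (Fin m)) (x y : Fin n) :
    fO (buildO e Q) x y ↔ ∃ i a, x = e (i, a) ∧ y = e (i, none) := Iff.rfl

lemma buildO_ff (e : Fin m × Option (Fin s) ≃ Fin n) (Q : Interp S ar (Fin m)) (x : Fin n) :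
    fO (buildO e Q) x x ↔ ∃ i, x = e (i, none) := by
  rw [buildO_f]
  constructor
  · rintro ⟨i, a, _, h⟩
    exact ⟨i, h⟩
  · rintro ⟨i, h⟩
    exact ⟨i, none, h, h⟩

lemma buildO_good (e : Fin m × Option (Fin s) ≃ Fin n) (Q : Interp S ar (Fin m)) :
    GoodO e (buildO e Q) := by
  intro i a j b
  constructor
  · rintro ⟨k, c, h2, h3⟩
    have h4 := e.injective h2
    have h5 := e.injective h3
    exact ⟨(congrArg Prod.fst h4).trans (congrArg Prod.fst h5).symm, congrArg Prod.snd h5⟩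
  · rintro ⟨rfl, rfl⟩
    exact ⟨i, a, rfl, rfl⟩

lemma buildO_blk (e : Fin m × Option (Fin s) ≃ Fin n) (Q : Interp S ar (Fin m)) :
    Blk s (fO (buildO e Q)) := by
  refine ⟨?_, ?_, ?_, ?_⟩
  · rintro x y ⟨i, a, rfl, rfl⟩
    exact ⟨i, none, rfl, rfl⟩
  · intro x
    obtain ⟨⟨i, a⟩, rfl⟩ := e.surjective x
    exact ⟨_, i, a, rfl, rfl⟩
  · rintro x y y' ⟨i, a, rfl, rfl⟩ ⟨j, b, h1, rfl⟩
    have := congrArg Prod.fst (e.injective h1)
    have h2 : i = j := this
    rw [h2]
  · intro y hy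
    obtain ⟨i, rfl⟩ := (buildO_ff e Q y).1 hy
    refine ⟨fun c => e (i, finSuccEquiv s c), ?_, ?_⟩
    · intro c d hcd
      exact (finSuccEquiv s).injective (congrArg Prod.snd (e.injective hcd))
    · intro z
      constructor
      · rintro ⟨j, a, rfl, h1⟩
        have h2 : i = j := congrArg Prod.fst (e.injective h1)
        subst h2
        refine ⟨(finSuccEquiv s).symm a, ?_⟩
        show e (i, a) = e (i, finSuccEquiv s ((finSuccEquiv s).symm a))
        rw [Equiv.apply_symm_apply]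
      · rintro ⟨c, rfl⟩
        exact ⟨i, _, rfl, rfl⟩

lemma buildO_supp (e : Fin m × Option (Fin s) ≃ Fin n) (Q : Interp S ar (Fin m)) :
    Supp (buildO e Q) := by
  rintro b v ⟨w, rfl, _⟩ i
  exact (buildO_ff e Q _).2 ⟨w i, rfl⟩

lemma pullO_build (e : Fin m × Option (Fin s) ≃ Fin n) (Q : Interp S ar (Fin m)) :
    pullO e (buildO e Q) = Q := by
  funext b w
  apply propext
  constructor
  · rintro ⟨w', h1, h2⟩
    have h3 : w = w' := by
      funext j
      exact congrArg Prod.fst (e.injective (congrFun h1 j))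
    rw [h3]
    exact h2
  · intro h
    exact ⟨w, rfl, h⟩

/-- the change of coordinates -/
def chg (σ : Equiv.Perm (Fin m)) (τ : Fin m → Equiv.Perm (Fin s)) :
    Fin m × Option (Fin s) ≃ Fin m × Option (Fin s) :=
  Equiv.prodShear σ (fun i => Equiv.optionCongr (τ i))

lemma GoodO.perm {e : Fin m × Option (Fin s) ≃ Fin n} {R : Interp (Option S) (oar ar) (Fin n)}
    (h : GoodO e R) (σ : Equiv.Perm (Fin m)) (τ : Fin m → Equiv.Perm (Fin s)) :
    GoodO ((chg σ τ).trans e) R := by
  intro i a j b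
  show fO R (e (σ i, Equiv.optionCongr (τ i) a)) (e (σ j, Equiv.optionCongr (τ j) b)) ↔ _
  rw [h]
  apply and_congr σ.injective.eq_iff
  cases b
  · simp
  · simp

end Coords

/-! ### The classes -/

/-- `C'` is the class of blown up structures of `C` -/
structure BlowCl (s : ℕ) (C : ∀ m, Interp S ar (Fin m) → Prop)
    (C' : ∀ n, Interp (Option S) (oar ar) (Fin n) → Prop) : Prop where
  h1 : ∀ (n : ℕ) (R : Interp (Option S) (oar ar) (Fin n)), C' n R →
    ∃ (m : ℕ) (e : Fin m × Option (Fin s) ≃ Fin n), GoodO e R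
  h2 : ∀ (n m : ℕ) (R : Interp (Option S) (oar ar) (Fin n))
    (e : Fin m × Option (Fin s) ≃ Fin n), C' n R → GoodO e R → C m (pullO e R) ∧
      R = buildO e (pullO e R)
  h3 : ∀ (n m : ℕ) (e : Fin m × Option (Fin s) ≃ Fin n) (Q : Interp S ar (Fin m)), C m Q →
    C' n (buildO e Q)

theorem blowCl_of {s : ℕ} {D : ∀ M : Type, Interp S ar M → Prop}
    (hD : ∀ (M N : Type) (g : M ≃ N) (R : Interp S ar M),
      D M R ↔ D N (fun s w => R s (g.symm ∘ w)))
    {C' : ∀ n, Interp (Option S) (oar ar) (Fin n) → Prop}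
    (hC : ∀ n (R : Interp (Option S) (oar ar) (Fin n)),
      C' n R ↔ Blk s (fO R) ∧ Supp R ∧ D {x // fO R x x} (innerO R)) :
    BlowCl s (fun m Q => D (Fin m) Q) C' := by
  have hin : ∀ {n m : ℕ} (e : Fin m × Option (Fin s) ≃ Fin n) (Q : Interp S ar (Fin m)),
      D _ (innerO (buildO e Q)) ↔ D (Fin m) Q := by
    intro n m e Q
    let g : Fin m ≃ {x // fO (buildO e Q) x x} := Equiv.ofBijective
      (fun i => ⟨e (i, none), (buildO_ff e Q _).2 ⟨i, rfl⟩⟩) ⟨fun i j h => congrArg Prod.fst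
        (e.injective (congrArg Subtype.val h)), fun x => by
          obtain ⟨i, hi⟩ := (buildO_ff e Q _).1 x.2
          exact ⟨i, Subtype.ext hi.symm⟩⟩
    have h2 : (fun s w => Q s (g.symm ∘ w)) = innerO (buildO e Q) := by
      funext b v
      apply propext
      have h3 : ∀ i, (v i).1 = e (g.symm (v i), none) := by
        intro i
        have h4 : g (g.symm (v i)) = v i := g.apply_symm_apply _
        exact (congrArg Subtype.val h4).symm
      constructor
      · intro h
        exact ⟨fun i => g.symm (v i), funext h3, h⟩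
      · rintro ⟨w, h4, h5⟩
        have h6 : w = g.symm ∘ v := by
          funext i
          have h7 := congrFun h4 i
          rw [h3 i] at h7
          exact (congrArg Prod.fst (e.injective h7)).symm
        rw [← h6]
        exact h5
    rw [← h2]
    exact (hD _ _ g Q).symm
  refine ⟨?_, ?_, ?_⟩
  · intro n R hR
    exact ((hC n R).1 hR).1.exists_good
  · intro n m R e hR he
    obtain ⟨h1, h2, h3⟩ := (hC n R).1 hR
    have h4 := he.eq_build h2
    refine ⟨?_, h4⟩
    rw [h4] at h3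
    exact (hin e (pullO e R)).1 h3
  · intro n m e Q h1
    exact (hC n _).2 ⟨buildO_blk e Q, buildO_supp e Q, (hin e Q).2 h1⟩

lemma card_eqv_le' (α β : Type) [Fintype α] [Fintype β] : Nat.card (α ≃ β) ≤
    (Fintype.card β).factorial := by
  classical
  rcases isEmpty_or_nonempty (α ≃ β) with h | ⟨⟨e⟩⟩
  · rw [Nat.card_of_isEmpty]
    exact Nat.zero_le _
  · rw [Nat.card_eq_fintype_card, Fintype.card_equiv e, Fintype.card_congr e]

/-- the number of blown up structures -/
theorem BlowCl.count {s : ℕ} {C : ∀ m, Interp S ar (Fin m) → Prop}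
    {C' : ∀ n, Interp (Option S) (oar ar) (Fin n) → Prop} (H : BlowCl s C C') [Finite S] {a K : ℕ}
    (hs : a * K ^ (s + 1) ≤ s.factorial) (ha : 1 ≤ a)
    (hc : ∀ m, Nat.card {Q : Interp S ar (Fin m) // C m Q} ≤ a ^ m * m.factorial) (n : ℕ) :
    Nat.card {R : Interp (Option S) (oar ar) (Fin n) // C' n R} * K ^ n ≤ n.factorial := by
  classical
  rcases isEmpty_or_nonempty {R : Interp (Option S) (oar ar) (Fin n) // C' n R} with hE | ⟨⟨R₀⟩⟩
  · rw [Nat.card_of_isEmpty, zero_mul]
    exact Nat.zero_le _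
  obtain ⟨h, e₀, _⟩ := H.h1 n R₀.1 R₀.2
  have hn : h * (s + 1) = n := by
    have h4 := Fintype.card_congr e₀
    simpa only [Fintype.card_prod, Fintype.card_option, Fintype.card_fin] using h4
  have h3 : ∀ R : {R : Interp (Option S) (oar ar) (Fin n) // C' n R},
      ∃ e : Fin h × Option (Fin s) ≃ Fin n, GoodO e R.1 := by
    intro R
    obtain ⟨m, e, he⟩ := H.h1 n R.1 R.2
    have h4 := Fintype.card_congr e
    simp only [Fintype.card_prod, Fintype.card_option, Fintype.card_fin] at h4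
    have h5 : m = h := Nat.eq_of_mul_eq_mul_right (Nat.succ_pos s) (h4.trans hn.symm)
    subst h5
    exact ⟨e, he⟩
  choose E hE using h3
  let F : {R : Interp (Option S) (oar ar) (Fin n) // C' n R} ×
      (Equiv.Perm (Fin h) × (Fin h → Equiv.Perm (Fin s))) →
      (Fin h × Option (Fin s) ≃ Fin n) × {Q : Interp S ar (Fin h) // C h Q} := fun p =>
    ((chg p.2.1 p.2.2).trans (E p.1), ⟨pullO ((chg p.2.1 p.2.2).trans (E p.1)) p.1.1,
        (H.h2 n h p.1.1 _ p.1.2 ((hE p.1).perm p.2.1 p.2.2)).1⟩)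
  have hF : Function.Injective F := by
    rintro ⟨R, σ, τ⟩ ⟨R', σ', τ'⟩ hp
    have e1 : (chg σ τ).trans (E R) = (chg σ' τ').trans (E R') := congrArg Prod.fst hp
    have e2 : pullO ((chg σ τ).trans (E R)) R.1 = pullO ((chg σ' τ').trans (E R')) R'.1 :=
      congrArg (fun p : (Fin h × Option (Fin s) ≃ Fin n) × {Q : Interp S ar (Fin h) // C h Q} =>
        p.2.1) hp
    have e3 := (H.h2 n h R.1 _ R.2 ((hE R).perm σ τ)).2
    have e4 := (H.h2 n h R'.1 _ R'.2 ((hE R').perm σ' τ')).2
    have e5 : R = R' := by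
      apply Subtype.ext
      rw [e3, e4, e2, e1]
    subst e5
    have e7 : ∀ i x, (σ i, Equiv.optionCongr (τ i) x) = (σ' i, Equiv.optionCongr (τ' i) x) := by
      intro i x
      have e8 := congrArg (fun f : Fin h × Option (Fin s) ≃ Fin n => f (i, x)) e1
      exact (E R).injective e8
    have e6 : σ = σ' := by
      ext i
      have := congrArg Prod.fst (e7 i none)
      exact congrArg Fin.val this
    have e9 : τ = τ' := by
      funext i
      apply Equiv.optionCongr_injective
      ext1 x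
      exact congrArg Prod.snd (e7 i x)
    rw [e6, e9]
  have h4 := Nat.card_le_card_of_injective F hF
  rw [Nat.card_prod, Nat.card_prod, Nat.card_prod] at h4
  have h5 : Nat.card (Equiv.Perm (Fin h)) = h.factorial := by
    rw [Nat.card_eq_fintype_card, Fintype.card_perm, Fintype.card_fin]
  have h5' : Nat.card (Fin h → Equiv.Perm (Fin s)) = s.factorial ^ h := by
    rw [Nat.card_eq_fintype_card, Fintype.card_fun, Fintype.card_perm, Fintype.card_fin,
      Fintype.card_fin]
  have h6 := card_eqv_le' (Fin h × Option (Fin s)) (Fin n)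
  rw [Fintype.card_fin] at h6
  rw [h5, h5'] at h4
  obtain ⟨N, hN⟩ : ∃ N, N = Nat.card {R : Interp (Option S) (oar ar) (Fin n) // C' n R} := ⟨_, rfl⟩
  rw [← hN] at h4 ⊢
  have h7 : h.factorial * (N * s.factorial ^ h) ≤ h.factorial * (n.factorial * a ^ h) := by
    calc h.factorial * (N * s.factorial ^ h) = N * (h.factorial * s.factorial ^ h) := by ring
      _ ≤ _ := h4
      _ ≤ n.factorial * (a ^ h * h.factorial) := Nat.mul_le_mul h6 (hc h)
      _ = _ := by ring
  have h8 := Nat.le_of_mul_le_mul_left h7 (Nat.factorial_pos h)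
  have h9 : a ^ h * (N * K ^ n) ≤ a ^ h * n.factorial := by
    calc a ^ h * (N * K ^ n) = N * (a * K ^ (s + 1)) ^ h := by
          rw [mul_pow, ← pow_mul, mul_comm (s + 1) h, hn]
          ring
      _ ≤ N * s.factorial ^ h := Nat.mul_le_mul_left _ (Nat.pow_le_pow_left hs h)
      _ ≤ n.factorial * a ^ h := h8
      _ = _ := mul_comm _ _
  exact Nat.le_of_mul_le_mul_left h9 (Nat.pow_pos (by omega))

/-- the sizes of the blown up structures -/
theorem BlowCl.sizes {s : ℕ} {C : ∀ m, Interp S ar (Fin m) → Prop}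
    {C' : ∀ n, Interp (Option S) (oar ar) (Fin n) → Prop} (H : BlowCl s C C') (m : ℕ) :
    (∃ R : Interp (Option S) (oar ar) (Fin (m * (s + 1))), C' _ R) ↔
      ∃ Q : Interp S ar (Fin m), C m Q := by
  constructor
  · rintro ⟨R, hR⟩
    obtain ⟨m', e, he⟩ := H.h1 _ R hR
    have h4 := Fintype.card_congr e
    simp only [Fintype.card_prod, Fintype.card_option, Fintype.card_fin] at h4
    have h5 : m' = m := Nat.eq_of_mul_eq_mul_right (Nat.succ_pos s) h4
    subst h5
    exact ⟨_, (H.h2 _ _ R e hR he).1⟩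
  · rintro ⟨Q, hQ⟩
    have e : Fin m × Option (Fin s) ≃ Fin (m * (s + 1)) :=
      Fintype.equivFinOfCardEq (by simp)
    exact ⟨_, H.h3 _ _ e Q hQ⟩

/-! ### First-order sentences -/

lemma exists_fac (a K : ℕ) : ∃ s : ℕ, a * K ^ (s + 1) ≤ s.factorial := by
  have h := FloorSemiring.tendsto_pow_div_factorial_atTop (K : ℝ)
  have hε : (0 : ℝ) < 1 / (a * K + 1) := by positivity
  obtain ⟨s, hs⟩ := (h.eventually (gt_mem_nhds hε)).exists
  refine ⟨s, ?_⟩
  rw [div_lt_div_iff₀ (by positivity) (by positivity)] at hs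
  have h1 : ((a * K ^ (s + 1) : ℕ) : ℝ) ≤ ((s.factorial : ℕ) : ℝ) := by
    push_cast
    have : (0 : ℝ) ≤ (K : ℝ) ^ s := by positivity
    calc (a : ℝ) * K ^ (s + 1) = K ^ s * (a * K) := by ring
      _ ≤ K ^ s * (a * K + 1) := mul_le_mul_of_nonneg_left (by linarith) this
      _ ≤ _ := by linarith
  exact_mod_cast h1

lemma fO_BFD : BFD (S := Option S) (ar := oar ar) (fun _ R => fO R) := by
  intro α e e' he he'
  obtain ⟨a, ha⟩ := he
  obtain ⟨b, hb⟩ := he'
  refine FD.rel (S := Option S) (ar := oar ar) none ⟨![a, b], fun M v => ?_⟩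
  beta_reduce
  rw [ha, hb]
  funext i
  revert i
  show ∀ i : Fin 2, _
  intro i
  fin_cases i <;> rfl

lemma blkG_FD {S' : Type} {ar' : S' → ℕ} {f : ∀ M : Type, Interp S' ar' M → M → M → Prop}
    (hf : BFD (S := S') (ar := ar') f) (s : ℕ) : FD S' ar' Empty (fun M R _ => Blk s (f M R)) := by
  have v0 : ∀ {α : Type}, El (α ⊕ Unit) (fun M v => v (Sum.inr ())) := El.inr
  have h1 : FD S' ar' Empty (fun M R _ => ∀ x y : M, f M R x y → f M R y y) :=
    FD.all1 (FD.all1 (FD.imp (hf _ _ _ v0.inl v0) (hf _ _ _ v0 v0)))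
  have h2 : FD S' ar' Empty (fun M R _ => ∀ x : M, ∃ y, f M R x y) :=
    FD.all1 (FD.ex1 (hf _ _ _ v0.inl v0))
  have h3 : FD S' ar' Empty (fun M R _ => ∀ x y y' : M, f M R x y → f M R x y' →
      y = y') :=
    FD.all1 (FD.all1 (FD.all1 (FD.imp (hf _ _ _ v0.inl.inl v0.inl) (FD.imp
      (hf _ _ _ v0.inl.inl v0) (FD.eq v0.inl v0)))))
  have h4 : FD S' ar' Empty (fun M R _ => ∀ y : M, f M R y y →
      ∃ x : Fin (s + 1) → M, (∀ i j, x i = x j → i = j) ∧ ∀ z, f M R z y ↔ ∃ i, z = x i) := by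
    refine FD.all1 (FD.imp (hf _ _ _ v0 v0) (FD.ex (FD.and (FD.all_fin (fun i =>
      FD.all_fin (fun j => FD.imp (FD.eq ?_ ?_) (FD.const _)))) (FD.all1 (FD.iff
      (hf _ _ _ v0 ?_) (FD.ex_fin (fun i => FD.eq ?_ ?_)))))))
    · exact El.var _
    · exact El.var _
    · exact El.var (Sum.inl (Sum.inl (Sum.inr ())))
    · exact El.var _
    · exact El.var _
  refine (FD.and h1 (FD.and h2 (FD.and h3 h4))).congr (fun M R v => ?_)
  constructor
  · rintro ⟨a1, a2, a3, a4⟩
    exact ⟨a1, a2, a3, a4⟩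
  · rintro ⟨a1, a2, a3, a4⟩
    exact ⟨a1, a2, a3, a4⟩

lemma blk_FD (s : ℕ) : FD (Option S) (oar ar) Empty (fun _ R _ => Blk s (fO R)) :=
  blkG_FD fO_BFD s

lemma suppO_FD [Finite S] : FD (Option S) (oar ar) Empty (fun _ R _ => Supp R) := by
  refine FD.all_fin (fun b => FD.all (FD.imp ?_ (FD.all_fin (fun i => fO_BFD _ _ _ ?_ ?_))))
  · exact FD.rel (S := Option S) (ar := oar ar) (some b) (f := fun M v => fun i => v (Sum.inr i))
      ⟨Sum.inr, fun _ _ => rfl⟩
  · exact El.var _
  · exact El.var _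

/-- the blown up sentence -/
theorem blow [Finite S] (χ : (RelLang S ar).Sentence) (s : ℕ) :
    ∃ χ' : (RelLang (Option S) (oar ar)).Sentence,
      BlowCl s (fun m (Q : Interp S ar (Fin m)) => IsMod χ Q) (fun n R => IsMod χ' R) := by
  have hP : FD S ar Empty (fun M R _ => IsMod χ R) :=
    ⟨χ, fun M R v => real_iff (mkS R) χ v default⟩
  have hrel := fd_relat hP (S' := Option S) (ar' := oar ar) (Z := fun V R x => fO R x x)
    (fO_BFD _ _ _ (El.var ()) (El.var ())) (ρ := fun b V R v => R (some b) v)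
    (fun b => FD.rel (S := Option S) (ar := oar ar) (some b) (f := fun M v => v)
      ⟨id, fun _ _ => rfl⟩)
  obtain ⟨χ', hχ'⟩ := FD.and (blk_FD s) (FD.and suppO_FD hrel)
  refine ⟨χ', blowCl_of (D := fun M R => IsMod χ R) ?_ ?_⟩
  · intro M N g R
    have h1 := hP.transport g R Empty.elim
    exact h1
  · intro n R
    have h1 := hχ' (Fin n) R Empty.elim
    beta_reduce at h1
    exact (real_iff (mkS R) χ' Empty.elim default).symm.trans h1

/-- the wild side with at most `n! / K ^ n` models -/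
theorem twins (K : ℕ) : ∃ χ : (RelLang (Option Bool) (oar ar2)).Sentence,
    (∀ n, count χ n * K ^ n ≤ n.factorial) ∧
    ∀ A : Set ℕ, IsSpectrum A → ∃ q : Polynomial ℕ,
      A = {n : ℕ | 1 ≤ n ∧ q.eval n ∈ Pool.Agent.Helper40.MC.spec χ} := by
  obtain ⟨χ, hc, hu⟩ := wildS
  obtain ⟨s, hs⟩ := exists_fac 4 K
  obtain ⟨χ', H⟩ := blow χ s
  refine ⟨χ', fun n => H.count hs (by omega) hc n, fun A hA => ?_⟩
  obtain ⟨q, hq⟩ := hu A hA
  refine ⟨q * Polynomial.C (s + 1), ?_⟩
  rw [hq]
  ext n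
  have hev : (q * Polynomial.C (s + 1)).eval n = q.eval n * (s + 1) := by simp
  show (1 ≤ n ∧ _) ↔ (1 ≤ n ∧ (q * Polynomial.C (s + 1)).eval n ∈ _)
  rw [hev]
  apply and_congr_right
  intro _
  show (1 ≤ q.eval n ∧ _) ↔ (1 ≤ q.eval n * (s + 1) ∧ _)
  rw [H.sizes]
  apply and_congr_left
  intro _
  constructor
  · intro h1
    exact Nat.mul_pos h1 (by omega)
  · intro h1
    exact Nat.pos_of_mul_pos_right h1

end Pool.Agent.Helper20.MC
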