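import Pool.Agent.Helper20.MC.TwinsM
import Pool.Agent.Helper40.MC.Growth

/-!
# Few models, universal spectrum: symbols of arities at most 2
-/

set_option autoImplicit false

namespace Pool.Agent.Helper20.MC

open FirstOrder FirstOrder.Language Pool.Agent.Helper20.Spectra Pool.Agent.Helper58.QD
open Pool.Agent.Helper14.SS Pool.Agent.Helper20.OP Filter Pool.Agent.Helper40.MCM

/-- spectra of first-order sentences in symbols of arities at most 2 with `N(n) K ^ n ≤ n!` for large `n` -/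
def BFacSpectrum (K : ℕ) (A : Set ℕ) : Prop :=
  ∃ (S : Type) (_ : Finite S) (ar : S → ℕ) (χ : (RelLang S ar).Sentence), (∀ s, ar s ≤ 2) ∧
    (∀ᶠ n : ℕ in Filter.atTop, count χ n * K ^ n ≤ n.factorial) ∧
      A = Pool.Agent.Helper40.MC.spec χ

theorem BFacSpectrum.fac {K : ℕ} {A : Set ℕ} (h : BFacSpectrum K A) : FacSpectrum K A := by
  obtain ⟨S, hS, ar, χ, -, h1, h2⟩ := h
  exact ⟨S, hS, ar, χ, h1, h2⟩

lemma oar2_le (s : Option Bool) : oar ar2 s ≤ 2 := by
  rcases s with _ | b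
  · exact le_rfl
  · cases b
    · show ar2 false ≤ 2
      decide
    · show ar2 true ≤ 2
      decide

/-- few models, universal spectrum, arities at most 2 -/
theorem stmtWildK2 : ∀ K : ℕ, ∃ (S : Type) (_ : Finite S) (ar : S → ℕ)
    (χ : (RelLang S ar).Sentence), (∀ s, ar s ≤ 2) ∧
    (∀ᶠ n : ℕ in atTop, count χ n * K ^ n ≤ n.factorial) ∧
    ∀ A : Set ℕ, IsSpectrum A →
      ∃ q : Polynomial ℕ, A = {n : ℕ | 1 ≤ n ∧ q.eval n ∈ Pool.Agent.Helper40.MC.spec χ} := by
  intro K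
  obtain ⟨χ, h1, h2⟩ := twins K
  exact ⟨Option Bool, inferInstance, oar ar2, χ, oar2_le, Filter.Eventually.of_forall h1, h2⟩

/-- the wild side with arities at most 2: a universal set, rudimentary sets -/
theorem wild_fac2 (K : ℕ) :
    (∃ U, BFacSpectrum K U ∧ ∀ A : Set ℕ, IsSpectrum A ↔
      ∃ q : Polynomial ℕ, A = {n : ℕ | 1 ≤ n ∧ q.eval n ∈ U}) ∧
    ((∀ A : Set ℕ, BFacSpectrum K A → IsRudimentary A) ↔
      ∀ A : Set ℕ, IsSpectrum A ↔ (IsRudimentary A ∧ 0 ∉ A)) := by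
  obtain ⟨S, hS, ar, χ, har, h1, h2⟩ := stmtWildK2 K
  have hU : BFacSpectrum K (Pool.Agent.Helper40.MC.spec χ) := ⟨S, hS, ar, χ, har, h1, rfl⟩
  refine ⟨⟨Pool.Agent.Helper40.MC.spec χ, hU, fun A => ⟨h2 A, ?_⟩⟩, fun h3 A => ⟨fun hA => ⟨?_, hA.zero_notMem⟩,
    fun ⟨h4, h5⟩ => h4.isSpectrum h5⟩, fun h3 A hA => ((h3 A).1 hA.fac.isSpectrum).1⟩
  · rintro ⟨q, rfl⟩
    exact preimage_isSpectrum hU.fac.isSpectrum q
  · obtain ⟨q, rfl⟩ := h2 A hA
    exact (h3 _ hU).preimage q

/-- spectra of monadic second-order sentences in symbols of arities at most 2 with `N(n) K ^ n ≤ n!` for large `n` -/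
def BMFacSpectrum (K : ℕ) (A : Set ℕ) : Prop :=
  ∃ (S : Type) (_ : Finite S) (ar : S → ℕ) (φ : SFm (RelLang S ar) 0 0), (∀ s, ar s ≤ 2) ∧
    (∀ᶠ n : ℕ in Filter.atTop, countM φ n * K ^ n ≤ n.factorial) ∧ A = specM φ

/-- (monadic second-order) few models, spectrum outside the hierarchy, arities at most 2 -/
theorem stmtWildMK2 : ∀ K : ℕ, ∃ (S : Type) (_ : Finite S) (ar : S → ℕ)
    (φ : SFm (RelLang S ar) 0 0), (∀ s, ar s ≤ 2) ∧ (∀ᶠ n : ℕ in atTop, countM φ n * K ^ n ≤ n.factorial) ∧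
    ¬ PolyHier (specM φ) := by
  intro K
  by_cases hS : ∀ A : Set ℕ, IsSpectrum A → PolyHier A
  · obtain ⟨φ₀, hφ₀⟩ := Pool.Agent.Helper29.PHW.diagId hS
    obtain ⟨φ, h1, h2⟩ := mso_code φ₀
    obtain ⟨s, hs⟩ := exists_fac 1 K
    obtain ⟨φ', H⟩ := blowM φ s
    have hG : ∀ {m : ℕ} (Q : Interp (Fin 2) arG (Fin m)), SatG φ (Fin m) Q ↔ HoldsM φ Q :=
      fun Q => (holdsM_iff φ Q).symm
    refine ⟨Fin 3, inferInstance, fun _ => 2, φ', fun _ => le_rfl, ?_, fun hp => hφ₀ ?_⟩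
    · refine Filter.Eventually.of_forall (fun n => ?_)
      have h3 := H.count hs le_rfl (fun m => by
        rw [one_pow, one_mul]
        refine le_trans (le_of_eq ?_) (h1 m)
        exact Nat.card_congr (Equiv.subtypeEquivRight fun Q => hG Q)) n
      have h4 : countM φ' n = Nat.card {R : Interp (Option (Fin 2)) (oar arG) (Fin n) //
          HoldsM φ' (cv R)} := by
        refine Nat.card_congr ?_
        exact
          { toFun := fun T => ⟨cvI T.1, by
              rw [cv_cvI]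
              exact (satM_iff φ' T.1).1 T.2⟩
            invFun := fun R => ⟨cv R.1, (satM_iff φ' _).2 R.2⟩
            left_inv := fun T => Subtype.ext (cv_cvI T.1)
            right_inv := fun R => Subtype.ext (cvI_cv R.1) }
      rw [h4]
      exact h3
    · have h3 := Pool.Agent.Helper29.PHW.phPre _
        (Polynomial.X * Polynomial.X * Polynomial.C (s + 1)) hp
      refine Pool.Agent.Helper29.PHW.phFin h3 1 (fun n hn => ?_)
      rw [← h2 n hn]
      have e : (Polynomial.X * Polynomial.X * Polynomial.C (s + 1) : Polynomial ℕ).eval n =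
          n * n * (s + 1) := by simp
      refine Iff.symm ?_
      show (∃ R : Interp (Fin 2) arG (Fin (n * n)), HoldsM φ R) ↔
        (1 ≤ (Polynomial.X * Polynomial.X * Polynomial.C (s + 1) : Polynomial ℕ).eval n ∧ _)
      rw [e]
      have h5 := H.sizes (n * n)
      constructor
      · rintro ⟨Q, hQ⟩
        obtain ⟨R, hR⟩ := h5.2 ⟨Q, (hG Q).2 hQ⟩
        exact ⟨Nat.mul_pos (Nat.mul_pos hn hn) (by omega), cv R, (satM_iff φ' _).2 hR⟩
      · rintro ⟨_, T, hT⟩
        obtain ⟨Q, hQ⟩ := h5.1 ⟨cvI T, by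
          rw [cv_cvI]
          exact (satM_iff φ' T).1 hT⟩
        exact ⟨Q, (hG Q).1 hQ⟩
  · push Not at hS
    obtain ⟨A, hA, hnA⟩ := hS
    obtain ⟨χ, h1, h2⟩ := twins K
    obtain ⟨q, hq⟩ := h2 A hA
    have key : ∀ {n : ℕ} (R : Interp (Option Bool) (oar ar2) (Fin n)),
        SatM (.fo (χ.relabel (Empty.elim : Empty → Fin 0))) R ↔ IsMod χ R := by
      intro n R
      let _ := mkS R
      show (χ.relabel (Empty.elim : Empty → Fin 0)).Realize (Fin.elim0 : Fin 0 → Fin n) ↔ _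
      rw [Formula.realize_relabel]
      exact real_iff (mkS R) χ _ default
    refine ⟨Option Bool, inferInstance, oar ar2, .fo (χ.relabel (Empty.elim : Empty → Fin 0)),
      oar2_le, ?_, fun hp => hnA ?_⟩
    · refine Filter.Eventually.of_forall (fun n => le_trans (le_of_eq ?_) (h1 n))
      congr 1
      exact Nat.card_congr (Equiv.subtypeEquivRight fun R => key R)
    · have h3 := Pool.Agent.Helper29.PHW.phPre _ q hp
      refine Pool.Agent.Helper29.PHW.phFin h3 1 (fun n hn => ?_)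
      have h4 : n ∈ A ↔ q.eval n ∈ Pool.Agent.Helper40.MC.spec χ := by
        constructor
        · intro h
          rw [hq] at h
          exact h.2
        · intro h
          rw [hq]
          exact ⟨hn, h⟩
      rw [h4]
      refine and_congr Iff.rfl (exists_congr fun R => key R)

theorem wild_facM2 (K : ℕ) : ∃ A, BMFacSpectrum K A ∧ ¬ PolyHier A := by
  obtain ⟨S, hS, ar, φ, har, h1, h2⟩ := stmtWildMK2 K
  exact ⟨specM φ, ⟨S, hS, ar, φ, har, h1, rfl⟩, h2⟩

end Pool.Agent.Helper20.MC
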