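import Pool.Agent.Helper20.MC.Twins
import Pool.Agent.Helper20.MC.One2

/-!
# Blowing up points: monadic second-order sentences with at most `n! / K ^ n` labelled models
-/

set_option autoImplicit false

namespace Pool.Agent.Helper20.MC

open FirstOrder FirstOrder.Language Pool.Agent.Helper20.Spectra Pool.Agent.Helper58.QD
open Pool.Agent.Helper14.SS Pool.Agent.Helper20.OP Pool.Agent.Helper20.EX2 Filter
open Pool.Agent.Helper40.MCM (SatM countM specM)

lemma mdef_of_FD {b : ℕ} {P : ∀ M : Type, Interp (Fin b) (fun _ => 2) M → (Empty → M) → Prop}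
    (h : FD (Fin b) (fun _ => 2) Empty P) :
    MDef b 0 0 (fun V R _ _ => P V (fun r v => R r (v 0) (v 1)) Empty.elim) := by
  obtain ⟨ψ, hψ⟩ := h
  refine ⟨.fo (ψ.relabel (Empty.elim : Empty → Fin 0)), fun V R v T => ?_⟩
  beta_reduce
  rw [← hψ]
  let _ := toStr R
  show (ψ.relabel (Empty.elim : Empty → Fin 0)).Realize v ↔ _
  rw [Formula.realize_relabel]
  have e : v ∘ (Empty.elim : Empty → Fin 0) = Empty.elim := Subsingleton.elim _ _
  rw [e]

/-- the symbols as three binary relations -/
def cv {M : Type} (R : Interp (Option (Fin 2)) (oar arG) M) : Interp (Fin 3) (fun _ => 2) M :=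
  fun r v => Fin.cases (motive := fun _ => Prop) (R none v) (fun i => R (some i) v) r

/-- the inverse -/
def cvI {M : Type} (T : Interp (Fin 3) (fun _ => 2) M) : Interp (Option (Fin 2)) (oar arG) M :=
  fun t => match t with
    | none => fun v => T 0 v
    | some i => fun v => T i.succ v

lemma cvI_cv {M : Type} (R : Interp (Option (Fin 2)) (oar arG) M) : cvI (cv R) = R := by
  funext t v
  rcases t with _ | i
  · rfl
  · rfl

lemma cv_cvI {M : Type} (T : Interp (Fin 3) (fun _ => 2) M) : cv (cvI T) = T := by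
  funext r v
  refine Fin.cases ?_ (fun i => ?_) r
  · rfl
  · rfl

/-- the inner relations are relations on the values of the function -/
def SuppM {M : Type} (R : Str 3 M) : Prop :=
  ∀ i : Fin 2, ∀ x y, R i.succ x y → R 0 x x ∧ R 0 y y

/-- satisfaction with all sets -/
def SatG (φ : SFm (RelLang (Fin 2) arG) 0 0) (M : Type) (R : Interp (Fin 2) arG M) : Prop :=
  @Sat (RelLang (Fin 2) arG) M (mkS R) 0 0 φ Fin.elim0 Fin.elim0

lemma satG_iso (φ : SFm (RelLang (Fin 2) arG) 0 0) (M N : Type) (g : M ≃ N)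
    (R : Interp (Fin 2) arG M) : SatG φ M R ↔ SatG φ N (fun s w => R s (g.symm ∘ w)) := by
  have h := Sat.iso g R (fun s w => R s (g.symm ∘ w)) (fun s v => by
    have e : (g.symm ∘ fun i => g (v i)) = v := by
      funext i
      simp
    rw [e]) φ Fin.elim0 Fin.elim0
  have e1 : (fun i : Fin 0 => g ((Fin.elim0 : Fin 0 → M) i)) = Fin.elim0 :=
    funext fun i => i.elim0
  have e2 : (fun j : Fin 0 => g '' ((Fin.elim0 : Fin 0 → Set M) j)) = Fin.elim0 :=
    funext fun i => i.elim0
  rw [e1, e2] at h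
  exact h

/-- the property of the blown up structures -/
def BlowM (φ : SFm (RelLang (Fin 2) arG) 0 0) (s : ℕ) (V : Type) (R : Str 3 V) : Prop :=
  (Blk s (R 0) ∧ SuppM R) ∧
    SatG φ {x // R 0 x x} (fun i v => R i.succ (v (0 : Fin 2)).1 (v (1 : Fin 2)).1)

lemma md_blow (φ : SFm (RelLang (Fin 2) arG) 0 0) (s : ℕ) :
    MDef 3 0 0 (fun V R _ _ => BlowM φ s V R) := by
  have hr : ∀ i : Fin 3, BFD (S := Fin 3) (ar := fun _ => 2)
      (fun _ R x y => R i (fun j => if j = 0 then x else y)) := by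
    intro i α e e' he he'
    obtain ⟨a, ha⟩ := he
    obtain ⟨b, hb⟩ := he'
    refine FD.rel (S := Fin 3) (ar := fun _ => 2) i ⟨fun j => if j = 0 then a else b,
      fun M v => ?_⟩
    beta_reduce
    rw [ha, hb]
    funext j
    show _ = v (if j = 0 then a else b)
    split_ifs <;> rfl
  have v0 : ∀ {α : Type}, El (α ⊕ Unit) (fun M v => v (Sum.inr ())) := El.inr
  have h1 := blkG_FD (hr 0) s
  have h2 : FD (Fin 3) (fun _ => 2) Empty (fun M R _ => ∀ i : Fin 2, ∀ x y : M,
      R i.succ (fun j => if j = 0 then x else y) →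
      R 0 (fun j => if j = 0 then x else x) ∧ R 0 (fun j => if j = 0 then y else y)) :=
    FD.all_fin (fun i => FD.all1 (FD.all1 (FD.imp (hr i.succ _ _ _ v0.inl v0)
      (FD.and (hr 0 _ _ _ v0.inl v0.inl) (hr 0 _ _ _ v0 v0)))))
  have h3 := mdef_of_FD (FD.and h1 h2)
  have h4 := mdef_relat (ar := arG) (b := 3) (Z := fun V R x => R 0 x x)
    (MDef.rel 0 0 0) (ρ := fun i V R v => R i.succ (v (0 : Fin 2)) (v (1 : Fin 2)))
    (fun i => MDef.rel i.succ 0 1) φ
  refine (h3.and h4).congr (fun V R v T => ?_)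
  apply and_congr
  · exact Iff.rfl
  · constructor
    · intro H h
      have e1 : (fun i => (⟨v i, h i⟩ : {x // R 0 x x})) = Fin.elim0 := funext fun i => i.elim0
      have e2 : (fun j => ({x | x.1 ∈ T j} : Set {x // R 0 x x})) = Fin.elim0 :=
        funext fun i => i.elim0
      rw [e1, e2]
      exact H
    · intro H
      have h : ∀ i : Fin 0, R 0 (v i) (v i) := fun i => i.elim0
      have H1 := H h
      have e1 : (fun i => (⟨v i, h i⟩ : {x // R 0 x x})) = Fin.elim0 := funext fun i => i.elim0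
      have e2 : (fun j => ({x | x.1 ∈ T j} : Set {x // R 0 x x})) = Fin.elim0 :=
        funext fun i => i.elim0
      rw [e1, e2] at H1
      exact H1

/-- the blown up monadic second-order sentence -/
theorem blowM (φ : SFm (RelLang (Fin 2) arG) 0 0) (s : ℕ) :
    ∃ φ' : SFm (RelLang (Fin 3) (fun _ => 2)) 0 0,
      BlowCl s (fun m (Q : Interp (Fin 2) arG (Fin m)) => SatG φ (Fin m) Q)
        (fun n (R : Interp (Option (Fin 2)) (oar arG) (Fin n)) => HoldsM φ' (cv R)) := by
  obtain ⟨φ', hφ'⟩ := md_blow φ s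
  refine ⟨φ', blowCl_of (D := fun M R => SatG φ M R) (satG_iso φ) ?_⟩
  intro n R
  have h1 := hφ' (Fin n) (fun r x y => cv R r ![x, y]) Fin.elim0 Fin.elim0
  beta_reduce at h1
  rw [holdsM_iff]
  have e : (mkS (cv R) : (binLang 3).Structure (Fin n)) =
      toStr (fun r x y => cv R r ![x, y]) := by
    have e1 : cv R = fun r v => cv R r ![v 0, v 1] := by
      funext r v
      have hv : v = ![v 0, v 1] := by
        funext i
        fin_cases i <;> rfl
      exact congrArg (cv R r) hv
    exact congrArg mkS e1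
  have h2 : @Sat (RelLang (Fin 3) (fun _ => 2)) (Fin n) (mkS (cv R)) 0 0 φ' Fin.elim0 Fin.elim0 ↔
      BlowM φ s (Fin n) (fun r x y => cv R r ![x, y]) := by
    rw [← h1]
    exact Iff.of_eq (congrArg (fun T => @Sat (binLang 3) (Fin n) T 0 0 φ' Fin.elim0 Fin.elim0) e)
  rw [h2]
  constructor
  · rintro ⟨⟨h3, h4⟩, h5⟩
    refine ⟨h3, ?_, ?_⟩
    · intro i v hv
      have e2 : v = ![v (0 : Fin 2), v (1 : Fin 2)] := by
        funext j
        revert j
        show ∀ j : Fin 2, _
        intro j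
        fin_cases j <;> rfl
      have h6 := h4 i (v (0 : Fin 2)) (v (1 : Fin 2)) (Eq.mp (congrArg (R (some i)) e2) hv)
      show ∀ j : Fin 2, _
      intro j
      fin_cases j
      · exact h6.1
      · exact h6.2
    · have e3 : innerO R = fun i (v : Fin 2 → {x // fO R x x}) =>
          cv R i.succ ![(v (0 : Fin 2)).1, (v (1 : Fin 2)).1] := by
        funext i v
        have e4 : (fun j => (v j).1) = ![(v (0 : Fin 2)).1, (v (1 : Fin 2)).1] := by
          funext j
          fin_cases j <;> rfl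
        exact congrArg (R (some i)) e4
      rw [e3]
      exact h5
  · rintro ⟨h3, h4, h5⟩
    refine ⟨⟨h3, ?_⟩, ?_⟩
    · intro i x y hxy
      have h6 := h4 i ![x, y] hxy
      exact ⟨h6 (0 : Fin 2), h6 (1 : Fin 2)⟩
    · have e3 : innerO R = fun i (v : Fin 2 → {x // fO R x x}) =>
          cv R i.succ ![(v (0 : Fin 2)).1, (v (1 : Fin 2)).1] := by
        funext i v
        have e4 : (fun j => (v j).1) = ![(v (0 : Fin 2)).1, (v (1 : Fin 2)).1] := by
          funext j
          fin_cases j <;> rfl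
        exact congrArg (R (some i)) e4
      rw [e3] at h5
      exact h5

/-- (first-order) few models, universal spectrum -/
theorem stmtWildK : ∀ K : ℕ, ∃ (S : Type) (_ : Finite S) (ar : S → ℕ)
    (χ : (RelLang S ar).Sentence), (∀ᶠ n : ℕ in atTop, count χ n * K ^ n ≤ n.factorial) ∧
    ∀ A : Set ℕ, IsSpectrum A →
      ∃ q : Polynomial ℕ, A = {n : ℕ | 1 ≤ n ∧ q.eval n ∈ Pool.Agent.Helper40.MC.spec χ} := by
  intro K
  obtain ⟨χ, h1, h2⟩ := twins K
  exact ⟨Option Bool, inferInstance, oar ar2, χ, Filter.Eventually.of_forall h1, h2⟩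

/-- (monadic second-order) few models, spectrum outside the hierarchy -/
theorem stmtWildMK : ∀ K : ℕ, ∃ (S : Type) (_ : Finite S) (ar : S → ℕ)
    (φ : SFm (RelLang S ar) 0 0), (∀ᶠ n : ℕ in atTop, countM φ n * K ^ n ≤ n.factorial) ∧
    ¬ PolyHier (specM φ) := by
  intro K
  by_cases hS : ∀ A : Set ℕ, IsSpectrum A → PolyHier A
  · obtain ⟨φ₀, hφ₀⟩ := Pool.Agent.Helper29.PHW.diagId hS
    obtain ⟨φ, h1, h2⟩ := mso_code φ₀
    obtain ⟨s, hs⟩ := exists_fac 1 K
    obtain ⟨φ', H⟩ := blowM φ s
    have hG : ∀ {m : ℕ} (Q : Interp (Fin 2) arG (Fin m)), SatG φ (Fin m) Q ↔ HoldsM φ Q :=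
      fun Q => (holdsM_iff φ Q).symm
    refine ⟨Fin 3, inferInstance, fun _ => 2, φ', ?_, fun hp => hφ₀ ?_⟩
    · refine Filter.Eventually.of_forall (fun n => ?_)
      have h3 := H.count hs le_rfl (fun m => by
        rw [one_pow, one_mul]
        refine le_trans (le_of_eq ?_) (h1 m)
        exact Nat.card_congr (Equiv.subtypeEquivRight fun Q => hG Q)) n
      have h4 : countM φ' n = Nat.card {R : Interp (Option (Fin 2)) (oar arG) (Fin n) //
          HoldsM φ' (cv R)} := by
        refine Nat.card_congr ?_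
        exact
          { toFun := fun T => ⟨cvI T.1, by
              rw [cv_cvI]
              exact (satM_iff φ' T.1).1 T.2⟩
            invFun := fun R => ⟨cv R.1, (satM_iff φ' _).2 R.2⟩
            left_inv := fun T => Subtype.ext (cv_cvI T.1)
            right_inv := fun R => Subtype.ext (cvI_cv R.1) }
      rw [h4]
      exact h3
    · have h3 := Pool.Agent.Helper29.PHW.phPre _
        (Polynomial.X * Polynomial.X * Polynomial.C (s + 1)) hp
      refine Pool.Agent.Helper29.PHW.phFin h3 1 (fun n hn => ?_)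
      rw [← h2 n hn]
      have e : (Polynomial.X * Polynomial.X * Polynomial.C (s + 1) : Polynomial ℕ).eval n =
          n * n * (s + 1) := by simp
      refine Iff.symm ?_
      show (∃ R : Interp (Fin 2) arG (Fin (n * n)), HoldsM φ R) ↔
        (1 ≤ (Polynomial.X * Polynomial.X * Polynomial.C (s + 1) : Polynomial ℕ).eval n ∧ _)
      rw [e]
      have h5 := H.sizes (n * n)
      constructor
      · rintro ⟨Q, hQ⟩
        obtain ⟨R, hR⟩ := h5.2 ⟨Q, (hG Q).2 hQ⟩
        exact ⟨Nat.mul_pos (Nat.mul_pos hn hn) (by omega), cv R, (satM_iff φ' _).2 hR⟩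
      · rintro ⟨_, T, hT⟩
        obtain ⟨Q, hQ⟩ := h5.1 ⟨cvI T, by
          rw [cv_cvI]
          exact (satM_iff φ' T).1 hT⟩
        exact ⟨Q, (hG Q).1 hQ⟩
  · push Not at hS
    obtain ⟨A, hA, hnA⟩ := hS
    obtain ⟨χ, h1, h2⟩ := twins K
    obtain ⟨q, hq⟩ := h2 A hA
    have key : ∀ {n : ℕ} (R : Interp (Option Bool) (oar ar2) (Fin n)),
        SatM (.fo (χ.relabel (Empty.elim : Empty → Fin 0))) R ↔ IsMod χ R := by
      intro n R
      let _ := mkS R
      show (χ.relabel (Empty.elim : Empty → Fin 0)).Realize (Fin.elim0 : Fin 0 → Fin n) ↔ _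
      rw [Formula.realize_relabel]
      exact real_iff (mkS R) χ _ default
    refine ⟨Option Bool, inferInstance, oar ar2, .fo (χ.relabel (Empty.elim : Empty → Fin 0)), ?_,
      fun hp => hnA ?_⟩
    · refine Filter.Eventually.of_forall (fun n => le_trans (le_of_eq ?_) (h1 n))
      congr 1
      exact Nat.card_congr (Equiv.subtypeEquivRight fun R => key R)
    · have h3 := Pool.Agent.Helper29.PHW.phPre _ q hp
      refine Pool.Agent.Helper29.PHW.phFin h3 1 (fun n hn => ?_)
      have h4 : n ∈ A ↔ q.eval n ∈ Pool.Agent.Helper40.MC.spec χ := by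
        constructor
        · intro h
          rw [hq] at h
          exact h.2
        · intro h
          rw [hq]
          exact ⟨hn, h⟩
      rw [h4]
      refine and_congr Iff.rfl (exists_congr fun R => key R)

end Pool.Agent.Helper20.MC
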