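import Pool.Agent.Helper20.MC.Conv2
import Pool.Agent.Helper40.MC.Tame
import Pool.Agent.Helper38.MC.ADefs

/-!
# All growth types occur
-/

set_option autoImplicit false

namespace Pool.Agent.Helper20.MC

open FirstOrder FirstOrder.Language Pool.Agent.Helper20.Spectra Pool.Agent.Helper58.QD
open Pool.Agent.Helper40.MC Filter
open Pool.Agent.Helper31.QD (Au)
open Pool.Agent.Helper38.MC (AuG)

lemma au_leB {n : ℕ} {R : Interp Bool ar2 (Fin n)} {g : Equiv.Perm (Fin n)} (hg : Au R g) (x y : Fin n) :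
    leB R (g x) (g y) ↔ leB R x y := by
  have h := hg true ![x, y]
  have e : (g ∘ (![x, y] : Fin 2 → Fin n)) = ![g x, g y] := by
    funext i
    fin_cases i <;> rfl
  exact (Iff.of_eq (congrArg (R true) e)).symm.trans h

/-- the second coordinate -/
def sec {r l t : ℕ} (ht : 1 ≤ t) (a : Fin r ⊕ (Fin l × Fin t)) : Fin t :=
  Sum.elim (fun _ => ⟨0, ht⟩) (fun p => p.2) a

/-- the number of automorphisms -/
lemma aut_unif {n r l t : ℕ} (ht : 1 ≤ t) {R : Interp Bool ar2 (Fin n)}
    {e : Fin r ⊕ (Fin l × Fin t) ≃ Fin n} (he : Coord (leB R) (inB R) e) :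
    Nat.card (AuG R) ≤ n ^ r * (n ^ l * t ^ (l * t)) := by
  let F : AuG R → (Fin r → Fin n) × ((Fin l → Fin n) × (Fin l × Fin t → Fin t)) := fun g =>
    (fun x => g.1 (e (Sum.inl x)), fun i => g.1 (e (Sum.inr (i, ⟨0, ht⟩))),
      fun p => sec ht (e.symm (g.1 (e (Sum.inr p)))))
  have hF : Function.Injective F := by
    rintro ⟨g, hg⟩ ⟨g', hg'⟩ h
    have h1 : ∀ x, g (e (Sum.inl x)) = g' (e (Sum.inl x)) := fun x => congrFun (congrArg Prod.fst h) x
    have h2 : ∀ i, g (e (Sum.inr (i, ⟨0, ht⟩))) = g' (e (Sum.inr (i, ⟨0, ht⟩))) := fun i =>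
      congrFun (congrArg (fun q => q.2.1) h) i
    have h3 : ∀ p, sec ht (e.symm (g (e (Sum.inr p)))) = sec ht (e.symm (g' (e (Sum.inr p)))) := fun p =>
      congrFun (congrArg (fun q => q.2.2) h) p
    apply Subtype.ext
    apply Equiv.ext
    intro y
    obtain ⟨a, rfl⟩ := e.surjective y
    rcases a with x | ⟨i, c⟩
    · exact h1 x
    · have key : ∀ g : Equiv.Perm (Fin n), Au R g → ∃ m d d', e.symm (g (e (Sum.inr (i, ⟨0, ht⟩)))) = Sum.inr (m, d) ∧
          e.symm (g (e (Sum.inr (i, c)))) = Sum.inr (m, d') := by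
        intro g hg
        have h4 : leB R (e (Sum.inr (i, ⟨0, ht⟩))) (e (Sum.inr (i, c))) :=
          (he.2 _ _).2 ⟨i, ⟨0, ht⟩, c, rfl, rfl⟩
        have h5 := (au_leB hg _ _).2 h4
        have h6 := he.2 (e.symm (g (e (Sum.inr (i, ⟨0, ht⟩))))) (e.symm (g (e (Sum.inr (i, c)))))
        rw [Equiv.apply_symm_apply, Equiv.apply_symm_apply] at h6
        exact h6.1 h5
      obtain ⟨m, d, d', h4, h5⟩ := key g hg
      obtain ⟨m', b, b', h6, h7⟩ := key g' hg'
      have h8 := h3 (i, c)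
      rw [h5, h7] at h8
      rw [← h2 i, h4] at h6
      simp only [Sum.inr.injEq, Prod.mk.injEq] at h6
      have h9 : d' = b' := h8
      apply e.symm.injective
      show e.symm (g (e (Sum.inr (i, c)))) = e.symm (g' (e (Sum.inr (i, c))))
      rw [h5, h7, h6.1, h9]
  have h1 := Nat.card_le_card_of_injective F hF
  refine h1.trans (le_of_eq ?_)
  rw [Nat.card_prod, Nat.card_prod, Nat.card_eq_fintype_card, Nat.card_eq_fintype_card,
    Nat.card_eq_fintype_card, Fintype.card_fun, Fintype.card_fun, Fintype.card_fun, Fintype.card_prod,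
    Fintype.card_fin, Fintype.card_fin, Fintype.card_fin, Fintype.card_fin]

lemma pow_le_fac (n : ℕ) : n ^ n ≤ 4 ^ n * n.factorial := by
  have h1 := Real.pow_div_factorial_le_exp (n : ℝ) (Nat.cast_nonneg n) n
  have h2 : Real.exp (n : ℝ) ≤ 4 ^ n := by
    have h3 : Real.exp (n : ℝ) = Real.exp 1 ^ n := by
      rw [← Real.exp_nat_mul, mul_one]
    rw [h3]
    refine pow_le_pow_left₀ (Real.exp_pos 1).le ?_ n
    have := Real.exp_one_lt_d9
    linarith
  have h4 : (0 : ℝ) < n.factorial := by exact_mod_cast n.factorial_pos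
  have h5 : (n : ℝ) ^ n ≤ 4 ^ n * n.factorial := by
    have := (div_le_iff₀ h4).1 (h1.trans h2)
    exact this
  exact_mod_cast h5

/-- all growth types occur -/
theorem realize (k : ℕ) (B : ℕ → Set ℕ) (j : ℕ → ℕ) (hk : 1 ≤ k)
    (hj : ∀ n, IsGreatest {t | 1 ≤ t ∧ t ≤ k ∧ n % t ∈ B t} (j n)) :
    ∃ (S : Type) (_ : Finite S) (ar : S → ℕ) (χ : (RelLang S ar).Sentence), (∀ s, ar s ≤ 2) ∧
      ∃ C : ℕ, ∀ᶠ n : ℕ in Filter.atTop, count χ n ^ j n ≤ C ^ n * n ^ ((j n - 1) * n) ∧
        n ^ ((j n - 1) * n) ≤ C ^ n * count χ n ^ j n := by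
  classical
  let T : Finset (ℕ × ℕ) := ((Finset.range (k + 1)) ×ˢ (Finset.range (k + 1))).filter
    (fun p => 1 ≤ p.1 ∧ p.2 < p.1 ∧ p.2 ∈ B p.1)
  have hT : ∀ p, p ∈ T ↔ 1 ≤ p.1 ∧ p.1 ≤ k ∧ p.2 < p.1 ∧ p.2 ∈ B p.1 := by
    intro p
    rw [Finset.mem_filter, Finset.mem_product, Finset.mem_range, Finset.mem_range]
    constructor
    · rintro ⟨⟨h1, h2⟩, h3, h4, h5⟩
      exact ⟨h3, by omega, h4, h5⟩
    · rintro ⟨h1, h2, h3, h4⟩
      exact ⟨⟨by omega, by omega⟩, h1, h3, h4⟩
  have hTc : T.card ≤ (k + 1) * (k + 1) := by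
    refine (Finset.card_filter_le _ _).trans ?_
    simp
  obtain ⟨χ, hχ⟩ := FD.ex_fin (S := Bool) (ar := ar2) (α := Empty) (γ := {p // p ∈ T})
    (fun p => unif_FD p.1.1 p.1.2)
  have hM : ∀ {n : ℕ} (R : Interp Bool ar2 (Fin n)), IsMod χ R ↔
      ∃ p ∈ T, Unif p.1 p.2 (leB R) (inB R) := by
    intro n R
    have h1 := hχ (Fin n) R Empty.elim
    beta_reduce at h1
    have h2 : IsMod χ R ↔ @Formula.Realize (RelLang Bool ar2) (Fin n) (mkS R) Empty χ
        (Empty.elim : Empty → Fin n) := (real_iff (mkS R) χ Empty.elim default).symm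
    rw [h2, h1]
    constructor
    · rintro ⟨p, hp⟩
      exact ⟨p.1, p.2, hp⟩
    · rintro ⟨p, hp, h3⟩
      exact ⟨⟨p, hp⟩, h3⟩
  refine ⟨Bool, inferInstance, ar2, χ, ar2_le, (4 * k) ^ k * 2, ?_⟩
  have hle : ∀ n, count χ n ≤
      ∑ p ∈ T, Nat.card {R : Interp Bool ar2 (Fin n) // Unif p.1 p.2 (leB R) (inB R)} := by
    intro n
    have h1 : ∀ R : {R : Interp Bool ar2 (Fin n) // IsMod χ R},
        ∃ p : {p // p ∈ T}, Unif p.1.1 p.1.2 (leB R.1) (inB R.1) := by
      intro R
      obtain ⟨p, hp, h2⟩ := (hM R.1).1 R.2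
      exact ⟨⟨p, hp⟩, h2⟩
    choose f hf using h1
    have h2 := Nat.card_le_card_of_injective
      (fun R : {R : Interp Bool ar2 (Fin n) // IsMod χ R} => (⟨f R, ⟨R.1, hf R⟩⟩ :
        Σ p : {p // p ∈ T}, {R : Interp Bool ar2 (Fin n) // Unif p.1.1 p.1.2 (leB R) (inB R)}))
      (fun R R' h => by
        apply Subtype.ext
        have h3 := congrArg (fun u : (Σ p : {p // p ∈ T},
          {R : Interp Bool ar2 (Fin n) // Unif p.1.1 p.1.2 (leB R) (inB R)}) => u.2.1) h
        exact h3)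
    rw [Nat.card_sigma] at h2
    refine h2.trans (le_of_eq ?_)
    exact Finset.sum_coe_sort T (fun p => Nat.card {R : Interp Bool ar2 (Fin n) //
      Unif p.1 p.2 (leB R) (inB R)})
  filter_upwards [eventually_ge_atTop 2, ev_exp (((k + 1) * (k + 1)) ^ k) k, ev_exp 1 (k * k)]
    with n hn2 hexp hexp2
  obtain ⟨⟨hj1, hjk, hjB⟩, hjmax⟩ := hj n
  constructor
  · -- few models
    have hX : ∀ p ∈ T, Nat.card {R : Interp Bool ar2 (Fin n) // Unif p.1 p.2 (leB R) (inB R)} ^ j n ≤
        n ^ ((j n - 1) * n + k) := by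
      intro p hp
      obtain ⟨hp1, hp2, hp3, hp4⟩ := (hT p).1 hp
      by_cases hex : ∃ l, n = p.2 + l * p.1
      · obtain ⟨l, hl⟩ := hex
        have h3 := card_unif hp1 hl
        have hln : l ≤ n := by
          have : l * 1 ≤ l * p.1 := Nat.mul_le_mul_left _ hp1
          omega
        have h4 : Nat.card {R : Interp Bool ar2 (Fin n) // Unif p.1 p.2 (leB R) (inB R)} ≤ n ^ (n - l) := by
          have h5 : 0 < l.factorial := l.factorial_pos
          have h6 : 1 ≤ p.1.factorial ^ l := Nat.one_le_pow _ _ (Nat.factorial_pos _)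
          have h7 : l.factorial * Nat.card {R : Interp Bool ar2 (Fin n) // Unif p.1 p.2 (leB R) (inB R)} ≤
              l.factorial * n ^ (n - l) := by
            refine le_trans ?_ (h3.trans (fac_le hln))
            calc _ = Nat.card {R : Interp Bool ar2 (Fin n) // Unif p.1 p.2 (leB R) (inB R)} *
                  (l.factorial * 1) := by ring
              _ ≤ _ := Nat.mul_le_mul_left _ (Nat.mul_le_mul_left _ h6)
          exact Nat.le_of_mul_le_mul_left h7 h5
        have hpj : p.1 ≤ j n := by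
          apply hjmax
          refine ⟨hp1, hp2, ?_⟩
          rw [hl, Nat.add_mul_mod_self_right, Nat.mod_eq_of_lt hp3]
          exact hp4
        calc _ ≤ (n ^ (n - l)) ^ j n := Nat.pow_le_pow_left h4 _
          _ = n ^ ((n - l) * j n) := by rw [← pow_mul]
          _ ≤ n ^ ((j n - 1) * n + k) := by
            apply Nat.pow_le_pow_right (by omega)
            have h8 : l * p.1 ≤ l * j n := Nat.mul_le_mul_left _ hpj
            obtain ⟨m, hm⟩ : ∃ m, j n = m + 1 := ⟨j n - 1, by omega⟩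
            rw [hm] at h8 ⊢
            rw [Nat.add_sub_cancel]
            obtain ⟨d, hd⟩ : ∃ d, n = l + d := ⟨n - l, by omega⟩
            have e1 : n - l = d := by omega
            rw [e1]
            have e2 : d * (m + 1) = m * d + d := by ring
            have e3 : m * n = m * l + m * d := by rw [hd]; ring
            have e4 : l * (m + 1) = m * l + l := by ring
            omega
      · have h3 : Nat.card {R : Interp Bool ar2 (Fin n) // Unif p.1 p.2 (leB R) (inB R)} = 0 := by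
          have : IsEmpty {R : Interp Bool ar2 (Fin n) // Unif p.1 p.2 (leB R) (inB R)} := by
            refine ⟨fun R => hex ?_⟩
            obtain ⟨l, e, _⟩ := R.2.exists_coord
            have h3 := Fintype.card_congr e
            simp only [Fintype.card_sum, Fintype.card_prod, Fintype.card_fin] at h3
            exact ⟨l, h3.symm⟩
          exact Nat.card_of_isEmpty
        rw [h3, zero_pow (by omega)]
        exact Nat.zero_le _
    rcases T.eq_empty_or_nonempty with hTe | hTn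
    · have h1 := hle n
      rw [hTe, Finset.sum_empty] at h1
      have h2 : count χ n = 0 := by omega
      rw [h2, zero_pow (by omega)]
      exact Nat.zero_le _
    · obtain ⟨p₀, hp₀, hmax⟩ := Finset.exists_max_image T (fun p => Nat.card
        {R : Interp Bool ar2 (Fin n) // Unif p.1 p.2 (leB R) (inB R)}) hTn
      obtain ⟨X, hX'⟩ : ∃ X, X = Nat.card
        {R : Interp Bool ar2 (Fin n) // Unif p₀.1 p₀.2 (leB R) (inB R)} := ⟨_, rfl⟩
      have h1 : count χ n ≤ (k + 1) * (k + 1) * X := by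
        calc count χ n ≤ _ := hle n
          _ ≤ T.card • X := Finset.sum_le_card_nsmul _ _ _ (fun p hp => by
            rw [hX']; exact hmax p hp)
          _ = T.card * X := by rw [smul_eq_mul]
          _ ≤ _ := Nat.mul_le_mul_right _ hTc
      have h2 := hX p₀ hp₀
      rw [← hX'] at h2
      calc count χ n ^ j n ≤ ((k + 1) * (k + 1) * X) ^ j n := Nat.pow_le_pow_left h1 _
        _ = ((k + 1) * (k + 1)) ^ j n * X ^ j n := mul_pow _ _ _
        _ ≤ ((k + 1) * (k + 1)) ^ k * n ^ ((j n - 1) * n + k) :=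
            Nat.mul_le_mul (Nat.pow_le_pow_right (Nat.mul_pos (by omega) (by omega)) hjk) h2
        _ = (((k + 1) * (k + 1)) ^ k * n ^ k) * n ^ ((j n - 1) * n) := by rw [pow_add]; ring
        _ ≤ 2 ^ n * n ^ ((j n - 1) * n) := Nat.mul_le_mul_right _ hexp
        _ ≤ _ := Nat.mul_le_mul_right _ (Nat.pow_le_pow_left
            (Nat.le_mul_of_pos_left 2 (Nat.pow_pos (by omega))) n)
  · -- many models
    obtain ⟨t, ht⟩ : ∃ t, t = j n := ⟨_, rfl⟩
    obtain ⟨a, ha⟩ : ∃ a, a = n % t := ⟨_, rfl⟩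
    obtain ⟨l, hl⟩ : ∃ l, l = n / t := ⟨_, rfl⟩
    rw [← ht] at hj1 hjk hjB ⊢
    have hat : a < t := by rw [ha]; exact Nat.mod_lt _ hj1
    have hn : n = a + l * t := by
      rw [ha, hl, mul_comm]
      exact (Nat.mod_add_div n t).symm
    obtain ⟨R, hR⟩ := exists_unif hn
    have hmod : IsMod χ R := (hM R).2 ⟨(t, a), (hT _).2 ⟨hj1, hjk, hat, by
      rw [ha]
      exact hjB⟩, hR⟩
    have h1 : n.factorial ≤ count χ n * Nat.card (AuG R) := factorial_le hmod
    obtain ⟨l', e, he⟩ := hR.exists_coord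
    have h2 := aut_unif hj1 he
    have h3 : l' = l := by
      have h3 := Fintype.card_congr e
      simp only [Fintype.card_sum, Fintype.card_prod, Fintype.card_fin] at h3
      exact Nat.eq_of_mul_eq_mul_right hj1 (by omega)
    rw [h3] at h2
    have h4 : n ^ n ≤ 4 ^ n * (count χ n * (n ^ a * (n ^ l * t ^ (l * t)))) :=
      (pow_le_fac n).trans (Nat.mul_le_mul_left _ (h1.trans (Nat.mul_le_mul_left _ h2)))
    have h5 := Nat.pow_le_pow_left h4 t
    have h6 : (4 ^ n * (count χ n * (n ^ a * (n ^ l * t ^ (l * t))))) ^ t =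
        4 ^ (n * t) * (count χ n ^ t * (n ^ (a * t) * (n ^ (l * t) * t ^ (l * t * t)))) := by
      rw [mul_pow, mul_pow, mul_pow, mul_pow, ← pow_mul, ← pow_mul, ← pow_mul, ← pow_mul]
    rw [h6, ← pow_mul] at h5
    have h7 : n ^ (n * t) = n ^ ((t - 1) * n) * n ^ n := by
      rw [← pow_add]
      congr 1
      obtain ⟨m, rfl⟩ : ∃ m, t = m + 1 := ⟨t - 1, by omega⟩
      rw [Nat.add_sub_cancel]
      ring
    rw [h7] at h5
    have h8 : n ^ (l * t) ≤ n ^ n := Nat.pow_le_pow_right (by omega) (by omega)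
    have h9 : n ^ (a * t) ≤ 2 ^ n := by
      rw [one_mul] at hexp2
      refine le_trans (Nat.pow_le_pow_right (by omega) ?_) hexp2
      exact Nat.mul_le_mul (by omega) hjk
    have h10 : 4 ^ (n * t) * t ^ (l * t * t) ≤ ((4 * k) ^ k) ^ n := by
      calc 4 ^ (n * t) * t ^ (l * t * t) ≤ 4 ^ (n * k) * k ^ (n * k) := by
            refine Nat.mul_le_mul (Nat.pow_le_pow_right (by norm_num) (Nat.mul_le_mul_left _ hjk)) ?_
            exact (Nat.pow_le_pow_left hjk _).trans (Nat.pow_le_pow_right (by omega)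
              (Nat.mul_le_mul (by omega) hjk))
        _ = ((4 * k) ^ k) ^ n := by
            rw [← mul_pow, ← pow_mul, Nat.mul_comm n k]
    have h11 : n ^ ((t - 1) * n) * n ^ n ≤ (((4 * k) ^ k * 2) ^ n * count χ n ^ t) * n ^ n := by
      calc n ^ ((t - 1) * n) * n ^ n ≤
            4 ^ (n * t) * (count χ n ^ t * (n ^ (a * t) * (n ^ (l * t) * t ^ (l * t * t)))) := h5
        _ = (4 ^ (n * t) * t ^ (l * t * t)) * (count χ n ^ t * (n ^ (a * t) * n ^ (l * t))) := by ring
        _ ≤ ((4 * k) ^ k) ^ n * (count χ n ^ t * (2 ^ n * n ^ n)) :=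
            Nat.mul_le_mul h10 (Nat.mul_le_mul_left _ (Nat.mul_le_mul h9 h8))
        _ = _ := by rw [mul_pow ((4 * k) ^ k) 2 n]; ring
    exact Nat.le_of_mul_le_mul_right h11 (Nat.pow_pos (by omega))

end Pool.Agent.Helper20.MC
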