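import Pool.Agent.Helper20.Spectra.TwoFin
import Pool.Agent.Helper58.QD.Defs

/-!
# A sentence with at most `4 ^ n * n!` labelled models and a universal spectrum
-/

set_option autoImplicit false

namespace Pool.Agent.Helper20.MC

open FirstOrder FirstOrder.Language Pool.Agent.Helper20.Spectra Pool.Agent.Helper58.QD

/-- a binary symbol and a unary symbol -/
def ar2 : Bool → ℕ
  | true => 2
  | false => 1

/-- the order -/
def leB {M : Type} (R : Interp Bool ar2 M) (x y : M) : Prop := R true ![x, y]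

/-- the set -/
def inB {M : Type} (R : Interp Bool ar2 M) (x : M) : Prop := R false ![x]

/-- the union of two chains -/
structure TwoCh {M : Type} (le : M → M → Prop) (A : M → Prop) : Prop where
  refl : ∀ x, le x x
  trans : ∀ x y z, le x y → le y z → le x z
  anti : ∀ x y, le x y → le y x → x = y
  inn : ∀ x y, A x → A y → le x y ∨ le y x
  out : ∀ x y, ¬ A x → ¬ A y → le x y ∨ le y x

section Count

variable {M : Type} {le : M → M → Prop} {A : M → Prop}

/-- the extension of the order with the set above -/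
def ext1 (le : M → M → Prop) (A : M → Prop) (x y : M) : Prop :=
  ¬ x = y ∧ (le x y ∨ (¬ le x y ∧ ¬ le y x ∧ A y))

lemma TwoCh.compl (h : TwoCh le A) : TwoCh le (fun x => ¬ A x) :=
  ⟨h.refl, h.trans, h.anti, h.out, fun x y hx hy => h.inn x y (not_not.1 hx) (not_not.1 hy)⟩

lemma TwoCh.ext1_trans (h : TwoCh le A) {x y z : M} (h1 : ext1 le A x y) (h2 : ext1 le A y z) :
    ext1 le A x z := by
  obtain ⟨n1, h1⟩ := h1
  obtain ⟨n2, h2⟩ := h2
  have hA : ∀ u v, ¬ le u v → ¬ le v u → A v → ¬ A u := by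
    intro u v h3 h4 h5 h6
    rcases h.inn u v h6 h5 with h7 | h7
    · exact h3 h7
    · exact h4 h7
  have hA' : ∀ u v, ¬ le u v → ¬ le v u → ¬ A v → A u := by
    intro u v h3 h4 h5
    by_contra h6
    rcases h.out u v h6 h5 with h7 | h7
    · exact h3 h7
    · exact h4 h7
  rcases h1 with h1 | ⟨h1, h1', hy⟩
  · rcases h2 with h2 | ⟨h2, h2', hz⟩
    · refine ⟨?_, Or.inl (h.trans _ _ _ h1 h2)⟩
      rintro rfl
      exact n1 (h.anti _ _ h1 h2)
    · refine ⟨?_, ?_⟩
      · rintro rfl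
        exact h2' h1
      · by_cases h3 : le x z
        · exact Or.inl h3
        · refine Or.inr ⟨h3, fun h4 => h2' (h.trans _ _ _ h4 h1), hz⟩
  · rcases h2 with h2 | ⟨h2, h2', hz⟩
    · refine ⟨?_, ?_⟩
      · rintro rfl
        exact h1' h2
      · by_cases h3 : le x z
        · exact Or.inl h3
        · have h4 : ¬ le z x := fun h4 => h1' (h.trans _ _ _ h2 h4)
          refine Or.inr ⟨h3, h4, ?_⟩
          by_contra hz
          exact hA x y h1 h1' hy (hA' x z h3 h4 hz)
    · exact absurd hy (hA y z h2 h2' hz)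

lemma TwoCh.ext1_slin (h : TwoCh le A) : SLin (ext1 le A) := by
  refine ⟨fun x hx => hx.1 rfl, fun x y z h1 h2 => h.ext1_trans h1 h2, fun x y => ?_⟩
  by_cases hxy : x = y
  · exact Or.inr (Or.inl hxy)
  · by_cases h1 : le x y
    · exact Or.inl ⟨hxy, Or.inl h1⟩
    · by_cases h2 : le y x
      · exact Or.inr (Or.inr ⟨Ne.symm hxy, Or.inl h2⟩)
      · by_cases hy : A y
        · exact Or.inl ⟨hxy, Or.inr ⟨h1, h2, hy⟩⟩
        · refine Or.inr (Or.inr ⟨Ne.symm hxy, Or.inr ⟨h2, h1, ?_⟩⟩)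
          by_contra hx
          rcases h.out x y hx hy with h3 | h3
          · exact h1 h3
          · exact h2 h3

lemma TwoCh.le_iff (h : TwoCh le A) (x y : M) :
    le x y ↔ x = y ∨ (ext1 le A x y ∧ ext1 le (fun x => ¬ A x) x y) := by
  constructor
  · intro h1
    by_cases hxy : x = y
    · exact Or.inl hxy
    · exact Or.inr ⟨⟨hxy, Or.inl h1⟩, ⟨hxy, Or.inl h1⟩⟩
  · rintro (rfl | ⟨⟨_, h1 | ⟨_, _, h1⟩⟩, ⟨_, h2 | ⟨_, _, h2⟩⟩⟩)
    · exact h.refl _
    · exact h1
    · exact h1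
    · exact h2
    · exact absurd h1 h2

lemma TwoCh.ext1_in (h : TwoCh le A) {x y : M} (hx : A x) (hy : A y) :
    ext1 le A x y ↔ ext1 le (fun x => ¬ A x) x y := by
  unfold ext1
  apply and_congr_right
  intro _
  constructor
  · rintro (h1 | ⟨h1, h2, _⟩)
    · exact Or.inl h1
    · rcases h.inn x y hx hy with h3 | h3
      · exact absurd h3 h1
      · exact absurd h3 h2
  · rintro (h1 | ⟨_, _, h1⟩)
    · exact Or.inl h1
    · exact absurd hy h1

lemma TwoCh.ext1_out (h : TwoCh le A) {x y : M} (hx : ¬ A x) (hy : ¬ A y) :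
    ext1 le A x y ↔ ext1 le (fun x => ¬ A x) x y := by
  unfold ext1
  apply and_congr_right
  intro _
  constructor
  · rintro (h1 | ⟨_, _, h1⟩)
    · exact Or.inl h1
    · exact absurd h1 hy
  · rintro (h1 | ⟨h1, h2, _⟩)
    · exact Or.inl h1
    · rcases h.out x y hx hy with h3 | h3
      · exact absurd h3 h1
      · exact absurd h3 h2

lemma rank_inj {n : ℕ} {A : Finset (Fin n)} {e e2 e2' : Fin n ≃ Fin n}
    (h : ∀ x ∈ A, ∀ y ∈ A, (e x < e y ↔ e2 x < e2 y))
    (h' : ∀ x ∈ A, ∀ y ∈ A, (e x < e y ↔ e2' x < e2' y))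
    (hB : A.image e2 = A.image e2') : ∀ x ∈ A, e2 x = e2' x := by
  have key : ∀ f : Fin n ≃ Fin n, (∀ x ∈ A, ∀ y ∈ A, (e x < e y ↔ f x < f y)) → ∀ x ∈ A,
      ((A.image f).filter (fun b => b < f x)).card = (A.filter (fun y => e y < e x)).card := by
    intro f hf x hx
    have e1 : (A.image f).filter (fun b => b < f x) =
        (A.filter (fun y => e y < e x)).image f := by
      ext b
      simp only [Finset.mem_filter, Finset.mem_image]
      constructor
      · rintro ⟨⟨y, hy, rfl⟩, h2⟩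
        exact ⟨y, ⟨hy, (hf y hy x hx).2 h2⟩, rfl⟩
      · rintro ⟨y, ⟨hy, h2⟩, rfl⟩
        exact ⟨⟨y, hy, rfl⟩, (hf y hy x hx).1 h2⟩
    rw [e1, Finset.card_image_of_injective _ f.injective]
  have main : ∀ f f' : Fin n ≃ Fin n, (∀ x ∈ A, ∀ y ∈ A, (e x < e y ↔ f x < f y)) →
      (∀ x ∈ A, ∀ y ∈ A, (e x < e y ↔ f' x < f' y)) → A.image f = A.image f' → ∀ x ∈ A,
      ¬ f x < f' x := by
    intro f f' hf hf' hB x hx hlt
    have h1 := key f hf x hx
    have h2 := key f' hf' x hx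
    rw [← h2, hB] at h1
    have h3 : (A.image f').filter (fun b => b < f x) ⊂ (A.image f').filter (fun b => b < f' x) := by
      rw [Finset.ssubset_iff_of_subset]
      · refine ⟨f x, ?_, ?_⟩
        · rw [Finset.mem_filter, ← hB]
          exact ⟨Finset.mem_image_of_mem _ hx, hlt⟩
        · rw [Finset.mem_filter]
          rintro ⟨_, h4⟩
          exact lt_irrefl _ h4
      · intro b hb
        rw [Finset.mem_filter] at hb ⊢
        exact ⟨hb.1, hb.2.trans hlt⟩
    have := Finset.card_lt_card h3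
    omega
  intro x hx
  rcases lt_trichotomy (e2 x) (e2' x) with h1 | h1 | h1
  · exact absurd h1 (main e2 e2' h h' hB x hx)
  · exact h1
  · exact absurd h1 (main e2' e2 h' h hB.symm x hx)

lemma image_compl' {n : ℕ} (e : Fin n ≃ Fin n) (A : Finset (Fin n)) :
    (Aᶜ).image e = (A.image e)ᶜ := by
  ext b
  simp only [Finset.mem_image, Finset.mem_compl]
  constructor
  · rintro ⟨a, ha, rfl⟩ ⟨a', ha', h⟩
    rw [e.injective h] at ha'
    exact ha ha'
  · intro h
    refine ⟨e.symm b, fun h1 => h ⟨e.symm b, h1, e.apply_symm_apply b⟩, e.apply_symm_apply b⟩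

open Classical in
/-- there are at most `n! * 4 ^ n` unions of two chains -/
theorem card_twoCh (n : ℕ) :
    Nat.card {R : Interp Bool ar2 (Fin n) // TwoCh (leB R) (inB R)} ≤ 4 ^ n * n.factorial := by
  have h1 : ∀ R : {R : Interp Bool ar2 (Fin n) // TwoCh (leB R) (inB R)},
      ∃ e : Fin n ≃ Fin n, ∀ x y, ext1 (leB R.1) (inB R.1) x y ↔ e x < e y := fun R =>
    exists_enum R.2.ext1_slin (Fintype.card_fin n)
  have h2 : ∀ R : {R : Interp Bool ar2 (Fin n) // TwoCh (leB R) (inB R)},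
      ∃ e : Fin n ≃ Fin n, ∀ x y, ext1 (leB R.1) (fun x => ¬ inB R.1 x) x y ↔ e x < e y :=
    fun R => exists_enum R.2.compl.ext1_slin (Fintype.card_fin n)
  choose e1 he1 using h1
  choose e2 he2 using h2
  let st : {R : Interp Bool ar2 (Fin n) // TwoCh (leB R) (inB R)} → Finset (Fin n) := fun R =>
    Finset.univ.filter (fun x => inB R.1 x)
  have hst : ∀ R x, x ∈ st R ↔ inB R.1 x := fun R x => by simp [st]
  let F : {R : Interp Bool ar2 (Fin n) // TwoCh (leB R) (inB R)} →
      (Fin n ≃ Fin n) × (Finset (Fin n) × Finset (Fin n)) :=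
    fun R => (e1 R, (st R, (st R).image (e2 R)))
  have hF : Function.Injective F := by
    intro R R' hRR
    have g1 : e1 R = e1 R' := congrArg Prod.fst hRR
    have g2 : st R = st R' := congrArg (fun p => p.2.1) hRR
    have g3 : (st R).image (e2 R) = (st R').image (e2 R') := congrArg (fun p => p.2.2) hRR
    have gA : ∀ x, inB R.1 x ↔ inB R'.1 x := fun x => by rw [← hst, ← hst, g2]
    have a1 : ∀ x ∈ st R, e2 R x = e2 R' x := by
      refine rank_inj (e := e1 R) ?_ ?_ (by rw [g3, ← g2])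
      · intro x hx y hy
        rw [← he1, ← he2]
        exact R.2.ext1_in ((hst R x).1 hx) ((hst R y).1 hy)
      · intro x hx y hy
        rw [g1, ← he1, ← he2]
        rw [g2] at hx hy
        exact R'.2.ext1_in ((hst R' x).1 hx) ((hst R' y).1 hy)
    have a2 : ∀ x ∈ (st R)ᶜ, e2 R x = e2 R' x := by
      refine rank_inj (e := e1 R) ?_ ?_ ?_
      · intro x hx y hy
        rw [Finset.mem_compl, hst] at hx hy
        rw [← he1, ← he2]
        exact R.2.ext1_out hx hy
      · intro x hx y hy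
        rw [g2, Finset.mem_compl, hst] at hx hy
        rw [g1, ← he1, ← he2]
        exact R'.2.ext1_out hx hy
      · rw [image_compl', image_compl', g3, g2]
    have a3 : ∀ x, e2 R x = e2 R' x := by
      intro x
      by_cases hx : x ∈ st R
      · exact a1 x hx
      · exact a2 x (Finset.mem_compl.2 hx)
    have b1 : ∀ x y, leB R.1 x y ↔ leB R'.1 x y := by
      intro x y
      rw [R.2.le_iff, R'.2.le_iff, he1, he1, he2, he2, g1, a3 x, a3 y]
    apply Subtype.ext
    funext b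
    cases b with
    | true =>
      funext v
      have hv : v = ![v (0 : Fin 2), v (1 : Fin 2)] := by
        funext i
        fin_cases i <;> rfl
      rw [hv]
      exact propext (b1 (v (0 : Fin 2)) (v (1 : Fin 2)))
    | false =>
      funext v
      have hv : v = ![v (0 : Fin 1)] := by
        funext i
        fin_cases i
        rfl
      rw [hv]
      exact propext (gA (v (0 : Fin 1)))
  calc Nat.card {R : Interp Bool ar2 (Fin n) // TwoCh (leB R) (inB R)}
      ≤ Nat.card ((Fin n ≃ Fin n) × (Finset (Fin n) × Finset (Fin n))) :=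
        Nat.card_le_card_of_injective F hF
    _ = 4 ^ n * n.factorial := by
      rw [Nat.card_prod, Nat.card_prod, Nat.card_eq_fintype_card, Nat.card_eq_fintype_card,
        Fintype.card_finset, Fintype.card_equiv (Equiv.refl _), Fintype.card_fin]
      have : (4 : ℕ) ^ n = 2 ^ n * 2 ^ n := by
        rw [← mul_pow]
        norm_num
      rw [this]
      ring

end Count

section Definability

lemma leB_BFD : BFD (S := Bool) (ar := ar2) (fun _ R => leB R) := by
  intro α e e' he he'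
  obtain ⟨a, ha⟩ := he
  obtain ⟨b, hb⟩ := he'
  refine FD.rel (S := Bool) (ar := ar2) true ⟨![a, b], fun M v => ?_⟩
  beta_reduce
  rw [ha, hb]
  funext i
  fin_cases i <;> rfl

lemma inB_UFD : UFD (S := Bool) (ar := ar2) (fun _ R => inB R) := by
  intro α e he
  obtain ⟨a, ha⟩ := he
  refine FD.rel (S := Bool) (ar := ar2) false ⟨![a], fun M v => ?_⟩
  beta_reduce
  rw [ha]
  funext i
  fin_cases i
  rfl

lemma twoCh_FD : FD Bool ar2 Empty (fun _ R _ => TwoCh (leB R) (inB R)) := by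
  have hP : FD Bool ar2 Empty (fun M R _ => (∀ x : M, leB R x x) ∧
      (∀ x y z : M, leB R x y → leB R y z → leB R x z) ∧
      (∀ x y : M, leB R x y → leB R y x → x = y) ∧
      (∀ x y : M, inB R x → inB R y → (leB R x y ∨ leB R y x)) ∧
      (∀ x y : M, ¬ inB R x → ¬ inB R y → (leB R x y ∨ leB R y x))) := by
    have v0 : ∀ {α : Type}, El (α ⊕ Unit) (fun M v => v (Sum.inr ())) := El.inr
    have hle := leB_BFD
    have hin := inB_UFD
    refine FD.and (FD.all1 (hle _ _ _ v0 v0)) (FD.and (FD.all1 (FD.all1 (FD.all1 (FD.imp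
      (hle _ _ _ v0.inl.inl v0.inl) (FD.imp (hle _ _ _ v0.inl v0) (hle _ _ _ v0.inl.inl v0))))))
      (FD.and (FD.all1 (FD.all1 (FD.imp (hle _ _ _ v0.inl v0) (FD.imp (hle _ _ _ v0 v0.inl)
        (FD.eq v0.inl v0))))) (FD.and (FD.all1 (FD.all1 (FD.imp (hin _ _ v0.inl) (FD.imp
        (hin _ _ v0) (FD.or (hle _ _ _ v0.inl v0) (hle _ _ _ v0 v0.inl))))))
        (FD.all1 (FD.all1 (FD.imp (FD.not (hin _ _ v0.inl)) (FD.imp
        (FD.not (hin _ _ v0)) (FD.or (hle _ _ _ v0.inl v0) (hle _ _ _ v0 v0.inl)))))))))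
  refine hP.congr (fun M R v => ?_)
  constructor
  · rintro ⟨h1, h2, h3, h4, h5⟩
    exact ⟨h1, h2, h3, h4, h5⟩
  · rintro ⟨h1, h2, h3, h4, h5⟩
    exact ⟨h1, h2, h3, h4, h5⟩

end Definability

/-- for every finite set of blocks there is a sentence with few models -/
theorem wild_block (Θ : Finset (ℕ × ℕ × ℕ × ℕ)) :
    ∃ (χ : (RelLang Bool ar2).Sentence) (s : ℕ), (∀ n, count χ n ≤ 4 ^ n * n.factorial) ∧
      1 ≤ s ∧ ∀ n, 1 ≤ n → (n ∈ squareSizes Θ ↔
        ∃ R : Interp Bool ar2 (Fin (s * ((n + 2) * (n + 2)))), IsMod χ R) := by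
  obtain ⟨T, hT⟩ : ∃ T : ℕ, ∀ θ ∈ Θ, θ.1 ≤ T :=
    ⟨Θ.sup (fun θ => θ.1), fun θ hθ => Finset.le_sup (f := fun θ : ℕ × ℕ × ℕ × ℕ => θ.1) hθ⟩
  obtain ⟨χ, hχ⟩ := FD.and twoCh_FD (leB_BFD.posS Θ T (α := Empty))
  have hM : ∀ {M : Type} (R : Interp Bool ar2 M),
      IsMod χ R ↔ TwoCh (leB R) (inB R) ∧ PosS Θ T (leB R) := by
    intro M R
    have h1 := hχ M R Empty.elim
    beta_reduce at h1
    rw [← h1]
    exact (real_iff (mkS R) χ Empty.elim default).symm
  refine ⟨χ, 2 * nC T + 1, fun n => ?_, by omega, fun n hn => ?_⟩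
  · refine le_trans ?_ (card_twoCh n)
    exact Nat.card_le_card_of_injective
      (fun R : {R : Interp Bool ar2 (Fin n) // IsMod χ R} => (⟨R.1, ((hM R.1).1 R.2).1⟩ :
        {R : Interp Bool ar2 (Fin n) // TwoCh (leB R) (inB R)}))
      (fun R R' h => Subtype.ext (congrArg (fun p => p.1) h))
  · constructor
    · intro h
      obtain ⟨W, kk, hcod, hpos⟩ := posS_encode hT h
      have hs0 : 0 < 2 * nC T + 1 := by omega
      let R : Interp Bool ar2 (Fin ((2 * nC T + 1) * ((n + 2) * (n + 2)))) := fun b =>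
        match b with
        | true => fun v => kle (2 * nC T + 1) W kk ((n + 2) * (n + 2)) (v (0 : Fin 2)) (v (1 : Fin 2))
        | false => fun v => Low (2 * nC T + 1) kk (v (0 : Fin 1) : ℕ)
      have e1 : leB R = kle (2 * nC T + 1) W kk ((n + 2) * (n + 2)) := by
        funext x y
        rfl
      have e2 : inB R = fun x : Fin ((2 * nC T + 1) * ((n + 2) * (n + 2))) =>
          Low (2 * nC T + 1) kk (x : ℕ) := by
        funext x
        rfl
      refine ⟨R, (hM R).2 ?_⟩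
      rw [e1, e2]
      refine ⟨⟨fun x => ⟨le_rfl, le_rfl⟩, fun x y z h1 h2 => ⟨h1.1.trans h2.1, h1.2.trans h2.2⟩,
        fun x y h1 h2 => le_antisymm h1.1 h2.1, fun x y hx hy => ?_, fun x y hx hy => ?_⟩, hpos⟩
      · by_contra hc
        push Not at hc
        rcases (pinc_iff hs0 x y).1 hc with h3 | h3
        · exact h3.1 hx
        · exact h3.1 hy
      · by_contra hc
        push Not at hc
        rcases (pinc_iff hs0 x y).1 hc with h3 | h3
        · exact hy h3.2.1
        · exact hx h3.2.1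
    · rintro ⟨R, hR⟩
      have h1 := ((hM R).1 hR).2
      exact posS_decode hn (fun _ v => R true v) (Fintype.card_fin _) h1

/-- the universal spectrum -/
theorem wild : ∃ χ : (RelLang Bool ar2).Sentence, (∀ n, count χ n ≤ 4 ^ n * n.factorial) ∧
    ∀ A : Set ℕ, IsSpectrum A → ∃ q : Polynomial ℕ, ∀ n, 1 ≤ n →
      1 ≤ q.eval n ∧ (n ∈ A ↔ ∃ R : Interp Bool ar2 (Fin (q.eval n)), IsMod χ R) := by
  obtain ⟨k₀, Θ₀, hΘ₀⟩ := spectrum_blocks univSizes_spectrum
  obtain ⟨χ, s, h1, hs, h2⟩ := wild_block Θ₀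
  refine ⟨χ, h1, fun A hA => ?_⟩
  obtain ⟨k, Θ, hΘ⟩ := spectrum_blocks hA
  obtain ⟨t, rfl⟩ := exists_blk Θ
  obtain ⟨q, hq⟩ : ∃ q : Polynomial ℕ, q = ((Polynomial.X ^ (k + 1) + Polynomial.C (2 + t)) ^ 2 +
    Polynomial.C t) ^ (k₀ + 1) := ⟨_, rfl⟩
  have hev : ∀ n : ℕ, q.eval n = ((n ^ (k + 1) + 2 + t) ^ 2 + t) ^ (k₀ + 1) := by
    intro n
    rw [hq]
    simp [add_assoc]
  refine ⟨Polynomial.C s * ((q + Polynomial.C 2) * (q + Polynomial.C 2)), fun n hn => ?_⟩
  have h3 : (Polynomial.C s * ((q + Polynomial.C 2) * (q + Polynomial.C 2))).eval n =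
      s * ((q.eval n + 2) * (q.eval n + 2)) := by
    simp
  have h4 : 1 ≤ (n ^ (k + 1) + 2 + t) ^ 2 + t := by
    have : 1 ≤ (n ^ (k + 1) + 2 + t) ^ 2 := Nat.one_le_pow _ _ (by omega)
    omega
  have h5 : 1 ≤ q.eval n := by
    rw [hev]
    exact Nat.one_le_pow _ _ h4
  rw [h3]
  refine ⟨Nat.mul_pos hs (Nat.mul_pos (by omega) (by omega)), ?_⟩
  rw [hΘ n hn, ← mem_univSizes, hΘ₀ _ h4, ← hev, h2 _ h5]

end Pool.Agent.Helper20.MC
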